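import Pool.Agent.R693.W.Gen

/-!
The ascending chain condition on semiprime ideals for algebras generated by elements satisfying the
Virasoro relations.
-/

set_option autoImplicit false
set_option linter.unusedSectionVars false

namespace Pool.Agent.R693.Vir

open Pool.Agent.R693.W hiding Q PJ Fl GG evaluate vanish kill_cross pair kill adT_e ad_e perm_mem Fl_succ wd_mem Fl_mono e_mul_mem Can Can.inj X

open Polynomial

variable {F : Type*} [Field F] {A : Type*} [Ring A] [Algebra F A]

/-- The relations of the Virasoro algebra with central element `z`. -/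
def IsVirZ (F : Type*) [Field F] {A : Type*} [Ring A] [Algebra F A] (e : ℤ → A) (z : A) : Prop :=
  (∀ x, z * x = x * z) ∧ ∀ m n : ℤ, e m * e n - e n * e m = ((m - n : ℤ) : F) • e (m + n) +
    (if m + n = 0 then (((m : F) ^ 3 - (m : F)) / 12) • z else 0)

lemma aeval_comm {z : A} (hz : ∀ x, z * x = x * z) (f : F[X]) (x : A) :
    aeval z f * x = x * aeval z f := by
  induction f using Polynomial.induction_on' with
  | add p q hp hq => rw [map_add, add_mul, mul_add, hp, hq]
  | monomial n a =>
    rw [aeval_monomial]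
    have h1 : Commute z x := hz x
    have h2 : Commute (algebraMap F A a) x := Algebra.commutes a x
    exact (h2.mul_left (h1.pow_left n)).eq

/-- The algebra structure over polynomials given by a central element. -/
noncomputable abbrev polyAlg {z : A} (hz : ∀ x, z * x = x * z) : Algebra F[X] A :=
  RingHom.toAlgebra' (aeval z : F[X] →ₐ[F] A).toRingHom (aeval_comm hz)

lemma exists_poly [CharZero F] {e : ℤ → A} {z : A} (he : IsVirZ F e z)
    (hgen : Algebra.adjoin F (insert z (Set.range e)) = ⊤) {I : TwoSidedIdeal A} (hI : I ≠ ⊥) :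
    ∃ f : F[X], f ≠ 0 ∧ aeval z f ∈ I := by
  let _ := polyAlg (F := F) he.1
  have hmap : ∀ f : F[X], algebraMap F[X] A f = aeval z f := fun f => rfl
  have hsm : ∀ (f : F[X]) (x : A), f • x = aeval z f * x := fun f x => by
    rw [Algebra.smul_def, hmap]
  have hV : IsVir (C := F[X]) (C (12⁻¹ : F) * X) e := by
    intro m n
    rw [he.2 m n]
    congr 1
    · rw [hsm, Algebra.smul_def]
      congr 1
      simp
    · split_ifs
      · have h1 : (C (12⁻¹ : F) * X * ((m : F[X]) ^ 3 - (m : F[X])) : F[X]) =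
            C (((m : F) ^ 3 - (m : F)) / 12) * X := by
          rw [div_eq_mul_inv, map_mul, map_sub, map_pow, map_intCast]
          ring
        rw [hmap, h1, map_mul, aeval_C, aeval_X, Algebra.smul_def]
      · rfl
  have hg : Algebra.adjoin F[X] (Set.range e) = ⊤ := by
    rw [eq_top_iff]
    intro x _
    have hx : x ∈ Algebra.adjoin F (insert z (Set.range e)) := by rw [hgen]; trivial
    induction hx using Algebra.adjoin_induction with
    | mem x hx =>
      rcases hx with rfl | hx
      · have : algebraMap F[X] A X ∈ Algebra.adjoin F[X] (Set.range e) :=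
          Subalgebra.algebraMap_mem _ _
        rwa [hmap, aeval_X] at this
      · exact Algebra.subset_adjoin hx
    | algebraMap r =>
      have : algebraMap F[X] A (C r) ∈ Algebra.adjoin F[X] (Set.range e) :=
        Subalgebra.algebraMap_mem _ _
      rwa [hmap, aeval_C] at this
    | add x y _ _ hx hy => exact Subalgebra.add_mem _ (hx trivial) (hy trivial)
    | mul x y _ _ hx hy => exact Subalgebra.mul_mem _ (hx trivial) (hy trivial)
  have hex : ∃ x ∈ I, x ≠ 0 := by
    by_contra h
    push Not at h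
    apply hI
    rw [eq_bot_iff]
    intro x hx
    rw [TwoSidedIdeal.mem_bot]
    exact h x hx
  obtain ⟨x, hx, hx0⟩ := hex
  obtain ⟨k, hk⟩ := span_of_adjoin hg x
  let I' : Submodule F[X] A :=
    { carrier := {y | y ∈ I}
      add_mem' := fun ha hb => I.add_mem ha hb
      zero_mem' := I.zero_mem
      smul_mem' := fun f y hy => by
        change f • y ∈ I
        rw [hsm]
        exact I.mul_mem_left _ _ hy }
  obtain ⟨r, hr, hrI⟩ := exists_scalar (C := F[X]) (c := C (12⁻¹ : F) * X)
    (mul_ne_zero (by simp) X_ne_zero) hV I'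
    (fun m y hy => I.sub_mem (I.mul_mem_left _ _ hy) (I.mul_mem_right _ _ hy)) (x := x) hx hx0 hk
  exact ⟨r, hr, hrI⟩

lemma prime_central {P : TwoSidedIdeal A} (hP : IsPrimeT P) {x y : A} (hx : ∀ a, x * a = a * x)
    (h : x * y ∈ P) : x ∈ P ∨ y ∈ P := by
  let I : TwoSidedIdeal A := TwoSidedIdeal.mk' {a | ∀ u, a * u * y ∈ P}
    (fun u => by rw [zero_mul, zero_mul]; exact P.zero_mem)
    (fun {a b} ha hb u => by rw [add_mul, add_mul]; exact P.add_mem (ha u) (hb u))
    (fun {a} ha u => by rw [neg_mul, neg_mul]; exact P.neg_mem (ha u))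
    (fun {a b} hb u => by
      rw [mul_assoc a, mul_assoc a]; exact P.mul_mem_left _ _ (hb u))
    (fun {a b} ha u => by rw [mul_assoc a]; exact ha (b * u))
  have hI : ∀ {a : A}, a ∈ I ↔ ∀ u, a * u * y ∈ P := fun {a} => by
    change a ∈ TwoSidedIdeal.mk' _ _ _ _ _ _ ↔ _
    rw [TwoSidedIdeal.mem_mk']
    rfl
  rcases hP.2 I (colon I P) (fun a ha b hb => mem_colon.mp hb a ha) with h1 | h1
  · left
    apply h1
    rw [hI]
    intro u
    rw [hx u, mul_assoc]
    exact P.mul_mem_left _ _ h
  · right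
    apply h1
    rw [mem_colon]
    intro v hv
    have := hI.mp hv 1
    rwa [mul_one] at this

lemma exists_root_mem [IsAlgClosed F] {z : A} (hz : ∀ x, z * x = x * z) {P : TwoSidedIdeal A}
    (hP : IsPrimeT P) {f : F[X]} (hf : f ≠ 0) (hfP : aeval z f ∈ P) :
    ∃ a ∈ f.roots, z - algebraMap F A a ∈ P := by
  have h1 : f = C f.leadingCoeff * (f.roots.map fun a => X - C a).prod :=
    (IsAlgClosed.splits f).eq_prod_roots
  have h2 : aeval z (f.roots.map fun a => X - C a).prod ∈ P := by
    have h3 : aeval z (C (f.leadingCoeff)⁻¹ * f) ∈ P := by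
      rw [map_mul]
      exact P.mul_mem_left _ _ hfP
    have h4 : C (f.leadingCoeff)⁻¹ * f = (f.roots.map fun a => X - C a).prod := by
      have hl : f.leadingCoeff ≠ 0 := leadingCoeff_ne_zero.mpr hf
      calc C (f.leadingCoeff)⁻¹ * f
          = C (f.leadingCoeff)⁻¹ * (C f.leadingCoeff * (f.roots.map fun a => X - C a).prod) := by
            rw [← h1]
        _ = (f.roots.map fun a => X - C a).prod := by
            rw [← mul_assoc, ← C_mul, inv_mul_cancel₀ hl, C_1, one_mul]
    rwa [h4] at h3
  clear h1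
  revert h2
  generalize f.roots = s
  intro h2
  induction s using Multiset.induction_on with
  | empty =>
    exfalso
    apply hP.1
    rw [← TwoSidedIdeal.one_mem_iff]
    simpa using h2
  | cons a s ih =>
    rw [Multiset.map_cons, Multiset.prod_cons, map_mul] at h2
    rcases prime_central hP (aeval_comm hz (X - C a)) h2 with h3 | h3
    · refine ⟨a, Multiset.mem_cons_self a s, ?_⟩
      simpa using h3
    · obtain ⟨b, hb, hbP⟩ := ih h3
      exact ⟨b, Multiset.mem_cons_of_mem hb, hbP⟩

/-- The quotient algebra by a two-sided ideal. -/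
abbrev Quo (J : TwoSidedIdeal A) : Type _ := J.ringCon.Quotient

/-- The quotient map. -/
def quo (J : TwoSidedIdeal A) : A →ₐ[F] Quo J := J.ringCon.mkₐ F

lemma quo_surj (J : TwoSidedIdeal A) : Function.Surjective (quo (F := F) J) :=
  RingCon.mkₐ_surjective (α := F) J.ringCon

lemma quo_eq_zero (J : TwoSidedIdeal A) {x : A} : quo (F := F) J x = 0 ↔ x ∈ J := by
  rw [← map_zero (quo (F := F) J), TwoSidedIdeal.mem_iff]
  exact RingCon.eq _

/-- A proper ideal containing `z - a` with `a ≠ 0` is generated by `z - a`. -/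
lemma eq_span [CharZero F] {e : ℤ → A} {z : A} (he : IsVirZ F e z)
    (hgen : Algebra.adjoin F (insert z (Set.range e)) = ⊤) {a : F} (ha : a ≠ 0)
    {P : TwoSidedIdeal A} (hP : P ≠ ⊤) (h : z - algebraMap F A a ∈ P) :
    P = TwoSidedIdeal.span {z - algebraMap F A a} := by
  set J := TwoSidedIdeal.span {z - algebraMap F A a} with hJ
  have hJP : J ≤ P := by
    rw [hJ, TwoSidedIdeal.span_le]
    simpa using h
  have hz : quo (F := F) J z = algebraMap F (Quo J) a := by
    have : quo (F := F) J (z - algebraMap F A a) = 0 :=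
      (quo_eq_zero J).mpr (TwoSidedIdeal.subset_span rfl)
    rw [map_sub, sub_eq_zero, AlgHom.commutes] at this
    exact this
  have hV : IsVir (C := F) (a / 12) (fun n => quo (F := F) J (e n)) := by
    intro m n
    beta_reduce
    rw [← map_mul, ← map_mul, ← map_sub, he.2 m n, map_add, map_smul]
    congr 1
    split_ifs
    · rw [map_smul, hz, Algebra.smul_def, ← map_mul]
      congr 1
      ring
    · exact map_zero _
  have hg : Algebra.adjoin F (Set.range fun n => quo (F := F) J (e n)) = ⊤ := by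
    rw [eq_top_iff]
    intro y _
    obtain ⟨x, rfl⟩ := quo_surj (F := F) J y
    have hx : x ∈ Algebra.adjoin F (insert z (Set.range e)) := by rw [hgen]; trivial
    induction hx using Algebra.adjoin_induction with
    | mem x hx =>
      rcases hx with rfl | ⟨n, rfl⟩
      · rw [hz]; exact Subalgebra.algebraMap_mem _ _
      · exact Algebra.subset_adjoin ⟨n, rfl⟩
    | algebraMap r => rw [AlgHom.commutes]; exact Subalgebra.algebraMap_mem _ _
    | add x y _ _ hx hy => rw [map_add]; exact Subalgebra.add_mem _ (hx trivial) (hy trivial)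
    | mul x y _ _ hx hy => rw [map_mul]; exact Subalgebra.mul_mem _ (hx trivial) (hy trivial)
  refine le_antisymm ?_ hJP
  intro x hx
  by_contra hxJ
  apply hP
  have hker : ∀ y, (quo (F := F) J).toRingHom y = 0 → y ∈ P := fun y hy =>
    hJP ((quo_eq_zero (F := F) J).mp hy)
  let Q : TwoSidedIdeal (Quo J) := img (quo (F := F) J).toRingHom (quo_surj J) P
  have hxQ : quo (F := F) J x ∈ Q := mem_img.mpr ⟨x, hx, rfl⟩
  let Q' : Submodule F (Quo J) :=
    { carrier := {y | y ∈ Q}
      add_mem' := fun ha hb => Q.add_mem ha hb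
      zero_mem' := Q.zero_mem
      smul_mem' := fun f y hy => by
        change f • y ∈ Q
        rw [Algebra.smul_def]
        exact Q.mul_mem_left _ _ hy }
  obtain ⟨k, hk⟩ := span_of_adjoin hg (quo (F := F) J x)
  obtain ⟨r, hr, hrQ⟩ := exists_scalar (C := F) (c := a / 12) (div_ne_zero ha (by norm_num)) hV Q'
    (fun m y hy => Q.sub_mem (Q.mul_mem_left _ _ hy) (Q.mul_mem_right _ _ hy))
    (x := quo (F := F) J x) hxQ (fun h0 => hxJ ((quo_eq_zero J).mp h0)) hk
  have h1 : quo (F := F) J (algebraMap F A r) ∈ Q := by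
    rw [AlgHom.commutes]; exact hrQ
  have h2 : algebraMap F A r ∈ P := (map_mem_img hker).mp h1
  rw [← TwoSidedIdeal.one_mem_iff]
  have h3 := P.mul_mem_left (algebraMap F A r⁻¹) _ h2
  rwa [← map_mul, inv_mul_cancel₀ hr, map_one] at h3

/-- Chains of semiprime ideals containing `z`. -/
lemma acc_zero [CharZero F] {e : ℤ → A} {z : A} (he : IsVirZ F e z)
    (hgen : Algebra.adjoin F (insert z (Set.range e)) = ⊤) (I : ℕ → TwoSidedIdeal A)
    (hmono : Monotone I) (hsp : ∀ i, IsSemiprimeT (I i)) (hz : ∀ i, z ∈ I i) :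
    ∃ n, ∀ m, n ≤ m → I m = I n := by
  set J := TwoSidedIdeal.span {z} with hJ
  have hz0 : quo (F := F) J z = 0 := (quo_eq_zero J).mpr (TwoSidedIdeal.subset_span rfl)
  have hW : IsW F (fun n : ℤ => - quo (F := F) J (e (n - 1))) := by
    intro m n j hmn
    beta_reduce
    rw [neg_mul_neg, neg_mul_neg, ← map_mul, ← map_mul, ← map_sub, he.2, map_add, map_smul]
    have h1 : (quo (F := F) J) (if m - 1 + (n - 1) = 0 then
        ((((m - 1 : ℤ) : F) ^ 3 - ((m - 1 : ℤ) : F)) / 12) • z else 0) = 0 := by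
      split_ifs
      · rw [map_smul, hz0, smul_zero]
      · exact map_zero _
    rw [h1, add_zero, smul_neg, ← neg_smul]
    have h2 : (Lab.one : ℤ) = 1 := rfl
    have h3 : ∀ k : ℤ, (Lab.c k : ℤ) = k := fun k => rfl
    rw [h2] at hmn
    rw [h3, h3]
    congr 2
    · push_cast
      ring
    · congr 1
      omega
  have hg : Algebra.adjoin F (Set.range fun n : ℤ => - quo (F := F) J (e (n - 1))) = ⊤ := by
    rw [eq_top_iff]
    intro y _
    obtain ⟨x, rfl⟩ := quo_surj (F := F) J y
    have hx : x ∈ Algebra.adjoin F (insert z (Set.range e)) := by rw [hgen]; trivial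
    induction hx using Algebra.adjoin_induction with
    | mem x hx =>
      rcases hx with rfl | ⟨n, rfl⟩
      · rw [hz0]; exact Subalgebra.zero_mem _
      · have h1 : - quo (F := F) J (e (n + 1 - 1)) ∈
            Algebra.adjoin F (Set.range fun n : ℤ => - quo (F := F) J (e (n - 1))) :=
          Algebra.subset_adjoin ⟨n + 1, rfl⟩
        have h2 := Subalgebra.neg_mem _ h1
        rwa [neg_neg, add_sub_cancel_right] at h2
    | algebraMap r => rw [AlgHom.commutes]; exact Subalgebra.algebraMap_mem _ _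
    | add x y _ _ hx hy => rw [map_add]; exact Subalgebra.add_mem _ (hx trivial) (hy trivial)
    | mul x y _ _ hx hy => rw [map_mul]; exact Subalgebra.mul_mem _ (hx trivial) (hy trivial)
  refine acc_transfer (quo (F := F) J).toRingHom (quo_surj J)
    (fun I hI hI' => acc_semiprime (F := F) hW (span_of_adjoin hg) I hI hI') I hmono hsp ?_
  intro i x hx
  have h1 : x ∈ J := (quo_eq_zero (F := F) J).mp hx
  have h2 : J ≤ I i := by
    rw [hJ, TwoSidedIdeal.span_le]
    simpa using hz i
  exact h2 h1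

/-- Antitone sequences of subsets of a finite set stabilise. -/
lemma antitone_stab {α : Type*} (s : Finset α) (T : ℕ → Set α) (hT : Antitone T)
    (hs : ∀ i, T i ⊆ (s : Set α)) : ∃ n, ∀ m, n ≤ m → T m = T n := by
  classical
  have hfin : ∀ i, (T i).Finite := fun i => s.finite_toSet.subset (hs i)
  obtain ⟨n, hn⟩ : ∃ n, ∀ m, (T n).ncard ≤ (T m).ncard := by
    obtain ⟨n, hn⟩ := WellFounded.has_min (wellFounded_lt (α := ℕ))
      (Set.range fun i => (T i).ncard) ⟨_, 0, rfl⟩
    obtain ⟨⟨k, rfl⟩, hk⟩ := And.intro hn.1 hn.2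
    exact ⟨k, fun m => not_lt.mp (hk _ ⟨m, rfl⟩)⟩
  refine ⟨n, fun m hm => ?_⟩
  exact Set.eq_of_subset_of_ncard_le (hT hm) (hn m) (hfin n)

/-- **The ascending chain condition on semiprime ideals**, Virasoro case. -/
theorem acc_semiprime_vir [CharZero F] [IsAlgClosed F] {e : ℤ → A} {z : A} (he : IsVirZ F e z)
    (hgen : Algebra.adjoin F (insert z (Set.range e)) = ⊤) (I : ℕ → TwoSidedIdeal A)
    (hmono : Monotone I) (hsp : ∀ i, IsSemiprimeT (I i)) :
    ∃ n, ∀ m, n ≤ m → I m = I n := by
  by_cases h : ∀ i, I i = ⊥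
  · exact ⟨0, fun m _ => by rw [h, h]⟩
  push Not at h
  obtain ⟨i0, hi0⟩ := h
  obtain ⟨f, hf, hfI⟩ := exists_poly he hgen hi0
  classical
  let J : ℕ → TwoSidedIdeal A := fun i => sInf {P | IsPrimeT P ∧ I i ≤ P ∧ z ∈ P}
  let T : ℕ → Set F := fun i => {a | a ∈ f.roots ∧ I i ≤ TwoSidedIdeal.span {z - algebraMap F A a}}
  have hJmono : Monotone J := by
    intro i j hij
    refine le_sInf fun P hP => sInf_le ⟨hP.1, (hmono hij).trans hP.2.1, hP.2.2⟩
  obtain ⟨n1, hn1⟩ := acc_zero he hgen J hJmono (fun i => sInf_semiprime _ fun P hP => hP.1)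
    (fun i => by
      change z ∈ sInf _
      rw [TwoSidedIdeal.mem_sInf]
      exact fun P hP => hP.2.2)
  obtain ⟨n2, hn2⟩ := antitone_stab f.roots.toFinset T
    (fun i j hij a ha => ⟨ha.1, (hmono hij).trans ha.2⟩) (fun i a ha => by
      simpa using ha.1)
  set n := max i0 (max n1 n2) with hn
  have hn0' : i0 ≤ n := le_max_left _ _
  have hn1' : n1 ≤ n := (le_max_left _ _).trans (le_max_right _ _)
  have hn2' : n2 ≤ n := (le_max_right _ _).trans (le_max_right _ _)
  refine ⟨n, fun m hm => le_antisymm ?_ (hmono hm)⟩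
  intro u hu
  by_contra hun
  obtain ⟨P, hP, hIP, huP⟩ := exists_prime (hsp n) hun
  obtain ⟨a, haf, haP⟩ := exists_root_mem he.1 hP hf (hIP (hmono hn0' hfI))
  apply huP
  by_cases ha : a = 0
  · have hzP : z ∈ P := by simpa [ha] using haP
    have h1 : J n ≤ P := sInf_le ⟨hP, hIP, hzP⟩
    apply h1
    rw [hn1 _ hn1', ← hn1 m (hn1'.trans hm)]
    change u ∈ sInf _
    rw [TwoSidedIdeal.mem_sInf]
    exact fun Q hQ => hQ.2.1 hu
  · have h1 := eq_span he hgen ha hP.1 haP
    have h2 : a ∈ T n := ⟨haf, h1 ▸ hIP⟩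
    rw [hn2 _ hn2', ← hn2 m (hn2'.trans hm)] at h2
    rw [h1]
    exact h2.2 hu

end Pool.Agent.R693.Vir
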