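import Pool.Agent.R693.W.Ad

/-!
Cluster reduction: iterated commutators with partner labels.
-/

set_option autoImplicit false
set_option linter.unusedSectionVars false

namespace Pool.Agent.R693.W

variable {C : Type*} [CommRing C] {ι : Type} [AddCommMonoid ι] [Lab ι]
variable {A : Type*} [Ring A] [Algebra C A] (e : ι → A)

/-- The product of generators along a word. -/
def wd {κ : Type*} (e : κ → A) (w : List κ) : A := (w.map e).prod

@[simp] lemma wd_nil {κ : Type*} (e : κ → A) : wd e [] = 1 := by simp [wd]

@[simp] lemma wd_cons {κ : Type*} (e : κ → A) (v : κ) (w : List κ) :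
    wd e (v :: w) = e v * wd e w := by simp [wd]

/-- The pairs of labels below `2 d` that are not partners. -/
def cross (d : ℕ) : Finset (ℕ × ℕ) :=
  (Finset.range (2 * d) ×ˢ Finset.range (2 * d)).filter (fun p => p.1 / 2 ≠ p.2 / 2)

variable (C ι) in
/-- The cross factor. -/
noncomputable def Q (d : ℕ) : K C ι := ∏ p ∈ cross d, D p.1 p.2 ^ (2 * d + 2)

variable (C ι) in
/-- The cross factor times the partner factors of the pairs in `J`. -/
noncomputable def PJ (d : ℕ) (J : Finset ℕ) : K C ι := Q C ι d * ∏ i ∈ J, D (2 * i) (2 * i + 1) ^ 2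

/-- The labels of the pairs in `J`. -/
def TJ (J : Finset ℕ) : Finset ℕ := J.biUnion (fun i => {2 * i, 2 * i + 1})

lemma mem_TJ {J : Finset ℕ} {a : ℕ} : a ∈ TJ J ↔ a / 2 ∈ J := by
  unfold TJ
  simp only [Finset.mem_biUnion, Finset.mem_insert, Finset.mem_singleton]
  constructor
  · rintro ⟨i, hi, rfl | rfl⟩
    · have : 2 * i / 2 = i := by omega
      rwa [this]
    · have : (2 * i + 1) / 2 = i := by omega
      rwa [this]
  · intro h
    exact ⟨a / 2, h, by omega⟩

variable {e}

/-- If a block contains two labels that are not partners, the term is killed by `Q`. -/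
lemma kill_cross (he : IsW C e) {d : ℕ} {T : Finset ℕ} (hT : T ⊆ Finset.range (2 * d))
    (v : ι) {a b : ℕ} (ha : a ∈ T) (hb : b ∈ T) (hab : a / 2 ≠ b / 2) {u w : G ι → A}
    (hua : Ind u a) (hub : Ind u b) (hwa : Ind w a) (hwb : Ind w b) :
    act A (Q C ι d) (fun n => u n * adT e T n (e v) * w n) = 0 := by
  have hmem : (a, b) ∈ cross d := by
    unfold cross
    simp only [Finset.mem_filter, Finset.mem_product]
    exact ⟨⟨hT ha, hT hb⟩, hab⟩
  unfold Q
  rw [← Finset.mul_prod_erase _ _ hmem, mul_comm, act_mul, act_Dpow_mul hua hub hwa hwb]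
  have hcard : T.card + 1 ≤ 2 * d + 2 := by
    have := Finset.card_le_card hT
    rw [Finset.card_range] at this
    omega
  rw [kill he T v ha hb hcard]
  simp only [Pi.zero_apply, mul_zero, zero_mul]
  exact map_zero _

/-- Words that are too short for the labels are killed by `Q`. -/
lemma vanish (he : IsW C e) {d : ℕ} (w : List ι) : ∀ (T : Finset ℕ),
    T ⊆ Finset.range (2 * d) → w.length < (T.image (· / 2)).card → ∀ u : G ι → A,
    (∀ a ∈ T, Ind u a) → act A (Q C ι d) (fun n => u n * adT e T n (wd e w)) = 0 := by
  induction w with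
  | nil =>
    intro T hT hcard u hu
    have hne : T.Nonempty := by
      rw [← Finset.image_nonempty (f := (· / 2)), ← Finset.card_pos]
      exact lt_of_le_of_lt (Nat.zero_le _) hcard
    simp only [wd_nil, adT_one e hne, mul_zero]
    exact map_zero _
  | cons v w ih =>
    intro T hT hcard u hu
    simp only [wd_cons, adT_mul, Finset.mul_sum]
    rw [act_sum]
    refine Finset.sum_eq_zero fun S hS => ?_
    have hST : S ⊆ T := Finset.mem_powerset.mp hS
    by_cases hc : ∃ a ∈ S, ∃ b ∈ S, a / 2 ≠ b / 2
    · obtain ⟨a, ha, b, hb, hab⟩ := hc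
      have := kill_cross he (hST.trans hT) v ha hb hab (hu a (hST ha)) (hu b (hST hb))
        (adT_ind e (T \ S) (wd e w) (a := a) (fun h => (Finset.mem_sdiff.mp h).2 ha))
        (adT_ind e (T \ S) (wd e w) (a := b) (fun h => (Finset.mem_sdiff.mp h).2 hb))
      simpa only [mul_assoc] using this
    · push Not at hc
      have h1 : (S.image (· / 2)).card ≤ 1 := by
        rw [Finset.card_le_one]
        intro a ha b hb
        simp only [Finset.mem_image] at ha hb
        obtain ⟨a', ha', rfl⟩ := ha
        obtain ⟨b', hb', rfl⟩ := hb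
        exact hc a' ha' b' hb'
      have h2 : (T.image (· / 2)).card ≤ (S.image (· / 2)).card + ((T \ S).image (· / 2)).card := by
        refine le_trans (Finset.card_le_card ?_) (Finset.card_union_le _ _)
        rw [← Finset.image_union, Finset.union_sdiff_of_subset hST]
      have h3 : w.length < ((T \ S).image (· / 2)).card := by
        rw [List.length_cons] at hcard
        omega
      have := ih (T \ S) (Finset.sdiff_subset.trans hT) h3
        (fun n => u n * adT e S n (e v)) (fun a ha => by
          intro n n' hn
          have h4 := hu a (Finset.mem_sdiff.mp ha).1 n n' hn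
          have h5 := adT_ind e S (e v) (a := a) (Finset.mem_sdiff.mp ha).2 n n' hn
          beta_reduce at h5 ⊢
          rw [h4, h5])
      simpa only [mul_assoc] using this

variable (C) (e) in
/-- The sum over all assignments of the letters of the word to the pairs in `J`. -/
noncomputable def GG (n : G ι) : Finset ℕ → List ι → A
  | _, [] => 1
  | J, v :: w => ∑ i ∈ J, ((-4 : C) • e (v + (n (2 * i) + n (2 * i + 1)))) * GG n (J.erase i) w

lemma ind_mul {u w : G ι → A} {a : ℕ} (hu : Ind u a) (hw : Ind w a) :
    Ind (fun n => u n * w n) a := by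
  intro n n' hn
  beta_reduce
  rw [hu n n' hn, hw n n' hn]

lemma evaluate (he : IsW C e) {d : ℕ} (w : List ι) : ∀ (J : Finset ℕ),
    J ⊆ Finset.range d → w.length = J.card → ∀ u : G ι → A,
    (∀ a ∈ TJ J, Ind u a) → act A (PJ C ι d J) (fun n => u n * adT e (TJ J) n (wd e w)) =
      act A (Q C ι d) (fun n => u n * GG C e n J w) := by
  induction w with
  | nil =>
    intro J hJ hw u hu
    have : J = ∅ := Finset.card_eq_zero.mp hw.symm
    subst this
    simp [PJ, TJ, GG]
  | cons v w ih =>
    intro J hJ hw u hu
    have hTJ : TJ J ⊆ Finset.range (2 * d) := by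
      intro a ha
      have h1 := Finset.mem_range.mp (hJ (mem_TJ.mp ha))
      rw [Finset.mem_range]
      omega
    have hPJ : ∀ f : G ι → A, act A (Q C ι d) f = 0 → act A (PJ C ι d J) f = 0 := by
      intro f hf
      unfold PJ
      rw [mul_comm, act_mul, hf, map_zero]
    simp only [wd_cons, adT_mul, Finset.mul_sum]
    rw [act_sum]
    -- all terms vanish except those for full pairs
    have hzero : ∀ S ∈ (TJ J).powerset, (¬ ∃ i ∈ J, S = {2 * i, 2 * i + 1}) →
        act A (PJ C ι d J) (fun n => u n * (adT e S n (e v) * adT e (TJ J \ S) n (wd e w))) = 0 := by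
      intro S hS hne
      have hST : S ⊆ TJ J := Finset.mem_powerset.mp hS
      apply hPJ
      by_cases hc : ∃ a ∈ S, ∃ b ∈ S, a / 2 ≠ b / 2
      · obtain ⟨a, ha, b, hb, hab⟩ := hc
        have := kill_cross he (hST.trans hTJ) v ha hb hab (hu a (hST ha)) (hu b (hST hb))
          (adT_ind e (TJ J \ S) (wd e w) (a := a) (fun h => (Finset.mem_sdiff.mp h).2 ha))
          (adT_ind e (TJ J \ S) (wd e w) (a := b) (fun h => (Finset.mem_sdiff.mp h).2 hb))
        simpa only [mul_assoc] using this
      · push Not at hc
        have h3 : w.length < ((TJ J \ S).image (· / 2)).card := by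
          have h4 : J ⊆ (TJ J \ S).image (· / 2) := by
            intro i hi
            rw [Finset.mem_image]
            by_cases h5 : 2 * i ∈ S
            · by_cases h6 : 2 * i + 1 ∈ S
              · exfalso
                apply hne
                refine ⟨i, hi, ?_⟩
                ext a
                simp only [Finset.mem_insert, Finset.mem_singleton]
                constructor
                · intro ha
                  have := hc a ha (2 * i) h5
                  omega
                · rintro (rfl | rfl)
                  · exact h5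
                  · exact h6
              · refine ⟨2 * i + 1, ?_, by omega⟩
                rw [Finset.mem_sdiff, mem_TJ]
                have : (2 * i + 1) / 2 = i := by omega
                rw [this]
                exact ⟨hi, h6⟩
            · refine ⟨2 * i, ?_, by omega⟩
              rw [Finset.mem_sdiff, mem_TJ]
              have : (2 * i) / 2 = i := by omega
              rw [this]
              exact ⟨hi, h5⟩
          have h5 := Finset.card_le_card h4
          rw [List.length_cons] at hw
          omega
        have := vanish he w (TJ J \ S) (Finset.sdiff_subset.trans hTJ) h3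
          (fun n => u n * adT e S n (e v)) (fun a ha => ind_mul (hu a (Finset.mem_sdiff.mp ha).1)
            (adT_ind e S (e v) (a := a) (Finset.mem_sdiff.mp ha).2))
        simpa only [mul_assoc] using this
    have hinj : Set.InjOn (fun i : ℕ => ({2 * i, 2 * i + 1} : Finset ℕ)) J := by
      intro i _ j _ hij
      have h1 : 2 * i ∈ ({2 * j, 2 * j + 1} : Finset ℕ) := by
        rw [← show ({2 * i, 2 * i + 1} : Finset ℕ) = {2 * j, 2 * j + 1} from hij]
        simp
      simp only [Finset.mem_insert, Finset.mem_singleton] at h1
      omega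
    have hsub : J.image (fun i : ℕ => ({2 * i, 2 * i + 1} : Finset ℕ)) ⊆ (TJ J).powerset := by
      intro S hS
      rw [Finset.mem_image] at hS
      obtain ⟨i, hi, rfl⟩ := hS
      rw [Finset.mem_powerset]
      intro a ha
      rw [mem_TJ]
      simp only [Finset.mem_insert, Finset.mem_singleton] at ha
      have : a / 2 = i := by omega
      rwa [this]
    rw [← Finset.sum_subset hsub (fun S hS hne => hzero S hS (by
      rintro ⟨i, hi, rfl⟩
      exact hne (Finset.mem_image_of_mem _ hi))), Finset.sum_image hinj]
    have hterm : ∀ i ∈ J, act A (PJ C ι d J) (fun n => u n * (adT e {2 * i, 2 * i + 1} n (e v) *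
        adT e (TJ J \ {2 * i, 2 * i + 1}) n (wd e w))) =
        act A (Q C ι d) (fun n => u n * (((-4 : C) • e (v + (n (2 * i) + n (2 * i + 1)))) *
          GG C e n (J.erase i) w)) := by
      intro i hi
      have h1 : PJ C ι d J = PJ C ι d (J.erase i) * D (2 * i) (2 * i + 1) ^ 2 := by
        unfold PJ
        rw [← Finset.prod_erase_mul _ _ hi, mul_assoc]
      have h2 : TJ J \ {2 * i, 2 * i + 1} = TJ (J.erase i) := by
        ext a
        rw [Finset.mem_sdiff, mem_TJ, mem_TJ, Finset.mem_erase]
        simp only [Finset.mem_insert, Finset.mem_singleton]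
        constructor
        · rintro ⟨h3, h4⟩
          exact ⟨by omega, h3⟩
        · rintro ⟨h3, h4⟩
          exact ⟨h4, by omega⟩
      have hmem1 : 2 * i ∈ TJ J := by
        rw [mem_TJ]
        have : 2 * i / 2 = i := by omega
        rwa [this]
      have hmem2 : 2 * i + 1 ∈ TJ J := by
        rw [mem_TJ]
        have : (2 * i + 1) / 2 = i := by omega
        rwa [this]
      have hn1 : 2 * i ∉ TJ (J.erase i) := by
        rw [mem_TJ]
        have : 2 * i / 2 = i := by omega
        rw [this]
        exact Finset.notMem_erase i J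
      have hn2 : 2 * i + 1 ∉ TJ (J.erase i) := by
        rw [mem_TJ]
        have : (2 * i + 1) / 2 = i := by omega
        rw [this]
        exact Finset.notMem_erase i J
      have h3 := act_Dpow_mul (C := C) (hu _ hmem1) (hu _ hmem2)
        (adT_ind e (TJ (J.erase i)) (wd e w) hn1) (adT_ind e (TJ (J.erase i)) (wd e w) hn2) 2
        (fun n => adT e {2 * i, 2 * i + 1} n (e v))
      simp only [pair he (show 2 * i < 2 * i + 1 by omega)] at h3
      have h4 : (fun n => u n * (adT e {2 * i, 2 * i + 1} n (e v) *
        adT e (TJ J \ {2 * i, 2 * i + 1}) n (wd e w))) = fun n => u n *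
          adT e {2 * i, 2 * i + 1} n (e v) * adT e (TJ (J.erase i)) n (wd e w) := by
        funext n
        rw [h2, mul_assoc]
      rw [h1, act_mul, h4, h3]
      have h6 := ih (J.erase i) ((Finset.erase_subset i J).trans hJ)
        (by rw [Finset.card_erase_of_mem hi, ← hw, List.length_cons]; rfl)
        (fun n => u n * ((-4 : C) • e (v + (n (2 * i) + n (2 * i + 1))))) (by
          intro a ha
          apply ind_mul (hu a (mem_TJ.mpr (Finset.mem_of_mem_erase (mem_TJ.mp ha))))
          intro n n' hn
          have hai : a / 2 ≠ i := Finset.ne_of_mem_erase (mem_TJ.mp ha)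
          beta_reduce
          rw [hn (2 * i) (by omega), hn (2 * i + 1) (by omega)])
      rw [h6]
      congr 1
      funext n
      rw [mul_assoc]
    rw [Finset.sum_congr rfl hterm, ← act_sum]
    congr 1
    funext n
    rw [GG, Finset.mul_sum]

/-! ### Reordering -/

variable (e) in
/-- The product of the generators at the pairs in the list. -/
noncomputable def prodL (l : List ℕ) (n : G ι) : A :=
  (l.map (fun i => e (n (2 * i) + n (2 * i + 1)))).prod

@[simp] lemma prodL_nil (n : G ι) : prodL e [] n = 1 := by simp [prodL]

@[simp] lemma prodL_cons (i : ℕ) (l : List ℕ) (n : G ι) :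
    prodL e (i :: l) n = e (n (2 * i) + n (2 * i + 1)) * prodL e l n := by simp [prodL]

lemma prodL_ind {l : List ℕ} {a : ℕ} (ha : a / 2 ∉ l) : Ind (prodL e l) a := by
  intro n n' hn
  unfold prodL
  congr 1
  apply List.map_congr_left
  intro i hi
  have hai : a / 2 ≠ i := by rintro rfl; exact ha hi
  rw [hn (2 * i) (by omega), hn (2 * i + 1) (by omega)]

lemma Ind_pair (i : ℕ) {a : ℕ} (ha : a / 2 ≠ i) :
    Ind (fun n : G ι => e (n (2 * i) + n (2 * i + 1))) a := by
  intro n n' hn
  beta_reduce
  rw [hn (2 * i) (by omega), hn (2 * i + 1) (by omega)]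

lemma reorder (he : IsW C e) {d : ℕ} {l l' : List ℕ} (h : l.Perm l') :
    l.Nodup → (∀ i ∈ l, i < d) → ∀ u : G ι → A, (∀ a, a / 2 ∈ l → Ind u a) →
      act A (Q C ι d) (fun n => u n * prodL e l n) =
        act A (Q C ι d) (fun n => u n * prodL e l' n) := by
  induction h with
  | nil => intro _ _ u _; rfl
  | cons i h ih =>
    rename_i l1 l2
    intro hnd hd u hu
    rw [List.nodup_cons] at hnd
    have := ih hnd.2 (fun j hj => hd j (List.mem_cons_of_mem _ hj))
      (fun n => u n * e (n (2 * i) + n (2 * i + 1))) (fun a ha => ind_mul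
        (hu a (List.mem_cons_of_mem _ ha)) (Ind_pair i (by rintro rfl; exact hnd.1 ha)))
    simpa only [prodL_cons, mul_assoc] using this
  | swap x y l =>
    intro hnd hd u hu
    rw [List.nodup_cons, List.nodup_cons] at hnd
    have hyx : y ≠ x := by
      rintro rfl
      exact hnd.1 List.mem_cons_self
    have hyl : y ∉ l := fun h => hnd.1 (List.mem_cons_of_mem _ h)
    have hmem : (2 * y, 2 * x) ∈ cross d := by
      unfold cross
      simp only [Finset.mem_filter, Finset.mem_product, Finset.mem_range]
      have h1 := hd y List.mem_cons_self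
      have h2 := hd x (List.mem_cons_of_mem _ List.mem_cons_self)
      exact ⟨⟨by omega, by omega⟩, by omega⟩
    have h2y : 2 * y / 2 = y := by omega
    have h2x : 2 * x / 2 = x := by omega
    have key : act A (Q C ι d) (fun n => u n *
        (e (0 + ∑ i ∈ ({2 * y, 2 * y + 1} : Finset ℕ), n i) *
          e (0 + ∑ i ∈ ({2 * x, 2 * x + 1} : Finset ℕ), n i) -
        e (0 + ∑ i ∈ ({2 * x, 2 * x + 1} : Finset ℕ), n i) *
          e (0 + ∑ i ∈ ({2 * y, 2 * y + 1} : Finset ℕ), n i)) * prodL e l n) = 0 := by
      unfold Q
      rw [← Finset.mul_prod_erase _ _ hmem, mul_comm, act_mul,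
        act_Dpow_mul (hu _ (by rw [h2y]; exact List.mem_cons_self))
          (hu _ (by rw [h2x]; exact List.mem_cons_of_mem _ List.mem_cons_self))
          (prodL_ind (by rw [h2y]; exact hyl)) (prodL_ind (by rw [h2x]; exact hnd.2.1)),
        kill_comm he _ _ ?_ 0 0 (by simp) (by simp) (by omega)]
      · simp only [Pi.zero_apply, mul_zero, zero_mul]
        exact map_zero _
      · rw [Finset.disjoint_left]
        intro a ha hb
        simp only [Finset.mem_insert, Finset.mem_singleton] at ha hb
        omega
    have hs : ∀ (n : G ι) (y : ℕ), ∑ i ∈ ({2 * y, 2 * y + 1} : Finset ℕ), n i =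
        n (2 * y) + n (2 * y + 1) := by
      intro n y
      rw [Finset.sum_pair (by omega)]
    simp only [hs, zero_add] at key
    rw [← sub_eq_zero, ← map_sub]
    have h3 : ((fun n => u n * prodL e (y :: x :: l) n) - fun n => u n * prodL e (x :: y :: l) n) =
        fun n => u n * (e (n (2 * y) + n (2 * y + 1)) * e (n (2 * x) + n (2 * x + 1)) -
          e (n (2 * x) + n (2 * x + 1)) * e (n (2 * y) + n (2 * y + 1))) * prodL e l n := by
      funext n
      simp only [Pi.sub_apply, prodL_cons]
      noncomm_ring
    rw [h3, key]
  | trans h1 h2 ih1 ih2 =>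
    intro hnd hd u hu
    rw [ih1 hnd hd u hu, ih2 (h1.nodup_iff.mp hnd) (fun i hi => hd i (h1.mem_iff.mpr hi)) u
      (fun a ha => hu a (h1.mem_iff.mpr ha))]

/-- The polynomial of all assignments. -/
noncomputable def Pl (C : Type*) [CommRing C] : Finset ℕ → List ι → K C ι
  | _, [] => 1
  | J, v :: w => ∑ i ∈ J, AddMonoidAlgebra.single (Pi.single (2 * i) v) (-4 : C) *
      Pl C (J.erase i) w

/-- If `u` is independent of the labels shifted by `Pl C J w`, it can be moved inside. -/
lemma mul_act_Pl (w : List ι) : ∀ (J : Finset ℕ) (u f : G ι → A), (∀ i ∈ J, Ind u (2 * i)) →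
    ∀ n, u n * act A (Pl C J w) f n = act A (Pl C J w) (fun n => u n * f n) n := by
  induction w with
  | nil => intro J u f _ n; simp [Pl]
  | cons v w ih =>
    intro J u f hu n
    rw [Pl, map_sum, LinearMap.sum_apply, LinearMap.sum_apply, Finset.sum_apply, Finset.sum_apply,
      Finset.mul_sum]
    refine Finset.sum_congr rfl fun i hi => ?_
    rw [act_mul, act_mul, act_single, act_single, mul_smul_comm]
    congr 1
    rw [← ih (J.erase i) u f (fun j hj => hu j (Finset.mem_of_mem_erase hj))]
    congr 1
    apply hu i hi
    intro b hb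
    rw [Pi.add_apply, Pi.single_eq_of_ne hb, add_zero]

lemma GG_eq (he : IsW C e) {d : ℕ} (w : List ι) : ∀ (J : Finset ℕ),
    J ⊆ Finset.range d → w.length = J.card → ∀ u : G ι → A,
    (∀ a ∈ TJ J, Ind u a) → act A (Q C ι d) (fun n => u n * GG C e n J w) =
      act A (Q C ι d) (fun n => u n * act A (Pl C J w) (prodL e (J.sort (· ≤ ·))) n) := by
  induction w with
  | nil =>
    intro J hJ hw u hu
    have : J = ∅ := Finset.card_eq_zero.mp hw.symm
    subst this
    simp [Pl, GG]
  | cons v w ih =>
    intro J hJ hw u hu
    simp only [GG, Pl, map_sum, LinearMap.sum_apply, Finset.sum_apply, Finset.mul_sum]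
    rw [act_sum, act_sum]
    refine Finset.sum_congr rfl fun i hi => ?_
    have h6 := ih (J.erase i) ((Finset.erase_subset i J).trans hJ)
        (by rw [Finset.card_erase_of_mem hi, ← hw, List.length_cons]; rfl)
        (fun n => u n * ((-4 : C) • e (v + (n (2 * i) + n (2 * i + 1))))) (by
          intro a ha
          apply ind_mul (hu a (mem_TJ.mpr (Finset.mem_of_mem_erase (mem_TJ.mp ha))))
          intro n n' hn
          have hai : a / 2 ≠ i := Finset.ne_of_mem_erase (mem_TJ.mp ha)
          beta_reduce
          rw [hn (2 * i) (by omega), hn (2 * i + 1) (by omega)])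
    simp only [mul_assoc] at h6
    rw [h6]
    -- rewrite the inner function
    set q : K C ι := AddMonoidAlgebra.single (Pi.single (2 * i) v) (-4 : C) * Pl C (J.erase i) w
      with hq
    have h7 : (fun n : G ι => u n * (((-4 : C) • e (v + (n (2 * i) + n (2 * i + 1)))) *
        act A (Pl C (J.erase i) w) (prodL e ((J.erase i).sort (· ≤ ·))) n)) =
        fun n => act A q (fun n => u n * prodL e (i :: (J.erase i).sort (· ≤ ·)) n) n := by
      funext n
      rw [hq, act_mul, act_single, smul_mul_assoc, mul_smul_comm]
      congr 1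
      have h8 := mul_act_Pl (C := C) w (J.erase i)
        (fun n => u n * e (n (2 * i) + n (2 * i + 1)))
        (prodL e ((J.erase i).sort (· ≤ ·))) (fun j hj => ind_mul
          (hu _ (mem_TJ.mpr (by rw [show 2 * j / 2 = j by omega]; exact Finset.mem_of_mem_erase hj)))
          (Ind_pair i (by rw [show 2 * j / 2 = j by omega]; exact Finset.ne_of_mem_erase hj)))
        (n + Pi.single (2 * i) v)
      beta_reduce at h8
      have h9 : u (n + Pi.single (2 * i) v) = u n := by
        apply hu (2 * i) (mem_TJ.mpr (by rw [show 2 * i / 2 = i by omega]; exact hi))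
        intro b hb
        rw [Pi.add_apply, Pi.single_eq_of_ne hb, add_zero]
      have h10 : (n + Pi.single (2 * i) v : G ι) (2 * i) +
          (n + Pi.single (2 * i) v : G ι) (2 * i + 1) = v + (n (2 * i) + n (2 * i + 1)) := by
        rw [Pi.add_apply, Pi.add_apply, Pi.single_eq_same,
          Pi.single_eq_of_ne (show 2 * i + 1 ≠ 2 * i by omega), add_zero]
        abel
      have h11 : act A (Pl C (J.erase i) w) (prodL e ((J.erase i).sort (· ≤ ·)))
          (n + Pi.single (2 * i) v) =
          act A (Pl C (J.erase i) w) (prodL e ((J.erase i).sort (· ≤ ·))) n := by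
        have h12 : ∀ (w : List ι) (J' : Finset ℕ) (f : G ι → A), Ind f (2 * i) →
            Ind (act A (Pl C J' w) f) (2 * i) := by
          intro w
          induction w with
          | nil => intro J' f hf; simpa [Pl] using hf
          | cons v' w ih' =>
            intro J' f hf n n' hn
            rw [Pl, map_sum, LinearMap.sum_apply, Finset.sum_apply, Finset.sum_apply]
            refine Finset.sum_congr rfl fun j _ => ?_
            rw [act_mul, act_single, act_single]
            congr 1
            apply ih' _ f hf
            intro b hb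
            rw [Pi.add_apply, Pi.add_apply, hn b hb]
        apply h12 w (J.erase i) _ (prodL_ind ?_)
        · intro b hb
          rw [Pi.add_apply, Pi.single_eq_of_ne hb, add_zero]
        · rw [show 2 * i / 2 = i by omega, Finset.mem_sort]
          exact Finset.notMem_erase i J
      rw [h9, h10, h11] at h8
      have h14 : (fun m : G ι => u m * prodL e (i :: (J.erase i).sort (· ≤ ·)) m) = fun m =>
          u m * e (m (2 * i) + m (2 * i + 1)) * prodL e ((J.erase i).sort (· ≤ ·)) m := by
        funext m
        rw [prodL_cons, mul_assoc]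
      rw [← mul_assoc, h8, h14]
    have h13 : (fun n : G ι => u n * act A q (prodL e (J.sort (· ≤ ·))) n) =
        fun n => act A q (fun n => u n * prodL e (J.sort (· ≤ ·)) n) n := by
      funext n
      rw [hq, act_mul, act_mul, act_single, act_single, mul_smul_comm]
      congr 1
      have h8 := mul_act_Pl (C := C) w (J.erase i) u
        (prodL e (J.sort (· ≤ ·))) (fun j hj =>
          (hu _ (mem_TJ.mpr (by rw [show 2 * j / 2 = j by omega]; exact Finset.mem_of_mem_erase hj))))
        (n + Pi.single (2 * i) v)
      rw [← h8]
      congr 1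
      symm
      apply hu (2 * i) (mem_TJ.mpr (by rw [show 2 * i / 2 = i by omega]; exact hi))
      intro b hb
      rw [Pi.add_apply, Pi.single_eq_of_ne hb, add_zero]
    rw [h7, h13]
    change act A (Q C ι d) (act A q (fun n => u n * prodL e (i :: (J.erase i).sort (· ≤ ·)) n)) =
      act A (Q C ι d) (act A q (fun n => u n * prodL e (J.sort (· ≤ ·)) n))
    rw [act_comm, act_comm (Q C ι d) q]
    congr 1
    have hperm : (i :: (J.erase i).sort (· ≤ ·)).Perm (J.sort (· ≤ ·)) := by
      rw [List.perm_ext_iff_of_nodup]
      · intro a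
        simp only [List.mem_cons, Finset.mem_sort, Finset.mem_erase]
        constructor
        · rintro (rfl | h)
          · exact hi
          · exact h.2
        · intro h
          by_cases hai : a = i
          · exact Or.inl hai
          · exact Or.inr ⟨hai, h⟩
      · rw [List.nodup_cons]
        exact ⟨by simp, Finset.sort_nodup _ _⟩
      · exact Finset.sort_nodup _ _
    apply reorder he hperm
    · rw [List.nodup_cons]
      exact ⟨by simp, Finset.sort_nodup _ _⟩
    · intro j hj
      have := hperm.mem_iff.mp hj
      rw [Finset.mem_sort] at this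
      exact Finset.mem_range.mp (hJ this)
    · intro a ha
      apply hu
      rw [mem_TJ]
      have := hperm.mem_iff.mp ha
      rwa [Finset.mem_sort] at this

end Pool.Agent.R693.W
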