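import Mathlib

/-!
A Noetherian lemma: a module over a Noetherian commutative ring `R`, generated by one element `η`
under a family of operators `ρ m` whose commutators are combinations of the operators, such that the
`ρ m η` span a finitely generated `R`-module, satisfies the ascending chain condition on
submodules stable under all `ρ m`.
-/

set_option autoImplicit false

namespace Pool.Agent.R693.Noeth

open MvPolynomial

variable {R : Type*} [CommRing R] {V : Type*} [AddCommGroup V] [Module R V] {ι : Type*}
  (ρ : ι → Module.End R V) (η : V)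

/-- The value of a word of operators on `η`. -/
noncomputable def wd (w : List ι) : V := (w.map ρ).prod η

@[simp] lemma wd_nil : wd ρ η [] = η := by simp [wd]

@[simp] lemma wd_cons (m : ι) (w : List ι) : wd ρ η (m :: w) = ρ m (wd ρ η w) := by
  simp [wd, Module.End.mul_apply]

lemma wd_append (w w' : List ι) : wd ρ η (w ++ w') = (w.map ρ).prod (wd ρ η w') := by
  simp [wd, Module.End.mul_apply]

/-- The span of the words of length less than `k`. -/
def Fl (k : ℕ) : Submodule R V := Submodule.span R {x | ∃ w : List ι, w.length < k ∧ x = wd ρ η w}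

variable {ρ η}

lemma wd_mem {w : List ι} {k : ℕ} (h : w.length < k) : wd ρ η w ∈ Fl ρ η k :=
  Submodule.subset_span ⟨w, h, rfl⟩

lemma Fl_mono {k m : ℕ} (h : k ≤ m) : Fl ρ η k ≤ Fl ρ η m :=
  Submodule.span_mono (fun _ ⟨w, hw, hx⟩ => ⟨w, hw.trans_le h, hx⟩)

lemma rho_mem (v : ι) {k : ℕ} {x : V} (hx : x ∈ Fl ρ η k) : ρ v x ∈ Fl ρ η (k + 1) := by
  unfold Fl at hx
  induction hx using Submodule.span_induction with
  | mem y hy =>
    obtain ⟨w, hw, rfl⟩ := hy
    rw [← wd_cons]
    exact wd_mem (by simpa using hw)
  | zero => rw [map_zero]; exact Submodule.zero_mem _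
  | add y z _ _ hy hz => rw [map_add]; exact Submodule.add_mem _ hy hz
  | smul a y _ hy => rw [map_smul]; exact Submodule.smul_mem _ _ hy

lemma span_mem {T : Module.End R V} (hT : T ∈ Submodule.span R (Set.range ρ)) {k : ℕ} {x : V}
    (hx : x ∈ Fl ρ η k) : T x ∈ Fl ρ η (k + 1) := by
  induction hT using Submodule.span_induction with
  | mem y hy =>
    obtain ⟨m, rfl⟩ := hy
    exact rho_mem m hx
  | zero => rw [LinearMap.zero_apply]; exact Submodule.zero_mem _
  | add y z _ _ hy hz => rw [LinearMap.add_apply]; exact Submodule.add_mem _ hy hz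
  | smul a y _ hy => rw [LinearMap.smul_apply]; exact Submodule.smul_mem _ _ hy

/-- The commutators are combinations of the operators. -/
def Comm (ρ : ι → Module.End R V) : Prop :=
  ∀ m n, ρ m * ρ n - ρ n * ρ m ∈ Submodule.span R (Set.range ρ)

lemma perm_mem (hρ : Comm ρ) {w w' : List ι} (h : w.Perm w') :
    wd ρ η w - wd ρ η w' ∈ Fl ρ η w.length := by
  induction h with
  | nil => simp
  | cons v h ih =>
    rw [wd_cons, wd_cons, ← map_sub]
    exact rho_mem v ih
  | swap x y l =>
    have h1 : wd ρ η (y :: x :: l) - wd ρ η (x :: y :: l) =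
        (ρ y * ρ x - ρ x * ρ y) (wd ρ η l) := by
      simp [Module.End.mul_apply]
    rw [h1]
    have h2 := span_mem (hρ y x) (wd_mem (ρ := ρ) (η := η) (Nat.lt_succ_self l.length))
    simpa using h2
  | trans h1 h2 ih1 ih2 =>
    have := Submodule.add_mem _ ih1 (by rw [h1.length_eq]; exact ih2)
    rwa [sub_add_sub_cancel] at this

variable {r : ℕ} (s : Fin r → ι)

/-- The span of the words of length `j` in the letters `s i`. -/
def Tp (ρ : ι → Module.End R V) (η : V) (j : ℕ) : Submodule R V :=
  Submodule.span R {x | ∃ w : List (Fin r), w.length = j ∧ x = wd ρ η (w.map s)}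

variable {s}

lemma red (hρ : Comm ρ) (hs : ∀ m, ρ m η ∈ Submodule.span R (Set.range fun i => ρ (s i) η))
    (w2 : List ι) : ∀ w1 : List (Fin r),
    wd ρ η (w1.map s ++ w2) ∈ Tp s ρ η (w1.length + w2.length) ⊔
      Fl ρ η (w1.length + w2.length) := by
  induction w2 with
  | nil =>
    intro w1
    apply Submodule.mem_sup_left
    exact Submodule.subset_span ⟨w1, by simp, by simp⟩
  | cons m w2 ih =>
    intro w1
    have hp : (w1.map s ++ m :: w2).Perm ((w1.map s ++ w2) ++ [m]) := by
      refine List.perm_middle.trans ?_
      exact (List.perm_append_comm (l₁ := [m]) (l₂ := w1.map s ++ w2))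
    have h1 := perm_mem (η := η) hρ hp
    have hlen : (w1.map s ++ m :: w2).length = w1.length + (w2.length + 1) := by simp
    rw [hlen] at h1
    have h2 : wd ρ η ((w1.map s ++ w2) ++ [m]) ∈ Tp s ρ η (w1.length + (w2.length + 1)) ⊔
        Fl ρ η (w1.length + (w2.length + 1)) := by
      rw [wd_append]
      have h3 : wd ρ η [m] = ρ m η := by simp
      rw [h3]
      have h4 := hs m
      generalize ρ m η = z at h4
      induction h4 using Submodule.span_induction with
      | mem y hy =>
        obtain ⟨i, rfl⟩ := hy
        have h5 : (((w1.map s ++ w2).map ρ).prod) (ρ (s i) η) =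
            wd ρ η ((w1.map s ++ w2) ++ [s i]) := by
          rw [wd_append]; simp
        have h6 : ((w1.map s ++ w2) ++ [s i]).Perm ((i :: w1).map s ++ w2) := by
          rw [List.map_cons, List.cons_append]
          exact List.perm_append_singleton _ _
        have h7 := perm_mem (η := η) hρ h6
        have h8 := ih (i :: w1)
        have hl : ((w1.map s ++ w2) ++ [s i]).length = w1.length + (w2.length + 1) := by
          simp only [List.length_append, List.length_map, List.length_cons, List.length_nil]
          omega
        rw [hl] at h7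
        have hl2 : (i :: w1).length + w2.length = w1.length + (w2.length + 1) := by
          simp only [List.length_cons]; omega
        rw [hl2] at h8
        rw [h5]
        have h9 := Submodule.add_mem _ (Submodule.mem_sup_right h7) h8
        rwa [sub_add_cancel] at h9
      | zero => rw [map_zero]; exact Submodule.zero_mem _
      | add y z _ _ hy hz => rw [map_add]; exact Submodule.add_mem _ hy hz
      | smul a y _ hy => rw [map_smul]; exact Submodule.smul_mem _ _ hy
    have h9 := Submodule.add_mem _ (Submodule.mem_sup_right h1) h2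
    rwa [sub_add_cancel] at h9

variable (s) in
/-- A word representing a monomial. -/
noncomputable def lst (α : Fin r →₀ ℕ) : List ι := ((Finsupp.toMultiset α).toList).map s

/-- The (non multiplicative) evaluation of polynomials. -/
noncomputable def sig (s : Fin r → ι) (ρ : ι → Module.End R V) (η : V) :
    MvPolynomial (Fin r) R →ₗ[R] V :=
  (MvPolynomial.basisMonomials (Fin r) R).constr R (fun α => wd ρ η (lst s α))

lemma sig_monomial (α : Fin r →₀ ℕ) (a : R) :
    sig s ρ η (monomial α a) = a • wd ρ η (lst s α) := by
  have h : (monomial α a : MvPolynomial (Fin r) R) = a • MvPolynomial.basisMonomials (Fin r) R α := by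
    rw [MvPolynomial.coe_basisMonomials, MvPolynomial.smul_monomial, smul_eq_mul, mul_one]
  rw [h, map_smul]
  congr 1
  exact Module.Basis.constr_basis _ _ _ _

lemma lst_length (α : Fin r →₀ ℕ) : (lst s α).length = α.degree := by
  unfold lst
  rw [List.length_map, Multiset.length_toList, Finsupp.card_toMultiset]
  rfl

lemma lst_perm (α : Fin r →₀ ℕ) (i : Fin r) :
    (lst s (α + Finsupp.single i 1)).Perm (s i :: lst s α) := by
  unfold lst
  rw [← List.map_cons]
  apply List.Perm.map
  rw [← Multiset.coe_eq_coe, Multiset.coe_toList, ← Multiset.cons_coe, Multiset.coe_toList, map_add,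
    Finsupp.toMultiset_single, one_smul, add_comm, Multiset.singleton_add]

lemma lst_perm' (w : List (Fin r)) :
    (lst s (Multiset.toFinsupp (w : Multiset (Fin r)))).Perm (w.map s) := by
  unfold lst
  apply List.Perm.map
  rw [← Multiset.coe_eq_coe, Multiset.coe_toList, Multiset.toFinsupp_toMultiset]

lemma hc_monomial (j : ℕ) (α : Fin r →₀ ℕ) (a : R) :
    homogeneousComponent j (monomial α a) = if α.degree = j then monomial α a else 0 := by
  classical
  ext d
  rw [coeff_homogeneousComponent]
  split_ifs with h1 h2 h2
  · rfl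
  · rw [coeff_monomial, if_neg (by rintro rfl; exact h2 h1), coeff_zero]
  · rw [coeff_monomial, if_neg (by rintro rfl; exact h1 h2)]
  · rw [coeff_zero]

lemma sig_mul_X (hρ : Comm ρ) (i : Fin r) (j : ℕ) (f : MvPolynomial (Fin r) R) :
    sig s ρ η (homogeneousComponent j f * X i) - ρ (s i) (sig s ρ η (homogeneousComponent j f)) ∈
      Fl ρ η (j + 1) := by
  induction f using MvPolynomial.induction_on' with
  | monomial α a =>
    rw [hc_monomial]
    split_ifs with h
    · have h1 : (monomial α a : MvPolynomial (Fin r) R) * X i = monomial (α + Finsupp.single i 1) a := by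
        rw [MvPolynomial.X, monomial_mul, mul_one]
      rw [h1, sig_monomial, sig_monomial, map_smul, ← smul_sub]
      apply Submodule.smul_mem
      have h2 := perm_mem (η := η) hρ (lst_perm (s := s) α i)
      rw [lst_length, wd_cons] at h2
      have h3 : (α + Finsupp.single i 1).degree = j + 1 := by
        rw [map_add, h, Finsupp.degree_single]
      rwa [h3] at h2
    · simp
  | add p q hp hq =>
    rw [map_add, add_mul, map_add, map_add, map_add]
    have := Submodule.add_mem _ hp hq
    rwa [sub_add_sub_comm] at this

lemma hc_mul_X (i : Fin r) (j : ℕ) (f : MvPolynomial (Fin r) R) :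
    homogeneousComponent (j + 1) (f * X i) = homogeneousComponent j f * X i := by
  induction f using MvPolynomial.induction_on' with
  | monomial α a =>
    have h1 : (monomial α a : MvPolynomial (Fin r) R) * X i = monomial (α + Finsupp.single i 1) a := by
      rw [MvPolynomial.X, monomial_mul, mul_one]
    rw [h1, hc_monomial, hc_monomial, map_add, Finsupp.degree_single]
    by_cases h : α.degree = j
    · rw [if_pos (by omega), if_pos h, h1]
    · rw [if_neg (by omega), if_neg h, zero_mul]
  | add p q hp hq =>
    rw [add_mul, map_add, map_add, hp, hq, add_mul]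

lemma hc_mul_X_zero (i : Fin r) (f : MvPolynomial (Fin r) R) :
    homogeneousComponent 0 (f * X i) = 0 := by
  induction f using MvPolynomial.induction_on' with
  | monomial α a =>
    have h1 : (monomial α a : MvPolynomial (Fin r) R) * X i = monomial (α + Finsupp.single i 1) a := by
      rw [MvPolynomial.X, monomial_mul, mul_one]
    rw [h1, hc_monomial, map_add, Finsupp.degree_single, if_neg (by omega)]
  | add p q hp hq =>
    rw [add_mul, map_add, hp, hq, add_zero]

/-- The ideal of leading forms. -/
noncomputable def lead (s : Fin r → ι) (hρ : Comm ρ) (η : V) (L : Submodule R V) (hL : ∀ m, ∀ x ∈ L, ρ m x ∈ L) :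
    Ideal (MvPolynomial (Fin r) R) where
  carrier := {f | ∀ j, sig s ρ η (homogeneousComponent j f) ∈ L ⊔ Fl ρ η j}
  add_mem' := by
    intro f g hf hg j
    rw [map_add, map_add]
    exact Submodule.add_mem _ (hf j) (hg j)
  zero_mem' := by
    intro j
    rw [map_zero, map_zero]
    exact Submodule.zero_mem _
  smul_mem' := by
    intro g f hf
    rw [smul_eq_mul, mul_comm]
    induction g using MvPolynomial.induction_on with
    | C a =>
      intro j
      rw [mul_comm, homogeneousComponent_C_mul, ← MvPolynomial.smul_eq_C_mul, map_smul]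
      exact Submodule.smul_mem _ _ (hf j)
    | add p q hp hq =>
      intro j
      rw [mul_add, map_add, map_add]
      exact Submodule.add_mem _ (hp j) (hq j)
    | mul_X p i hp =>
      intro j
      rw [← mul_assoc]
      cases j with
      | zero => rw [hc_mul_X_zero, map_zero]; exact Submodule.zero_mem _
      | succ j =>
        rw [hc_mul_X]
        have h1 := sig_mul_X (η := η) (s := s) hρ i j (f * p)
        have h2 : ρ (s i) (sig s ρ η (homogeneousComponent j (f * p))) ∈ L ⊔ Fl ρ η (j + 1) := by
          have h3 := hp j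
          rw [Submodule.mem_sup] at h3
          obtain ⟨y, hy, z, hz, hyz⟩ := h3
          rw [← hyz, map_add]
          exact Submodule.add_mem _ (Submodule.mem_sup_left (hL _ _ hy))
            (Submodule.mem_sup_right (rho_mem _ hz))
        have h4 := Submodule.add_mem _ (Submodule.mem_sup_right h1) h2
        rwa [sub_add_cancel] at h4

lemma mem_lead (hρ : Comm ρ) (η : V) (L : Submodule R V) (hL : ∀ m, ∀ x ∈ L, ρ m x ∈ L)
    (f : MvPolynomial (Fin r) R) :
    f ∈ lead s hρ η L hL ↔ ∀ j, sig s ρ η (homogeneousComponent j f) ∈ L ⊔ Fl ρ η j := Iff.rfl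

lemma lead_mono (hρ : Comm ρ) (η : V) {L L' : Submodule R V} (hL : ∀ m, ∀ x ∈ L, ρ m x ∈ L)
    (hL' : ∀ m, ∀ x ∈ L', ρ m x ∈ L') (h : L ≤ L') : lead s hρ η L hL ≤ lead s hρ η L' hL' :=
  fun _ hf j => sup_le_sup_right h _ (hf j)

lemma repr (hρ : Comm ρ) (hs : ∀ m, ρ m η ∈ Submodule.span R (Set.range fun i => ρ (s i) η))
    (m : ℕ) {x : V} (hx : x ∈ Fl ρ η (m + 1)) :
    ∃ f : MvPolynomial (Fin r) R, homogeneousComponent m f = f ∧ x - sig s ρ η f ∈ Fl ρ η m := by
  have htp : ∀ y ∈ Tp s ρ η m, ∃ f : MvPolynomial (Fin r) R, homogeneousComponent m f = f ∧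
      y - sig s ρ η f ∈ Fl ρ η m := by
    intro y hy
    unfold Tp at hy
    induction hy using Submodule.span_induction with
    | mem y hy =>
      obtain ⟨w, hw, rfl⟩ := hy
      have hdeg : (Multiset.toFinsupp (w : Multiset (Fin r))).degree = m := by
        have h1 := lst_length (s := s) (Multiset.toFinsupp (w : Multiset (Fin r)))
        rw [← h1, (lst_perm' (s := s) w).length_eq, List.length_map, hw]
      refine ⟨monomial (Multiset.toFinsupp (w : Multiset (Fin r))) 1, ?_, ?_⟩
      · rw [hc_monomial, if_pos hdeg]
      · rw [sig_monomial, one_smul]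
        have h1 := perm_mem (η := η) hρ (lst_perm' (s := s) w).symm
        rwa [List.length_map, hw] at h1
    | zero => exact ⟨0, by rw [map_zero], by simp⟩
    | add y z _ _ hy hz =>
      obtain ⟨f, hf1, hf2⟩ := hy
      obtain ⟨g, hg1, hg2⟩ := hz
      refine ⟨f + g, by rw [map_add, hf1, hg1], ?_⟩
      rw [map_add, add_sub_add_comm]
      exact Submodule.add_mem _ hf2 hg2
    | smul a y _ hy =>
      obtain ⟨f, hf1, hf2⟩ := hy
      refine ⟨a • f, by rw [map_smul, hf1], ?_⟩
      rw [map_smul, ← smul_sub]
      exact Submodule.smul_mem _ _ hf2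
  unfold Fl at hx
  induction hx using Submodule.span_induction with
  | mem y hy =>
    obtain ⟨w, hw, rfl⟩ := hy
    rcases Nat.lt_or_ge w.length m with h | h
    · exact ⟨0, by rw [map_zero], by rw [map_zero, sub_zero]; exact wd_mem h⟩
    · have hwm : w.length = m := by omega
      have h1 := red hρ hs w []
      simp only [List.map_nil, List.nil_append, List.length_nil, zero_add, hwm] at h1
      rw [Submodule.mem_sup] at h1
      obtain ⟨y, hy, z, hz, hyz⟩ := h1
      obtain ⟨f, hf1, hf2⟩ := htp y hy
      refine ⟨f, hf1, ?_⟩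
      rw [← hyz, add_sub_right_comm]
      exact Submodule.add_mem _ hf2 hz
  | zero => exact ⟨0, by rw [map_zero], by simp⟩
  | add y z _ _ hy hz =>
    obtain ⟨f, hf1, hf2⟩ := hy
    obtain ⟨g, hg1, hg2⟩ := hz
    refine ⟨f + g, by rw [map_add, hf1, hg1], ?_⟩
    rw [map_add, add_sub_add_comm]
    exact Submodule.add_mem _ hf2 hg2
  | smul a y _ hy =>
    obtain ⟨f, hf1, hf2⟩ := hy
    refine ⟨a • f, by rw [map_smul, hf1], ?_⟩
    rw [map_smul, ← smul_sub]
    exact Submodule.smul_mem _ _ hf2

/-- The Noetherian lemma. -/
theorem acc [IsNoetherianRing R] (hρ : Comm ρ)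
    (hs : ∀ m, ρ m η ∈ Submodule.span R (Set.range fun i => ρ (s i) η))
    (L : ℕ → Submodule R V) (hmono : Monotone L) (hL : ∀ i m, ∀ x ∈ L i, ρ m x ∈ L i)
    (hle : ∀ i, ∀ x ∈ L i, ∃ k, x ∈ Fl ρ η k) : ∃ n, ∀ m, n ≤ m → L m = L n := by
  have h1 : ∃ n, ∀ m, n ≤ m → lead s hρ η (L n) (hL n) = lead s hρ η (L m) (hL m) :=
    monotone_stabilizes_iff_noetherian.mpr
      (inferInstance : IsNoetherian (MvPolynomial (Fin r) R) (MvPolynomial (Fin r) R))
      ⟨fun i => lead s hρ η (L i) (hL i), fun i j hij => lead_mono hρ η _ _ (hmono hij)⟩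
  obtain ⟨n, hn⟩ := h1
  refine ⟨n, fun m hm => le_antisymm ?_ (hmono hm)⟩
  have key : ∀ k x, x ∈ L m → x ∈ Fl ρ η k → x ∈ L n := by
    intro k
    induction k with
    | zero =>
      intro x _ hx
      have : Fl ρ η 0 = ⊥ := by
        unfold Fl
        have : {x : V | ∃ w : List ι, w.length < 0 ∧ x = wd ρ η w} = ∅ := by
          ext z; simp
        rw [this, Submodule.span_empty]
      rw [this, Submodule.mem_bot] at hx
      rw [hx]
      exact Submodule.zero_mem _
    | succ k ih =>
      intro x hxm hx
      obtain ⟨f, hf1, hf2⟩ := repr hρ hs k hx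
      have h2 : f ∈ lead s hρ η (L m) (hL m) := by
        rw [mem_lead]
        intro j
        by_cases hj : j = k
        · subst hj
          rw [hf1]
          have h3 : sig s ρ η f = x - (x - sig s ρ η f) := by abel
          rw [h3]
          exact Submodule.sub_mem _ (Submodule.mem_sup_left hxm) (Submodule.mem_sup_right hf2)
        · have h3 : homogeneousComponent j f = 0 := by
            rw [← hf1]
            ext d
            rw [coeff_homogeneousComponent, coeff_homogeneousComponent, coeff_zero]
            split_ifs with h4 h5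
            · exact absurd (h4.symm.trans h5) hj
            · rfl
            · rfl
          rw [h3, map_zero]
          exact Submodule.zero_mem _
      rw [← hn m hm, mem_lead] at h2
      have h3 := h2 k
      rw [hf1, Submodule.mem_sup] at h3
      obtain ⟨y, hy, z, hz, hyz⟩ := h3
      have h4 : x = y + (x - y) := by abel
      rw [h4]
      refine Submodule.add_mem _ hy (ih _ (Submodule.sub_mem _ hxm (hmono hm hy)) ?_)
      have h5 : x - y = (x - sig s ρ η f) + z := by rw [← hyz]; abel
      rw [h5]
      exact Submodule.add_mem _ hf2 hz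
  intro x hx
  obtain ⟨k, hk⟩ := hle m x hx
  exact key k x hx hk

end Pool.Agent.R693.Noeth
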