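import Pool.Agent.R693.W.Reduce
import Pool.Agent.R693.W.Noeth

/-!
Chains of ideals in algebras generated by elements satisfying the Witt relations.
-/

set_option autoImplicit false
set_option linter.unusedSectionVars false

namespace Pool.Agent.R693.W

open Polynomial in
/-- Sequences indexed by labels satisfying a linear recurrence. -/
lemma rec_span {ι : Type} [AddCommMonoid ι] [Lab ι] {R V : Type*} [CommRing R] [AddCommGroup V]
    [Module R V] (s : ι → V) (r : ℕ) (p : ℕ → R) (hr : p r = 1)
    (hu : (∃ j : ι, Lab.c j < 0) → ∃ u, u * p 0 = 1)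
    (hrec : ∀ m : ι, ∑ j ∈ Finset.range (r + 1), p j • s (m + j • Lab.one) = 0) (m : ι) :
    s m ∈ Submodule.span R (Set.range fun i : Fin r => s ((i : ℕ) • Lab.one)) := by
  set S := Submodule.span R (Set.range fun i : Fin r => s ((i : ℕ) • Lab.one)) with hS
  have up : ∀ z : ℕ, ∀ j : ι, Lab.c j = z → s j ∈ S := by
    intro z
    induction z using Nat.strong_induction_on with
    | _ z ih =>
      intro j hj
      have hj1 : j = z • Lab.one := by
        apply Lab.inj
        rw [hj, c_nsmul_one]
      by_cases hz : z < r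
      · rw [hj1]
        exact Submodule.subset_span ⟨⟨z, hz⟩, rfl⟩
      · have h1 := hrec ((z - r) • Lab.one)
        rw [Finset.sum_range_succ, hr, one_smul] at h1
        have h2 : ((z - r) • Lab.one : ι) + r • Lab.one = j := by
          rw [← add_smul, hj1]
          congr 1
          omega
        rw [h2] at h1
        have h3 : s j = -∑ j' ∈ Finset.range r, p j' • s ((z - r) • Lab.one + j' • Lab.one) :=
          eq_neg_of_add_eq_zero_right h1
        rw [h3]
        refine Submodule.neg_mem _ (Submodule.sum_mem _ fun j' hj' => Submodule.smul_mem _ _ ?_)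
        have hj'' := Finset.mem_range.mp hj'
        apply ih (z - r + j') (by omega)
        rw [map_add, c_nsmul_one, c_nsmul_one]
        push_cast
        rfl
  by_cases hm : 0 ≤ Lab.c m
  · exact up (Lab.c m).toNat m (by rw [Int.toNat_of_nonneg hm])
  · obtain ⟨u, hu⟩ := hu ⟨m, by omega⟩
    have down : ∀ z : ℕ, ∀ j : ι, Lab.c j = -(z : ℤ) → s j ∈ S := by
      intro z
      induction z using Nat.strong_induction_on with
      | _ z ih =>
        intro j hj
        by_cases hz : z = 0
        · exact up 0 j (by rw [hj, hz]; simp)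
        · have h1 := hrec j
          rw [Finset.sum_range_succ', zero_smul, add_zero] at h1
          have h2 : s j = -∑ j' ∈ Finset.range r, (u * p (j' + 1)) • s (j + (j' + 1) • Lab.one) := by
            have h3 := congrArg (fun v => u • v) h1
            beta_reduce at h3
            rw [smul_add, smul_zero, smul_smul, hu, one_smul, Finset.smul_sum] at h3
            simp only [smul_smul] at h3
            exact eq_neg_of_add_eq_zero_right h3
          rw [h2]
          refine Submodule.neg_mem _ (Submodule.sum_mem _ fun j' hj' => Submodule.smul_mem _ _ ?_)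
          have hc : Lab.c (j + (j' + 1) • Lab.one) = -(z : ℤ) + (j' + 1) := by
            rw [map_add, c_nsmul_one, hj]; push_cast; ring
          by_cases h5 : j' + 1 < z
          · exact ih (z - (j' + 1)) (by omega) _ (by rw [hc]; omega)
          · exact up (j' + 1 - z) _ (by rw [hc]; omega)
    exact down (-Lab.c m).toNat m (by omega)

variable {F : Type*} [Field F] [CharZero F] {ι : Type} [AddCommMonoid ι] [Lab ι]

/-! ### The coefficient ring -/

variable (F ι) in
/-- The inverse generator (if available). -/
noncomputable def Xi (a : ℕ) : K F ι := AddMonoidAlgebra.single (Pi.single a Lab.inv) 1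

variable (F ι) in
/-- The generators of the coefficient ring. -/
def gens (d : ℕ) : Set (K F ι) := {g | ∃ i < d, g = X i ∨ g = Xi F ι i}

lemma gens_finite (d : ℕ) : (gens F ι d).Finite := by
  have : gens F ι d ⊆ (fun i => X i) '' (Set.Iio d) ∪ (fun i => Xi F ι i) '' (Set.Iio d) := by
    rintro g ⟨i, hi, rfl | rfl⟩
    · exact Or.inl ⟨i, hi, rfl⟩
    · exact Or.inr ⟨i, hi, rfl⟩
  exact Set.Finite.subset (((Set.finite_Iio d).image _).union ((Set.finite_Iio d).image _)) this

variable (F ι) in
/-- The coefficient ring of the first `d` labels. -/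
noncomputable def Rd (d : ℕ) : Subalgebra F (K F ι) := Algebra.adjoin F (gens F ι d)

instance (d : ℕ) : IsNoetherianRing (Rd F ι d) := by
  apply isNoetherianRing_of_fg
  exact ⟨(gens_finite d).toFinset, by rw [Set.Finite.coe_toFinset]; rfl⟩

lemma X_mem_Rd {d i : ℕ} (hi : i < d) : (X i : K F ι) ∈ Rd F ι d :=
  Algebra.subset_adjoin ⟨i, hi, Or.inl rfl⟩

lemma Xi_mem_Rd {d i : ℕ} (hi : i < d) : (Xi F ι i : K F ι) ∈ Rd F ι d :=
  Algebra.subset_adjoin ⟨i, hi, Or.inr rfl⟩

lemma Dl_mem_Rd (d : ℕ) : Dl F ι d ∈ Rd F ι d := by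
  unfold Dl
  apply Subalgebra.prod_mem
  intro p hp
  unfold offd at hp
  simp only [Finset.mem_filter, Finset.mem_product, Finset.mem_range] at hp
  exact Subalgebra.sub_mem _ (X_mem_Rd hp.1.1) (X_mem_Rd hp.1.2)

variable {A : Type*} [Ring A] [Algebra F A] {e : ι → A}

/-- Elements of the coefficient ring do not involve the label `d`. -/
lemma act_Rd {d : ℕ} {g : K F ι} (hg : g ∈ Rd F ι d) (y : ι → A) : ∀ (h : G ι → A) (n : G ι),
    act A g (fun n => y (n d) * h n) n = y (n d) * act A g h n := by
  unfold Rd at hg
  induction hg using Algebra.adjoin_induction with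
  | mem g hg =>
    intro h n
    obtain ⟨i, hi, rfl | rfl⟩ := hg
    · unfold X
      rw [act_single, act_single, one_smul, one_smul, Pi.add_apply, dl_ne hi.ne, add_zero]
    · unfold Xi
      rw [act_single, act_single, one_smul, one_smul, Pi.add_apply, Pi.single_eq_of_ne hi.ne',
        add_zero]
  | algebraMap r =>
    intro h n
    rw [AlgHom.commutes, Module.algebraMap_end_apply, Module.algebraMap_end_apply, Pi.smul_apply,
      Pi.smul_apply, mul_smul_comm]
  | add p q _ _ hp hq =>
    intro h n
    rw [map_add, LinearMap.add_apply, LinearMap.add_apply, Pi.add_apply, Pi.add_apply, hp, hq,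
      mul_add]
  | mul p q _ _ hp hq =>
    intro h n
    rw [act_mul, act_mul]
    have : act A q (fun n => y (n d) * h n) = fun n => y (n d) * act A q h n := by
      funext n
      exact hq h n
    rw [this, hp]

/-! ### The module of functions with values in a quotient -/

variable (J : Ideal A)

/-- Functions with values in `A ⧸ J`. -/
abbrev VV := G ι → (A ⧸ J)

noncomputable instance instVV (d : ℕ) : Module (Rd F ι d) (VV (ι := ι) J) :=
  Module.compHom (VV (ι := ι) J)
    ((act (C := F) (ι := ι) (A ⧸ J)).toRingHom.comp (Rd F ι d).val.toRingHom)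

lemma smul_VV (d : ℕ) (p : Rd F ι d) (f : VV (ι := ι) J) :
    p • f = act (A ⧸ J) (p : K F ι) f := rfl

variable (F e) in
/-- Left multiplication by a generator. -/
noncomputable def rho (d : ℕ) (m : ι) : Module.End (Rd F ι d) (VV (ι := ι) J) where
  toFun f := fun n => e m • f n
  map_add' f g := by
    funext n
    simp only [Pi.add_apply, smul_add]
  map_smul' p f := by
    funext n
    rw [smul_VV, RingHom.id_apply, smul_VV]
    exact (act_map (C := F) (ι := ι) (M := A ⧸ J) (M' := A ⧸ J)
      { toFun := fun x => e m • x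
        map_add' := fun x y => smul_add _ _ _
        map_smul' := fun r x => smul_comm _ _ _ } (p : K F ι) f n).symm

lemma rho_apply (d : ℕ) (m : ι) (f : VV (ι := ι) J) (n : G ι) :
    rho F e J d m f n = e m • f n := rfl

open Classical in
lemma rho_comm (he : IsW F e) (d : ℕ) : Noeth.Comm (rho F e J d) := by
  intro m n
  have key : rho F e J d m * rho F e J d n - rho F e J d n * rho F e J d m =
      algebraMap F (Rd F ι d) ((Lab.c n - Lab.c m : ℤ) : F) •
        (if h : ∃ i : ι, Lab.c i = Lab.c n + Lab.c m - 1 then rho F e J d h.choose else 0) := by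
    apply LinearMap.ext
    intro f
    funext l
    have h1 : (rho F e J d m * rho F e J d n - rho F e J d n * rho F e J d m) f l =
        ad e m (e n) • f l := by
      rw [LinearMap.sub_apply, Pi.sub_apply, Module.End.mul_apply, Module.End.mul_apply,
        rho_apply, rho_apply, rho_apply, rho_apply, ad, sub_smul, mul_smul, mul_smul]
    rw [h1, ad_e he]
    split_ifs with h
    · have h2 : ext e (Lab.c n + Lab.c m - 1) = e h.choose :=
        (congrArg (ext e) h.choose_spec.symm).trans (ext_c e _)
      rw [h2, LinearMap.smul_apply, smul_VV]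
      have h3 : ((algebraMap F (Rd F ι d) ((Lab.c n - Lab.c m : ℤ) : F) : Rd F ι d) : K F ι) =
          algebraMap F (K F ι) ((Lab.c n - Lab.c m : ℤ) : F) := rfl
      rw [h3, AlgHom.commutes, Module.algebraMap_end_apply, Pi.smul_apply, rho_apply,
        smul_assoc]
    · rw [ext_not e h, smul_zero, zero_smul, smul_zero]
      rfl
  rw [key]
  apply Submodule.smul_mem
  split_ifs with h
  · exact Submodule.subset_span ⟨_, rfl⟩
  · exact Submodule.zero_mem _

lemma Ind_act {M : Type*} [AddCommGroup M] [Module F M] {a : ℕ} {h : G ι → M} (hh : Ind h a)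
    (g : K F ι) : Ind (act M g h) a := by
  intro n n' hn
  induction g using AddMonoidAlgebra.induction_linear with
  | zero => simp
  | add p q hp hq => rw [map_add, LinearMap.add_apply, Pi.add_apply, Pi.add_apply, hp, hq]
  | single k r =>
    rw [act_single, act_single]
    congr 1
    apply hh
    intro b hb
    rw [Pi.add_apply, Pi.add_apply, hn b hb]

lemma Ind_om (d : ℕ) : Ind (om e d) d := by
  intro n n' hn
  unfold om
  apply omy_congr
  intro i hi
  rw [hn i hi.ne]

variable (F) (e) in
/-- The basic function. -/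
noncomputable def eta0 (d N : ℕ) : G ι → A := act A (Dl F ι d ^ N) (om e d)

lemma Ind_eta0 (d N : ℕ) : Ind (eta0 F e d N) d := Ind_act (Ind_om d) _

variable (F) (e) in
/-- The basic function modulo `J`. -/
noncomputable def eta (d N : ℕ) : VV (ι := ι) J := fun n => Submodule.Quotient.mk (eta0 F e d N n)

lemma smul_eta (d N : ℕ) (p : Rd F ι d) (n : G ι) :
    (p • eta F e J d N) n = Submodule.Quotient.mk (act A (p : K F ι) (eta0 F e d N) n) := by
  rw [smul_VV]
  exact act_map (C := F) (ι := ι) (M := A) (M' := A ⧸ J)
      { toFun := fun x => Submodule.Quotient.mk x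
        map_add' := fun x y => rfl
        map_smul' := fun r x => rfl } (p : K F ι) (eta0 F e d N) n

lemma Dl_succ_dvd (d : ℕ) : Dl F ι (d + 1) ∣ (∏ i : Fin d, (X d - X (i : ℕ))) ^ 2 * Dl F ι d := by
  have h1 : offd (d + 1) = (offd d ∪ (Finset.range d).image (fun i => (d, i))) ∪
      (Finset.range d).image (fun i => (i, d)) := by
    ext ⟨a, b⟩
    unfold offd
    simp only [Finset.mem_filter, Finset.mem_product, Finset.mem_range, Finset.mem_union,
      Finset.mem_image, Prod.mk.injEq]
    constructor
    · rintro ⟨⟨ha, hb⟩, hab⟩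
      by_cases h1 : a = d
      · left; right
        exact ⟨b, by omega, h1.symm, rfl⟩
      · by_cases h2 : b = d
        · right
          exact ⟨a, by omega, rfl, h2.symm⟩
        · left; left
          exact ⟨⟨by omega, by omega⟩, hab⟩
    · rintro ((⟨⟨ha, hb⟩, hab⟩ | ⟨i, hi, rfl, rfl⟩) | ⟨i, hi, rfl, rfl⟩)
      · exact ⟨⟨by omega, by omega⟩, hab⟩
      · exact ⟨⟨by omega, by omega⟩, by omega⟩
      · exact ⟨⟨by omega, by omega⟩, by omega⟩
  have h2 : Dl F ι (d + 1) = Dl F ι d * (∏ i ∈ Finset.range d, (X d - X i)) *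
      (∏ i ∈ Finset.range d, (X i - X d)) := by
    conv_lhs => unfold Dl
    rw [h1, Finset.prod_union, Finset.prod_union, Finset.prod_image, Finset.prod_image]
    · rfl
    · intro a _ b _ hab
      exact (Prod.mk.inj hab).1
    · intro a _ b _ hab
      exact (Prod.mk.inj hab).2
    · rw [Finset.disjoint_left]
      rintro ⟨a, b⟩ ha hb
      unfold offd at ha
      simp only [Finset.mem_filter, Finset.mem_product, Finset.mem_range,
        Finset.mem_image, Prod.mk.injEq] at ha hb
      obtain ⟨i, hi, rfl, rfl⟩ := hb
      omega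
    · rw [Finset.disjoint_left]
      rintro ⟨a, b⟩ ha hb
      unfold offd at ha
      simp only [Finset.mem_filter, Finset.mem_product, Finset.mem_range, Finset.mem_union,
        Finset.mem_image, Prod.mk.injEq] at ha hb
      obtain ⟨i, hi, rfl, rfl⟩ := hb
      rcases ha with h | ⟨j, hj, h3, h4⟩
      · omega
      · omega
  have h3 : (∏ i ∈ Finset.range d, ((X i : K F ι) - X d)) =
      (-1) ^ d * ∏ i ∈ Finset.range d, (X d - X i) := by
    have h4 : ∀ i ∈ Finset.range d, ((X i : K F ι) - X d) = (-1) * (X d - X i) := by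
      intro i _; ring
    rw [Finset.prod_congr rfl h4, Finset.prod_mul_distrib, Finset.prod_const, Finset.card_range]
  have h5 : (∏ i : Fin d, ((X d : K F ι) - X (i : ℕ))) = ∏ i ∈ Finset.range d, (X d - X i) :=
    Fin.prod_univ_eq_prod_range (fun i => (X d : K F ι) - X i) d
  refine ⟨(-1) ^ d, ?_⟩
  rw [h2, h3, h5]
  have h6 : ((-1 : K F ι)) ^ d * (-1) ^ d = 1 := by
    rw [← mul_pow]; simp
  linear_combination (-((∏ i ∈ Finset.range d, ((X d : K F ι) - X i)) ^ 2 * Dl F ι d)) * h6

open Polynomial in
lemma eta_span (N d : ℕ) (hV : Dl F ι (d + 1) ^ N ∈ aI e (d + 1) (J.restrictScalars F)) (m : ι) :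
    rho F e J d m (eta F e J d N) ∈ Submodule.span (Rd F ι d)
      (Set.range fun i : Fin (d * (2 * N)) => rho F e J d ((i : ℕ) • Lab.one) (eta F e J d N)) := by
  set xR : Fin d → Rd F ι d := fun i => ⟨X (i : ℕ), X_mem_Rd i.2⟩ with hxR
  set P0 : Polynomial (Rd F ι d) := ∏ i : Fin d, (Polynomial.X - Polynomial.C (xR i)) ^ (2 * N)
    with hP0
  have hmonic : P0.Monic := by
    apply Polynomial.monic_prod_of_monic
    intro i _
    exact (Polynomial.monic_X_sub_C _).pow _
  have hdeg : P0.natDegree = d * (2 * N) := by
    rw [hP0, Polynomial.natDegree_prod_of_monic]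
    · have h1 : ∀ i : Fin d, ((Polynomial.X - Polynomial.C (xR i)) ^ (2 * N)).natDegree = 2 * N := by
        intro i
        rw [(Polynomial.monic_X_sub_C _).natDegree_pow, Polynomial.natDegree_X_sub_C, mul_one]
      rw [Finset.sum_congr rfl fun i _ => h1 i, Finset.sum_const, Finset.card_univ,
        Fintype.card_fin, smul_eq_mul]
    · intro i _
      exact (Polynomial.monic_X_sub_C _).pow _
  refine rec_span (fun m => rho F e J d m (eta F e J d N)) (d * (2 * N)) (fun j => P0.coeff j)
    ?_ ?_ ?_ m
  · beta_reduce
    rw [← hdeg]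
    exact hmonic
  · rintro ⟨j, hj⟩
    have hinv : Lab.c (Lab.inv : ι) = -1 := by
      rcases Lab.dich (ι := ι) with h | h
      · exact h
      · exact absurd (h j) (not_le.mpr hj)
    have h1 : ∀ i : Fin d, (X (i : ℕ) : K F ι) * Xi F ι i = 1 := by
      intro i
      unfold X Xi
      rw [AddMonoidAlgebra.single_mul_single, one_mul, AddMonoidAlgebra.one_def]
      congr 1
      unfold dl
      rw [← Pi.single_add]
      have : (Lab.one + Lab.inv : ι) = 0 := by
        apply Lab.inj
        rw [map_add, Lab.c_one, hinv, map_zero]; rfl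
      rw [this, Pi.single_zero]
    refine ⟨∏ i : Fin d, (-(⟨Xi F ι i, Xi_mem_Rd i.2⟩ : Rd F ι d)) ^ (2 * N), ?_⟩
    beta_reduce
    rw [Polynomial.coeff_zero_eq_eval_zero, hP0, Polynomial.eval_prod, ← Finset.prod_mul_distrib]
    apply Finset.prod_eq_one
    intro i _
    rw [Polynomial.eval_pow, Polynomial.eval_sub, Polynomial.eval_X, Polynomial.eval_C, zero_sub,
      ← mul_pow]
    have h2 : -(⟨Xi F ι i, Xi_mem_Rd i.2⟩ : Rd F ι d) * -xR i = 1 := by
      apply Subtype.ext
      change -Xi F ι i * -X (i : ℕ) = 1
      rw [neg_mul_neg, mul_comm, h1]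
    rw [h2, one_pow]
  · intro m
    funext n
    have hval : ∑ j ∈ Finset.range (d * (2 * N) + 1), e (m + j • Lab.one) *
        act A ((P0.coeff j : Rd F ι d) : K F ι) (eta0 F e d N) n ∈ J := by
      set n' : G ι := Function.update n d m with hn'
      have h1 : (∑ j ∈ Finset.range (d * (2 * N) + 1), ((P0.coeff j : Rd F ι d) : K F ι) *
          X d ^ j) * Dl F ι d ^ N ∈ aI e (d + 1) (J.restrictScalars F) := by
        have h2 : (∑ j ∈ Finset.range (d * (2 * N) + 1), ((P0.coeff j : Rd F ι d) : K F ι) *
            X d ^ j) = (∏ i : Fin d, (X d - X (i : ℕ))) ^ (2 * N) := by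
          have h3 : Polynomial.eval₂ (algebraMap (Rd F ι d) (K F ι)) (X d : K F ι) P0 =
              (∏ i : Fin d, (X d - X (i : ℕ))) ^ (2 * N) := by
            rw [hP0, Polynomial.eval₂_finsetProd, ← Finset.prod_pow]
            refine Finset.prod_congr rfl fun i _ => ?_
            rw [Polynomial.eval₂_pow, Polynomial.eval₂_sub, Polynomial.eval₂_X,
              Polynomial.eval₂_C]
            rfl
          rw [← h3, Polynomial.eval₂_eq_sum_range, hdeg]
          refine Finset.sum_congr rfl fun j _ => ?_
          rfl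
        rw [h2, pow_mul, ← mul_pow]
        obtain ⟨q, hq⟩ := Dl_succ_dvd (F := F) (ι := ι) d
        rw [hq, mul_pow, mul_comm]
        exact Ideal.mul_mem_left _ _ hV
      have h4 := h1 n'
      rw [Finset.sum_mul, map_sum, LinearMap.sum_apply, Finset.sum_apply] at h4
      have h5 : ∀ j ∈ Finset.range (d * (2 * N) + 1),
          act A (((P0.coeff j : Rd F ι d) : K F ι) * X d ^ j * Dl F ι d ^ N) (om e (d + 1)) n' =
          e (m + j • Lab.one) * act A ((P0.coeff j : Rd F ι d) : K F ι) (eta0 F e d N) n := by
        intro j _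
        have h6 : act A (Dl F ι d ^ N) (om e (d + 1)) = fun n : G ι => e (n d) * eta0 F e d N n := by
          funext l
          exact act_Rd (Subalgebra.pow_mem _ (Dl_mem_Rd d) N) e (om e d) l
        have h7 : act A (X d ^ j : K F ι) (fun n : G ι => e (n d) * eta0 F e d N n) =
            fun n : G ι => e (n d + j • Lab.one) * eta0 F e d N n := by
          funext l
          have h8 : (X d : K F ι) ^ j = AddMonoidAlgebra.single (j • dl d) 1 := by
            unfold X
            rw [AddMonoidAlgebra.single_pow, one_pow]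
          rw [h8, act_single, one_smul]
          congr 1
          · rw [Pi.add_apply, Pi.smul_apply, dl_self]
          · apply Ind_eta0
            intro b hb
            rw [Pi.add_apply, Pi.smul_apply, dl_ne hb.symm, smul_zero, add_zero]
        rw [act_mul, act_mul, h6, h7,
          act_Rd (P0.coeff j).2 (fun x => e (x + j • Lab.one)) (eta0 F e d N) n']
        congr 1
        · rw [hn', Function.update_self]
        · apply Ind_act (Ind_eta0 d N)
          intro b hb
          rw [hn', Function.update_of_ne hb]
      rw [Finset.sum_congr rfl h5] at h4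
      exact h4
    have h9 : (∑ j ∈ Finset.range (d * (2 * N) + 1), (fun j => P0.coeff j) j •
        rho F e J d (m + j • Lab.one) (eta F e J d N)) n =
        Submodule.Quotient.mk (∑ j ∈ Finset.range (d * (2 * N) + 1), e (m + j • Lab.one) *
        act A ((P0.coeff j : Rd F ι d) : K F ι) (eta0 F e d N) n) := by
      rw [Finset.sum_apply]
      have h10 : ∀ j, ((fun j => P0.coeff j) j • rho F e J d (m + j • Lab.one) (eta F e J d N)) n =
          (Submodule.mkQ J) (e (m + j • Lab.one) *
            act A ((P0.coeff j : Rd F ι d) : K F ι) (eta0 F e d N) n) := by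
        intro j
        beta_reduce
        rw [← map_smul, rho_apply, smul_eta]
        rfl
      rw [Finset.sum_congr rfl fun j _ => h10 j, ← map_sum]
      rfl
    rw [h9]
    exact (Submodule.Quotient.mk_eq_zero J).mpr hval

end Pool.Agent.R693.W
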