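import Pool.Agent.R693.W.Shift

/-!
Iterated commutators with the generators of a Witt type algebra (`x m = t^m ∂`).
-/

set_option autoImplicit false
set_option linter.unusedSectionVars false

namespace Pool.Agent.R693.W

variable {C : Type*} [CommRing C] {ι : Type} [AddCommMonoid ι] [Lab ι]
variable {A : Type*} [Ring A] [Algebra C A]

/-- Commutator with `e m`. -/
def ad {κ : Type*} (e : κ → A) (m : κ) (x : A) : A := e m * x - x * e m

variable (C) in
/-- The relations of the Lie algebra `Der k[t]` or `Der k[t,1/t]`, with `x m = t^m ∂`. -/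
def IsW (x : ι → A) : Prop :=
  ∀ m n j : ι, m + n = j + Lab.one → x m * x n - x n * x m = ((Lab.c n - Lab.c m : ℤ) : C) • x j

section general
variable {κ : Type*} (e : κ → A)

lemma ad_add (m : κ) (x y : A) : ad e m (x + y) = ad e m x + ad e m y := by
  unfold ad; noncomm_ring

lemma ad_zero (m : κ) : ad e m 0 = 0 := by unfold ad; simp

lemma ad_one (m : κ) : ad e m 1 = 0 := by unfold ad; simp

lemma ad_smul (m : κ) (r : C) (x : A) : ad e m (r • x) = r • ad e m x := by
  unfold ad; simp only [mul_smul_comm, smul_mul_assoc, smul_sub]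

lemma ad_mul (m : κ) (x y : A) : ad e m (x * y) = ad e m x * y + x * ad e m y := by
  unfold ad; noncomm_ring

lemma ad_sum (m : κ) {σ : Type*} (s : Finset σ) (f : σ → A) :
    ad e m (∑ i ∈ s, f i) = ∑ i ∈ s, ad e m (f i) := by
  unfold ad
  rw [Finset.mul_sum, Finset.sum_mul, Finset.sum_sub_distrib]

end general

variable (e : ι → A)

/-- Iterated commutators, along the sorted elements of `T`. -/
def adT (T : Finset ℕ) (n : G ι) (x : A) : A := (T.sort (· ≤ ·)).foldr (fun a y => ad e (n a) y) x

@[simp] lemma adT_empty (n : G ι) (x : A) : adT e ∅ n x = x := by simp [adT]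

lemma adT_insert {T : Finset ℕ} {a : ℕ} (h : ∀ b ∈ T, a < b) (n : G ι) (x : A) :
    adT e (insert a T) n x = ad e (n a) (adT e T n x) := by
  unfold adT
  rw [Finset.sort_insert (· ≤ ·) (fun b hb => (h b hb).le) (fun ha => lt_irrefl _ (h a ha))]
  rfl

/-- The Leibniz rule. -/
lemma adT_mul (T : Finset ℕ) (n : G ι) (x y : A) :
    adT e T n (x * y) = ∑ S ∈ T.powerset, adT e S n x * adT e (T \ S) n y := by
  induction T using Finset.induction_on_min with
  | empty => simp
  | insert a T h ih =>
    have haT : a ∉ T := fun ha => lt_irrefl _ (h a ha)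
    rw [adT_insert e h, ih, Finset.sum_powerset_insert haT, ad_sum, ← Finset.sum_add_distrib]
    refine Finset.sum_congr rfl fun S hS => ?_
    have hST : S ⊆ T := Finset.mem_powerset.mp hS
    have haS : a ∉ S := fun ha => haT (hST ha)
    have h1 : insert a T \ S = insert a (T \ S) := by
      ext b
      simp only [Finset.mem_sdiff, Finset.mem_insert]
      constructor
      · rintro ⟨rfl | hb, hbS⟩
        · exact Or.inl rfl
        · exact Or.inr ⟨hb, hbS⟩
      · rintro (rfl | ⟨hb, hbS⟩)
        · exact ⟨Or.inl rfl, haS⟩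
        · exact ⟨Or.inr hb, hbS⟩
    have h2 : insert a T \ insert a S = T \ S := by
      ext b
      simp only [Finset.mem_sdiff, Finset.mem_insert, not_or]
      constructor
      · rintro ⟨rfl | hb, hba, hbS⟩
        · exact absurd rfl hba
        · exact ⟨hb, hbS⟩
      · rintro ⟨hb, hbS⟩
        exact ⟨Or.inr hb, fun hba => haT (hba ▸ hb), hbS⟩
    rw [h1, h2, ad_mul, adT_insert e (fun b hb => h b (Finset.mem_sdiff.mp hb).1),
      adT_insert e (fun b hb => h b (hST hb)), add_comm]

lemma adT_one {T : Finset ℕ} (hT : T.Nonempty) (n : G ι) : adT e T n (1 : A) = 0 := by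
  induction T using Finset.induction_on_min with
  | empty => exact absurd hT Finset.not_nonempty_empty
  | insert a T h ih =>
    rw [adT_insert e h]
    by_cases hT' : T.Nonempty
    · rw [ih hT', ad_zero]
    · rw [Finset.not_nonempty_iff_eq_empty.mp hT', adT_empty, ad_one]

lemma adT_add (T : Finset ℕ) (n : G ι) (x y : A) :
    adT e T n (x + y) = adT e T n x + adT e T n y := by
  induction T using Finset.induction_on_min with
  | empty => simp
  | insert a T h ih => rw [adT_insert e h, adT_insert e h, adT_insert e h, ih, ad_add]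

lemma adT_smul (T : Finset ℕ) (n : G ι) (r : C) (x : A) :
    adT e T n (r • x) = r • adT e T n x := by
  induction T using Finset.induction_on_min with
  | empty => simp
  | insert a T h ih => rw [adT_insert e h, adT_insert e h, ih, ad_smul]

lemma adT_ind (T : Finset ℕ) (x : A) {a : ℕ} (ha : a ∉ T) : Ind (fun n => adT e T n x) a := by
  intro n n' hn
  beta_reduce
  induction T using Finset.induction_on_min with
  | empty => simp
  | insert b T h ih =>
    rw [adT_insert e h, adT_insert e h, ih (fun h' => ha (Finset.mem_insert_of_mem h'))]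
    have : n b = n' b := by
      apply hn
      rintro rfl
      exact ha (Finset.mem_insert_self _ _)
    rw [this]

lemma adT_mem (I : Submodule C A) (hI : ∀ m x, x ∈ I → ad e m x ∈ I) (T : Finset ℕ) (n : G ι)
    {x : A} (hx : x ∈ I) : adT e T n x ∈ I := by
  induction T using Finset.induction_on_min with
  | empty => simpa using hx
  | insert a T h ih => rw [adT_insert e h]; exact hI _ _ ih

open Classical in
/-- Extension by zero to all integers. -/
noncomputable def ext (x : ι → A) (j : ℤ) : A := if h : ∃ i, Lab.c i = j then x h.choose else 0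

lemma ext_c (x : ι → A) (i : ι) : ext x (Lab.c i) = x i := by
  have h : ∃ i', (Lab.c i' : ℤ) = Lab.c i := ⟨i, rfl⟩
  unfold ext
  rw [dif_pos h]
  congr 1
  exact Lab.inj h.choose_spec

lemma ext_not (x : ι → A) {j : ℤ} (h : ¬ ∃ i : ι, Lab.c i = j) : ext x j = 0 := dif_neg h

variable {e}

lemma ad_e (he : IsW C e) (m v : ι) :
    ad e m (e v) = ((Lab.c v - Lab.c m : ℤ) : C) • ext e (Lab.c v + Lab.c m - 1) := by
  unfold ad
  by_cases h : m = v
  · subst h
    simp
  · obtain ⟨j, hj⟩ := Lab.clos m v h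
    have h1 : m + v = j + Lab.one := by
      apply Lab.inj
      rw [map_add, map_add, hj, Lab.c_one]
      ring
    rw [he m v j h1, add_comm (Lab.c v) (Lab.c m), ← hj, ext_c]

/-- The form of an iterated commutator with a generator. -/
lemma adT_e (he : IsW C e) (T : Finset ℕ) (v : ι) :
    ∃ p : G ι → C, PolyF T.card p ∧
      (∀ n, (¬ ∃ i : ι, Lab.c i = Lab.c v + ∑ a ∈ T, Lab.c (n a) - T.card) → p n = 0) ∧
      ∀ n : G ι, adT e T n (e v) = p n • ext e (Lab.c v + ∑ a ∈ T, Lab.c (n a) - T.card) := by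
  induction T using Finset.induction_on_min with
  | empty =>
    refine ⟨fun _ => 1, PolyF.const 1, fun n hn => ?_, fun n => ?_⟩
    · exact absurd ⟨v, by simp⟩ hn
    · simp [ext_c]
  | insert a T h ih =>
    obtain ⟨p, hp, hp0, hpq⟩ := ih
    have haT : a ∉ T := fun ha => lt_irrefl _ (h a ha)
    have hidx : ∀ n : G ι, Lab.c v + ∑ b ∈ insert a T, Lab.c (n b) - ((insert a T).card : ℤ) =
        (Lab.c v + ∑ b ∈ T, Lab.c (n b) - (T.card : ℤ)) + Lab.c (n a) - 1 := by
      intro n
      rw [Finset.sum_insert haT, Finset.card_insert_of_notMem haT]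
      push_cast
      ring
    refine ⟨fun n => ((((Lab.c v : ℤ) : C) + ((∑ b ∈ T, Lab.c (n b) : ℤ) : C) - (T.card : C)) -
      ((Lab.c (n a) : ℤ) : C)) * p n, ?_, ?_, ?_⟩
    · rw [Finset.card_insert_of_notMem haT]
      exact PolyF.mul ((((aff_const _).add (aff_sum T)).sub (aff_const _)).sub (aff_coord a)) hp
    · intro n hn
      beta_reduce
      rw [hidx] at hn
      by_cases h1 : ∃ i : ι, Lab.c i = Lab.c v + ∑ b ∈ T, Lab.c (n b) - (T.card : ℤ)
      · obtain ⟨i, hi⟩ := h1
        rw [← hi] at hn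
        have h2 : i = n a := by
          by_contra h3
          obtain ⟨j, hj⟩ := Lab.clos i (n a) h3
          exact hn ⟨j, hj⟩
        have h4 : (((Lab.c v : ℤ) : C) + ((∑ b ∈ T, Lab.c (n b) : ℤ) : C) - (T.card : C)) =
            ((Lab.c i : ℤ) : C) := by
          rw [hi]; push_cast; ring
        rw [h4, h2, sub_self, zero_mul]
      · rw [hp0 n h1, mul_zero]
    · intro n
      rw [adT_insert e h, hpq n, ad_smul, hidx]
      by_cases h1 : ∃ i : ι, Lab.c i = Lab.c v + ∑ b ∈ T, Lab.c (n b) - (T.card : ℤ)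
      · obtain ⟨i, hi⟩ := h1
        have h4 : (((Lab.c v : ℤ) : C) + ((∑ b ∈ T, Lab.c (n b) : ℤ) : C) - (T.card : C)) =
            ((Lab.c i : ℤ) : C) := by
          rw [hi]; push_cast; ring
        beta_reduce
        rw [h4, ← hi, ext_c, ad_e he, smul_smul]
        congr 1
        push_cast
        ring
      · beta_reduce
        rw [hp0 n h1, zero_smul, mul_zero, zero_smul]

lemma sum_dl {T : Finset ℕ} {a : ℕ} (ha : a ∈ T) (n : G ι) :
    ∑ j ∈ T, Lab.c ((n + (dl a : G ι)) j) = ∑ j ∈ T, Lab.c (n j) + 1 := by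
  simp only [Pi.add_apply, map_add]
  rw [Finset.sum_add_distrib]
  congr 1
  rw [Finset.sum_eq_single a]
  · rw [dl_self, Lab.c_one]
  · intro b _ hb
    rw [dl_ne (Ne.symm hb), map_zero]
  · intro h; exact absurd ha h

/-- If `T` contains `a` and `b`, then a high power of the difference kills. -/
lemma kill (he : IsW C e) (T : Finset ℕ) (v : ι) {a b : ℕ} (ha : a ∈ T) (hb : b ∈ T)
    {R : ℕ} (hR : T.card + 1 ≤ R) :
    act A (D a b ^ R : K C ι) (fun n => adT e T n (e v)) = 0 := by
  obtain ⟨p, hp, -, h⟩ := adT_e he T v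
  have h1 : act A (D a b : K C ι)
      (fun n : G ι => ext e (Lab.c v + ∑ j ∈ T, Lab.c (n j) - T.card)) = 0 := by
    funext n
    rw [act_D, sum_dl ha, sum_dl hb, sub_self]; rfl
  have h3 : (fun n => adT e T n (e v)) =
      (fun n => p n • ext e (Lab.c v + ∑ j ∈ T, Lab.c (n j) - T.card)) := by
    funext n
    rw [h n]
  rw [h3]
  exact act_pow_mono hR (act_smul_poly hp _ h1)

lemma adT_pair {a b : ℕ} (hab : a < b) (n : G ι) (x : A) :
    adT e {a, b} n x = ad e (n a) (ad e (n b) x) := by
  have h1 : ({a, b} : Finset ℕ) = insert a (insert b ∅) := by simp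
  rw [h1, adT_insert e (T := insert b ∅) (by simpa using hab), adT_insert e (T := ∅) (by simp),
    adT_empty]

/-- The main computation: the second difference for a pair gives a shifted generator. -/
lemma pair (he : IsW C e) {a b : ℕ} (hab : a < b) (v : ι) (n : G ι) :
    act A (D a b ^ 2 : K C ι) (fun n => adT e {a, b} n (e v)) n =
      (-4 : C) • e (v + (n a + n b)) := by
  have h0 : ∀ x y : ι, ad e x (ad e y (e v)) =
      (((Lab.c v - Lab.c y : ℤ) : C) * ((Lab.c v + Lab.c y - 1 - Lab.c x : ℤ) : C)) •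
        ext e (Lab.c v + Lab.c y + Lab.c x - 2) := by
    intro x y
    by_cases h : y = v
    · subst h
      have : ad e y (e y) = 0 := by unfold ad; simp
      rw [this, ad_zero, sub_self, Int.cast_zero, zero_mul, zero_smul]
    · obtain ⟨j, hj⟩ := Lab.clos v y (Ne.symm h)
      rw [ad_e he, ad_smul, ← hj, ext_c, ad_e he, smul_smul, hj]
      congr 2
      ring
  rw [act_D2]
  simp only [adT_pair hab, h0, Pi.add_apply, dl_self, dl_ne hab.ne, dl_ne hab.ne', add_zero,
    map_add, Lab.c_one]
  have e1 : Lab.c v + Lab.c (n b) + (Lab.c (n a) + 1 + 1) - 2 = Lab.c (v + (n a + n b)) := by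
    rw [map_add, map_add]; ring
  have e2 : Lab.c v + (Lab.c (n b) + 1) + (Lab.c (n a) + 1) - 2 = Lab.c (v + (n a + n b)) := by
    rw [map_add, map_add]; ring
  have e3 : Lab.c v + (Lab.c (n b) + 1 + 1) + Lab.c (n a) - 2 = Lab.c (v + (n a + n b)) := by
    rw [map_add, map_add]; ring
  rw [e1, e2, e3, ext_c]
  push_cast
  match_scalars
  ring

/-- The commutator of two generators whose indices involve disjoint labels is killed. -/
lemma kill_comm (he : IsW C e) (S T : Finset ℕ) (hST : Disjoint S T) (v w : ι) {a b : ℕ}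
    (ha : a ∈ S) (hb : b ∈ T) {R : ℕ} (hR : 2 ≤ R) :
    act A (D a b ^ R : K C ι) (fun n : G ι => e (v + ∑ i ∈ S, n i) * e (w + ∑ i ∈ T, n i) -
      e (w + ∑ i ∈ T, n i) * e (v + ∑ i ∈ S, n i)) = 0 := by
  have h2 : (fun n : G ι => e (v + ∑ i ∈ S, n i) * e (w + ∑ i ∈ T, n i) -
      e (w + ∑ i ∈ T, n i) * e (v + ∑ i ∈ S, n i)) = fun n : G ι =>
      ((((Lab.c w : ℤ) : C) + ((∑ i ∈ T, Lab.c (n i) : ℤ) : C)) -
        (((Lab.c v : ℤ) : C) + ((∑ i ∈ S, Lab.c (n i) : ℤ) : C))) •
        ext e (Lab.c w + ∑ i ∈ S ∪ T, Lab.c (n i) + Lab.c v - 1) := by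
    funext n
    have h3 := ad_e he (v + ∑ i ∈ S, n i) (w + ∑ i ∈ T, n i)
    unfold ad at h3
    rw [h3, Finset.sum_union hST]
    simp only [map_add, map_sum]
    congr 1
    · push_cast; ring
    · congr 1; ring
  rw [h2]
  have h1 : act A (D a b : K C ι)
      (fun n : G ι => ext e (Lab.c w + ∑ i ∈ S ∪ T, Lab.c (n i) + Lab.c v - 1)) = 0 := by
    funext n
    rw [act_D, sum_dl (Finset.mem_union_left _ ha), sum_dl (Finset.mem_union_right _ hb), sub_self]
    rfl
  have h4 : PolyF 1 (fun n : G ι => ((((Lab.c w : ℤ) : C) + ((∑ i ∈ T, Lab.c (n i) : ℤ) : C)) -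
        (((Lab.c v : ℤ) : C) + ((∑ i ∈ S, Lab.c (n i) : ℤ) : C))) * 1) :=
    PolyF.mul (((aff_const _).add (aff_sum T)).sub ((aff_const _).add (aff_sum S))) (PolyF.const 1)
  simp only [mul_one] at h4
  exact act_pow_mono hR (act_smul_poly h4 _ h1)

end Pool.Agent.R693.W
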