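import Pool.Agent.R693.W.Eval

/-!
Partial derivatives on the group algebra of labels, and the ideal of all `g` such that
`g` applied to the product of generators has its values in a given ad-stable subspace.
-/

set_option autoImplicit false
set_option linter.unusedSectionVars false

namespace Pool.Agent.R693.W

variable {C : Type*} [CommRing C] {ι : Type} [AddCommMonoid ι] [Lab ι]

open Classical in
/-- The predecessor. -/
noncomputable def pred (j : ι) : ι := if h : ∃ i : ι, Lab.c i = Lab.c j - 1 then h.choose else 0

lemma c_pred {j : ι} (h : j ≠ 0) : Lab.c (pred j) = Lab.c j - 1 := by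
  have h1 : ∃ i : ι, Lab.c i = Lab.c j - 1 := by
    obtain ⟨i, hi⟩ := Lab.clos j 0 h
    exact ⟨i, by rw [hi, map_zero, add_zero]⟩
  unfold pred
  rw [dif_pos h1]
  exact h1.choose_spec

/-- Lowering the coordinate `i`. -/
noncomputable def low (i : ℕ) (k : G ι) : G ι := Function.update k i (pred (k i))

lemma low_add {i : ℕ} {k : G ι} (h : k i ≠ 0) (l : G ι) : low i (k + l) = low i k + l := by
  unfold low
  funext j
  by_cases hj : j = i
  · subst hj
    rw [Function.update_self]
    change pred (k j + l j) = Function.update k j (pred (k j)) j + l j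
    rw [Function.update_self]
    apply Lab.inj
    have h1 : ∃ i' : ι, Lab.c i' = Lab.c (k j + l j) - 1 :=
      ⟨pred (k j) + l j, by rw [map_add, map_add, c_pred h]; ring⟩
    have h2 : Lab.c (pred (k j + l j)) = Lab.c (k j + l j) - 1 := by
      conv_lhs => unfold pred
      rw [dif_pos h1]
      exact h1.choose_spec
    rw [h2, map_add, map_add, c_pred h]
    ring
  · rw [Function.update_of_ne hj, Pi.add_apply, Pi.add_apply, Function.update_of_ne hj]

variable (C ι) in
/-- The partial derivative. -/
noncomputable def pdL (i : ℕ) : K C ι →ₗ[C] K C ι where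
  toFun g := g.coeff.sum fun k r => AddMonoidAlgebra.single (low i k) (r * ((Lab.c (k i) : ℤ) : C))
  map_add' g h := by
    exact Finsupp.sum_add_index' (f := g.coeff) (g := h.coeff)
      (h := fun k r => AddMonoidAlgebra.single (low i k) (r * ((Lab.c (k i) : ℤ) : C)))
      (fun k => by rw [zero_mul, AddMonoidAlgebra.single_zero])
      (fun k r s => by rw [add_mul, AddMonoidAlgebra.single_add])
  map_smul' r g := by
    have h1 := Finsupp.sum_smul_index' (g := g.coeff) (b := r)
      (h := fun (k : G ι) (r : C) =>
        (AddMonoidAlgebra.single (low i k) (r * ((Lab.c (k i) : ℤ) : C)) : K C ι))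
      (fun k => by rw [zero_mul, AddMonoidAlgebra.single_zero])
    rw [AddMonoidAlgebra.coeff_smul, h1, RingHom.id_apply, Finsupp.smul_sum]
    unfold Finsupp.sum
    refine Finset.sum_congr rfl fun k _ => ?_
    beta_reduce
    rw [AddMonoidAlgebra.smul_single, smul_eq_mul, smul_eq_mul, mul_assoc]

lemma pdL_single (i : ℕ) (k : G ι) (r : C) : pdL C ι i (AddMonoidAlgebra.single k r) =
    AddMonoidAlgebra.single (low i k) (r * ((Lab.c (k i) : ℤ) : C)) := by
  change (Finsupp.single k r).sum (fun (k : G ι) (r : C) =>
    (AddMonoidAlgebra.single (low i k) (r * ((Lab.c (k i) : ℤ) : C)) : K C ι)) = _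
  rw [Finsupp.sum_single_index]
  rw [zero_mul, AddMonoidAlgebra.single_zero]

lemma pdL_mul (i : ℕ) (g h : K C ι) :
    pdL C ι i (g * h) = g * pdL C ι i h + h * pdL C ι i g := by
  induction g using AddMonoidAlgebra.induction_linear with
  | zero => simp
  | add p q hp hq => rw [add_mul, map_add, hp, hq, map_add]; ring
  | single k r =>
    induction h using AddMonoidAlgebra.induction_linear with
    | zero => simp
    | add p q hp hq => rw [mul_add, map_add, hp, hq, map_add]; ring
    | single l s =>
      rw [AddMonoidAlgebra.single_mul_single, pdL_single, pdL_single, pdL_single,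
        AddMonoidAlgebra.single_mul_single, AddMonoidAlgebra.single_mul_single]
      have h0 : (k + l) i = k i + l i := rfl
      rw [h0, map_add]
      by_cases h1 : k i = 0
      · by_cases h2 : l i = 0
        · simp [h1, h2]
        · have h3 : low i (k + l) = k + low i l := by
            rw [add_comm k l, low_add h2, add_comm]
          rw [h3, h1, map_zero]
          simp only [zero_add, Int.cast_zero, mul_zero, AddMonoidAlgebra.single_zero, add_zero]
          congr 1
          ring
      · by_cases h2 : l i = 0
        · rw [low_add h1, h2, map_zero]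
          simp only [add_zero, Int.cast_zero, mul_zero, AddMonoidAlgebra.single_zero, zero_add]
          rw [add_comm]
          congr 1
          ring
        · have h3 : low i (k + l) = k + low i l := by
            rw [add_comm k l, low_add h2, add_comm]
          have h4 : l + low i k = k + low i l := by
            rw [← h3, low_add h1, add_comm]
          rw [h4, h3, ← AddMonoidAlgebra.single_add]
          congr 1
          push_cast
          ring

variable (C ι) in
/-- The partial derivative as a derivation. -/
noncomputable def pd (i : ℕ) : Derivation C (K C ι) (K C ι) :=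
  Derivation.mk' (pdL C ι i) (fun g h => by rw [pdL_mul, smul_eq_mul, smul_eq_mul])

lemma pd_single (i : ℕ) (k : G ι) (r : C) : pd C ι i (AddMonoidAlgebra.single k r) =
    AddMonoidAlgebra.single (low i k) (r * ((Lab.c (k i) : ℤ) : C)) := pdL_single i k r

/-! ### The product of the generators -/

section om
variable {A : Type*} [Ring A] [Algebra C A]

/-- The product `y (d-1) * ... * y 0`. -/
def omy (y : ℕ → A) : ℕ → A
  | 0 => 1
  | d + 1 => y d * omy y d

/-- The product of the generators `e (n (d-1)) * ... * e (n 0)`. -/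
def om (e : ι → A) (d : ℕ) (n : G ι) : A := omy (fun i => e (n i)) d

lemma omy_congr {y y' : ℕ → A} {d : ℕ} (h : ∀ i < d, y i = y' i) : omy y d = omy y' d := by
  induction d with
  | zero => rfl
  | succ d ih =>
    rw [omy, omy, h d (Nat.lt_succ_self d), ih (fun i hi => h i (hi.trans (Nat.lt_succ_self d)))]

lemma omy_smul (y : ℕ → A) {d j : ℕ} (hj : j < d) (r : C) (z : A) :
    omy (Function.update y j (r • z)) d = r • omy (Function.update y j z) d := by
  induction d with
  | zero => exact absurd hj (Nat.not_lt_zero _)
  | succ d ih =>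
    rw [omy, omy]
    by_cases h : j = d
    · subst h
      rw [Function.update_self, Function.update_self, smul_mul_assoc]
      congr 2
      apply omy_congr
      intro i hi
      rw [Function.update_of_ne hi.ne, Function.update_of_ne hi.ne]
    · rw [Function.update_of_ne (Ne.symm h), Function.update_of_ne (Ne.symm h),
        ih (by omega), mul_smul_comm]

lemma ad_omy {κ : Type*} (e : κ → A) (m : κ) (y : ℕ → A) (d : ℕ) :
    ad e m (omy y d) = ∑ j ∈ Finset.range d, omy (Function.update y j (ad e m (y j))) d := by
  induction d with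
  | zero => simp [omy, ad_one]
  | succ d ih =>
    rw [omy, ad_mul, ih, Finset.sum_range_succ, Finset.mul_sum, add_comm]
    congr 1
    · refine Finset.sum_congr rfl fun j hj => ?_
      rw [omy, Function.update_of_ne (by have := Finset.mem_range.mp hj; omega)]
    · rw [omy, Function.update_self]
      congr 1
      apply omy_congr
      intro i hi
      rw [Function.update_of_ne hi.ne]

variable {e : ι → A}

/-- The product with the factor `j` replaced by the result of a commutator. -/
noncomputable def Wj (e : ι → A) (d : ℕ) (m j : ℕ) (n : G ι) : A :=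
  omy (Function.update (fun i => e (n i)) j (ext e (Lab.c (n j) + m - 1))) d

lemma c_nsmul_one (m : ℕ) : Lab.c (m • (Lab.one : ι)) = m := by
  rw [map_nsmul, Lab.c_one]; simp

lemma ad_om (he : IsW C e) (d m : ℕ) (n : G ι) :
    ad e (m • Lab.one) (om e d n) =
      ∑ j ∈ Finset.range d, ((Lab.c (n j) - m : ℤ) : C) • Wj e d m j n := by
  unfold om
  rw [ad_omy]
  refine Finset.sum_congr rfl fun j hj => ?_
  rw [ad_e he, c_nsmul_one, omy_smul _ (Finset.mem_range.mp hj)]
  rfl

lemma Wj_eq {d m j : ℕ} {n n' : G ι} (h1 : ∀ i, i ≠ j → n' i = n i)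
    (h2 : Lab.c (n' j) = Lab.c (n j) + m - 1) : om e d n' = Wj e d m j n := by
  unfold om Wj
  apply omy_congr
  intro i _
  by_cases hij : i = j
  · subst hij
    rw [Function.update_self, ← h2, ext_c]
  · rw [Function.update_of_ne hij, h1 i hij]

open Classical in
/-- The shifted label. -/
noncomputable def nj (m j : ℕ) (n : G ι) : G ι :=
  Function.update n j (if h : ∃ i : ι, Lab.c i = Lab.c (n j) + m - 1 then h.choose else 0)

lemma nj_spec {m j : ℕ} {n : G ι} (h : Lab.c (n j) ≠ m) :
    Lab.c (nj m j n j) = Lab.c (n j) + m - 1 := by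
  have h1 : ∃ i : ι, Lab.c i = Lab.c (n j) + m - 1 := by
    obtain ⟨i, hi⟩ := Lab.clos (n j) (m • Lab.one) (by
      intro h2
      apply h
      rw [h2, c_nsmul_one])
    exact ⟨i, by rw [hi, c_nsmul_one]⟩
  unfold nj
  rw [Function.update_self, dif_pos h1]
  exact h1.choose_spec

lemma nj_ne {m j : ℕ} {n : G ι} {i : ℕ} (h : i ≠ j) : nj m j n i = n i := by
  unfold nj
  rw [Function.update_of_ne h]

/-- The key formula. -/
lemma ad_act_om (he : IsW C e) (d m : ℕ) (g : K C ι) (n : G ι) :
    ad e (m • Lab.one) (act A g (om e d) n) =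
      act A (∑ j ∈ Finset.range d, X j ^ m * pd C ι j g) (om e d) n +
      ∑ j ∈ Finset.range d, ((Lab.c (n j) - m : ℤ) : C) •
        (if Lab.c (n j) = m then 0 else act A g (om e d) (nj m j n)) := by
  induction g using AddMonoidAlgebra.induction_linear with
  | zero => simp [ad_zero]
  | add p q hp hq =>
    have h1 : (∑ j ∈ Finset.range d, X j ^ m * pd C ι j (p + q)) =
        (∑ j ∈ Finset.range d, X j ^ m * pd C ι j p) +
          ∑ j ∈ Finset.range d, X j ^ m * pd C ι j q := by
      rw [← Finset.sum_add_distrib]
      refine Finset.sum_congr rfl fun j _ => ?_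
      rw [map_add, mul_add]
    have h2 : (∑ j ∈ Finset.range d, ((Lab.c (n j) - m : ℤ) : C) •
        (if Lab.c (n j) = m then 0 else act A (p + q) (om e d) (nj m j n))) =
        (∑ j ∈ Finset.range d, ((Lab.c (n j) - m : ℤ) : C) •
          (if Lab.c (n j) = m then 0 else act A p (om e d) (nj m j n))) +
        ∑ j ∈ Finset.range d, ((Lab.c (n j) - m : ℤ) : C) •
          (if Lab.c (n j) = m then 0 else act A q (om e d) (nj m j n)) := by
      rw [← Finset.sum_add_distrib]
      refine Finset.sum_congr rfl fun j _ => ?_
      rw [← smul_add]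
      congr 1
      split_ifs
      · rw [add_zero]
      · rw [map_add, LinearMap.add_apply, Pi.add_apply]
    rw [h1, h2, map_add, LinearMap.add_apply, Pi.add_apply, ad_add, hp, hq, map_add,
      LinearMap.add_apply, Pi.add_apply]
    abel
  | single k r =>
    rw [act_single, ad_smul, ad_om he, map_sum, LinearMap.sum_apply, Finset.sum_apply,
      ← Finset.sum_add_distrib, Finset.smul_sum]
    refine Finset.sum_congr rfl fun j _ => ?_
    have hX : ∀ m : ℕ, (X j : K C ι) ^ m = AddMonoidAlgebra.single (m • dl j) 1 := by
      intro m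
      unfold X
      rw [AddMonoidAlgebra.single_pow, one_pow]
    rw [hX, pd_single, AddMonoidAlgebra.single_mul_single, one_mul, act_single]
    have hk : (n + k) j = n j + k j := rfl
    have e1 : (r * ((Lab.c (k j) : ℤ) : C)) • om e d (n + (m • dl j + low j k)) =
        (r * ((Lab.c (k j) : ℤ) : C)) • Wj e d m j (n + k) := by
      by_cases h : k j = 0
      · rw [h, map_zero, Int.cast_zero, mul_zero, zero_smul, zero_smul]
      · congr 1
        apply Wj_eq
        · intro i hi
          simp only [Pi.add_apply, Pi.smul_apply, dl_ne (Ne.symm hi), smul_zero, zero_add]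
          unfold low
          rw [Function.update_of_ne hi]
        · simp only [Pi.add_apply, Pi.smul_apply, dl_self, map_add]
          unfold low
          rw [Function.update_self, c_nsmul_one, c_pred h]
          ring
    have e2 : ((Lab.c (n j) - m : ℤ) : C) •
        (if Lab.c (n j) = m then 0 else act A (AddMonoidAlgebra.single k r) (om e d) (nj m j n)) =
        (((Lab.c (n j) - m : ℤ) : C) * r) • Wj e d m j (n + k) := by
      split_ifs with h
      · rw [h, sub_self, Int.cast_zero, zero_mul, zero_smul, zero_smul]
      · rw [act_single, smul_smul]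
        congr 1
        apply Wj_eq
        · intro i hi
          rw [Pi.add_apply, Pi.add_apply, nj_ne hi]
        · rw [Pi.add_apply, Pi.add_apply, map_add, map_add, nj_spec h]
          ring
    rw [e1, e2, smul_smul, ← add_smul]
    congr 1
    rw [hk, map_add]
    push_cast
    ring

variable (e) in
/-- The ideal of all `g` such that `g` applied to the product has its values in `I`. -/
noncomputable def aI (d : ℕ) (I : Submodule C A) : Ideal (K C ι) where
  carrier := {g | ∀ n, act A g (om e d) n ∈ I}
  add_mem' := by
    intro g h hg hh n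
    rw [map_add, LinearMap.add_apply, Pi.add_apply]
    exact I.add_mem (hg n) (hh n)
  zero_mem' := by
    intro n
    rw [map_zero]
    exact I.zero_mem
  smul_mem' := by
    intro p g hg n
    rw [smul_eq_mul, act_mul]
    exact act_mem I p _ hg n

lemma mem_aI {d : ℕ} {I : Submodule C A} {g : K C ι} :
    g ∈ aI e d I ↔ ∀ n, act A g (om e d) n ∈ I := Iff.rfl

lemma aI_vm (he : IsW C e) {d : ℕ} {I : Submodule C A} (hI : ∀ m x, x ∈ I → ad e m x ∈ I)
    (m : ℕ) {g : K C ι} (hg : g ∈ aI e d I) :
    (∑ j ∈ Finset.range d, X j ^ m * pd C ι j g) ∈ aI e d I := by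
  intro n
  have h1 := ad_act_om he d m g n
  have h2 : act A (∑ j ∈ Finset.range d, X j ^ m * pd C ι j g) (om e d) n =
      ad e (m • Lab.one) (act A g (om e d) n) - ∑ j ∈ Finset.range d,
        ((Lab.c (n j) - m : ℤ) : C) •
        (if Lab.c (n j) = m then 0 else act A g (om e d) (nj m j n)) := by
    rw [h1, add_sub_cancel_right]
  rw [h2]
  refine I.sub_mem (hI _ _ (hg n)) (Submodule.sum_mem _ fun j _ => I.smul_mem _ ?_)
  split_ifs
  · exact I.zero_mem
  · exact hg _

lemma aI_vandermonde (he : IsW C e) {d : ℕ} {I : Submodule C A}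
    (hI : ∀ m x, x ∈ I → ad e m x ∈ I) {g : K C ι} (hg : g ∈ aI e d I) {i : ℕ} (hi : i < d) :
    (∏ j ∈ (Finset.range d).erase i, (X i - X j)) * pd C ι i g ∈ aI e d I := by
  set q : Polynomial (K C ι) := ∏ j ∈ (Finset.range d).erase i, (Polynomial.X - Polynomial.C (X j))
    with hq
  have h1 : ∑ m ∈ Finset.range (q.natDegree + 1),
      q.coeff m * (∑ j ∈ Finset.range d, X j ^ m * pd C ι j g) ∈ aI e d I :=
    Submodule.sum_mem _ fun m _ => Ideal.mul_mem_left _ _ (aI_vm he hI m hg)
  have h2 : ∑ m ∈ Finset.range (q.natDegree + 1),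
      q.coeff m * (∑ j ∈ Finset.range d, X j ^ m * pd C ι j g) =
      ∑ j ∈ Finset.range d, q.eval (X j) * pd C ι j g := by
    simp only [Finset.mul_sum]
    rw [Finset.sum_comm]
    refine Finset.sum_congr rfl fun j _ => ?_
    rw [Polynomial.eval_eq_sum_range, Finset.sum_mul]
    refine Finset.sum_congr rfl fun m _ => ?_
    ring
  rw [h2, Finset.sum_eq_single i] at h1
  · rw [hq, Polynomial.eval_prod] at h1
    simpa using h1
  · intro j hj hji
    have : q.eval (X j) = 0 := by
      rw [hq, Polynomial.eval_prod]
      apply Finset.prod_eq_zero (Finset.mem_erase.mpr ⟨hji, hj⟩)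
      simp
    rw [this, zero_mul]
  · intro h
    exact absurd (Finset.mem_range.mpr hi) h

/-- The pairs of different labels. -/
def offd (d : ℕ) : Finset (ℕ × ℕ) :=
  (Finset.range d ×ˢ Finset.range d).filter (fun p => p.1 ≠ p.2)

variable (C ι) in
/-- The discriminant. -/
noncomputable def Dl (d : ℕ) : K C ι := ∏ p ∈ offd d, (X p.1 - X p.2)

lemma dvd_Dl {d i : ℕ} (hi : i < d) :
    (∏ j ∈ (Finset.range d).erase i, ((X i : K C ι) - X j)) ∣ Dl C ι d := by
  have h1 : (∏ j ∈ (Finset.range d).erase i, ((X i : K C ι) - X j)) =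
      ∏ p ∈ ((Finset.range d).erase i).image (fun j => (i, j)), ((X p.1 : K C ι) - X p.2) := by
    rw [Finset.prod_image]
    intro a _ b _ hab
    exact (Prod.mk.inj hab).2
  rw [h1]
  unfold Dl
  apply Finset.prod_dvd_prod_of_subset
  intro p hp
  simp only [Finset.mem_image, Finset.mem_erase, Finset.mem_range] at hp
  obtain ⟨j, ⟨hj1, hj2⟩, rfl⟩ := hp
  unfold offd
  simp only [Finset.mem_filter, Finset.mem_product, Finset.mem_range]
  exact ⟨⟨hi, hj2⟩, Ne.symm hj1⟩

lemma aI_Dl (he : IsW C e) {d : ℕ} {I : Submodule C A}
    (hI : ∀ m x, x ∈ I → ad e m x ∈ I) {g : K C ι} (hg : g ∈ aI e d I) {i : ℕ} (hi : i < d) :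
    Dl C ι d * pd C ι i g ∈ aI e d I := by
  obtain ⟨q, hq⟩ := dvd_Dl (C := C) (ι := ι) hi
  rw [hq, mul_comm _ q, mul_assoc]
  exact Ideal.mul_mem_left _ _ (aI_vandermonde he hI hg hi)

lemma aI_step (he : IsW C e) {d : ℕ} {I : Submodule C A}
    (hI : ∀ m x, x ∈ I → ad e m x ∈ I) {p : K C ι} {N : ℕ} (hp : Dl C ι d ^ N * p ∈ aI e d I)
    {i : ℕ} (hi : i < d) : Dl C ι d ^ (N + 1) * pd C ι i p ∈ aI e d I := by
  have h1 := aI_Dl he hI hp hi
  rw [Derivation.leibniz, smul_eq_mul, smul_eq_mul] at h1
  cases N with
  | zero =>
    rw [pow_zero, Derivation.map_one_eq_zero, mul_zero, add_zero, one_mul] at h1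
    simpa using h1
  | succ N =>
    rw [Derivation.leibniz_pow] at h1
    have h2 : Dl C ι d ^ (N + 1 + 1) * pd C ι i p =
        Dl C ι d * (Dl C ι d ^ (N + 1) * (pd C ι i) p +
          p * (N + 1) • Dl C ι d ^ (N + 1 - 1) • (pd C ι i) (Dl C ι d)) -
        ((N + 1) • (pd C ι i) (Dl C ι d)) * (Dl C ι d ^ (N + 1) * p) := by
      rw [Nat.add_sub_cancel, smul_eq_mul, nsmul_eq_mul, nsmul_eq_mul]
      ring
    rw [h2]
    exact Ideal.sub_mem _ h1 (Ideal.mul_mem_left _ _ hp)

end om

/-! ### Removing the polynomial -/

section field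
variable {F : Type*} [Field F] [CharZero F] {A : Type*} [Ring A] [Algebra F A] {e : ι → A}

lemma coeff_pd (i : ℕ) (p : K F ι) {k : G ι} (hk : k i ≠ 0) :
    (pd F ι i p).coeff (low i k) = p.coeff k * ((Lab.c (k i) : ℤ) : F) := by
  classical
  have h0 : pd F ι i p = p.coeff.sum fun k r =>
    AddMonoidAlgebra.single (low i k) (r * ((Lab.c (k i) : ℤ) : F)) := rfl
  rw [h0, AddMonoidAlgebra.coeff_finsuppSum, Finsupp.sum, Finsupp.finsetSum_apply,
    Finset.sum_eq_single k]
  · rw [AddMonoidAlgebra.coeff_single, Finsupp.single_eq_same]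
  · intro l _ hlk
    rw [AddMonoidAlgebra.coeff_single]
    by_cases hl : l i = 0
    · rw [hl, map_zero, Int.cast_zero, mul_zero, Finsupp.single_zero]; rfl
    · rw [Finsupp.single_eq_of_ne]
      intro h
      apply hlk
      funext j
      by_cases hj : j = i
      · subst hj
        have h1 := congrFun h j
        unfold low at h1
        rw [Function.update_self, Function.update_self] at h1
        have h2 := congrArg Lab.c h1
        rw [c_pred hk, c_pred hl] at h2
        apply Lab.inj
        linarith
      · have h1 := congrFun h j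
        unfold low at h1
        rw [Function.update_of_ne hj, Function.update_of_ne hj] at h1
        exact h1.symm
  · intro h
    rw [Finsupp.notMem_support_iff.mp h, zero_mul, AddMonoidAlgebra.single_zero]; rfl

lemma supp_pd (i : ℕ) (p : K F ι) {k' : G ι} (h : (pd F ι i p).coeff k' ≠ 0) :
    ∃ k, p.coeff k ≠ 0 ∧ k i ≠ 0 ∧ k' = low i k := by
  classical
  have h0 : pd F ι i p = p.coeff.sum fun k r =>
    AddMonoidAlgebra.single (low i k) (r * ((Lab.c (k i) : ℤ) : F)) := rfl
  rw [h0, AddMonoidAlgebra.coeff_finsuppSum, Finsupp.sum, Finsupp.finsetSum_apply] at h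
  obtain ⟨k, hk, hne⟩ := Finset.exists_ne_zero_of_sum_ne_zero h
  refine ⟨k, Finsupp.mem_support_iff.mp hk, ?_, ?_⟩
  · intro h1
    apply hne
    rw [h1, map_zero, Int.cast_zero, mul_zero, AddMonoidAlgebra.single_zero]; rfl
  · by_contra h1
    apply hne
    rw [AddMonoidAlgebra.coeff_single, Finsupp.single_eq_of_ne h1]

/-- Polynomials in the first `d` labels of degree at most `B`. -/
def Good (d B : ℕ) (p : K F ι) : Prop := ∀ k, p.coeff k ≠ 0 →
  (∀ i, 0 ≤ Lab.c (k i)) ∧ (∀ i, d ≤ i → k i = 0) ∧ ∑ i ∈ Finset.range d, Lab.c (k i) ≤ B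

lemma remove (he : IsW F e) {d : ℕ} {I : Submodule F A}
    (hI : ∀ m x, x ∈ I → ad e m x ∈ I) (B : ℕ) : ∀ (p : K F ι) (N : ℕ), p ≠ 0 → Good d B p →
      Dl F ι d ^ N * p ∈ aI e d I → ∃ N', Dl F ι d ^ N' ∈ aI e d I := by
  induction B with
  | zero =>
    intro p N hp0 hp hmem
    have h1 : ∀ k, p.coeff k ≠ 0 → k = 0 := by
      intro k hk
      obtain ⟨h2, h3, h4⟩ := hp k hk
      funext i
      by_cases hi : d ≤ i
      · exact h3 i hi
      · have h5 : Lab.c (k i) ≤ 0 := by
          refine le_trans ?_ (le_trans h4 (by simp))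
          exact Finset.single_le_sum (f := fun i => Lab.c (k i)) (fun j _ => h2 j)
            (Finset.mem_range.mpr (by omega))
        apply Lab.inj
        rw [Pi.zero_apply, map_zero]
        exact le_antisymm h5 (h2 i)
    have h2 : p = AddMonoidAlgebra.single 0 (p.coeff 0) := by
      ext k
      by_cases hk : k = 0
      · subst hk; simp
      · have h3 : p.coeff k = 0 := by
          by_contra h; exact hk (h1 k h)
        rw [h3]
        simp [Ne.symm hk]
    have h3 : p.coeff 0 ≠ 0 := by
      intro h
      apply hp0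
      rw [h2, h, AddMonoidAlgebra.single_zero]
    refine ⟨N, ?_⟩
    have h4 := Ideal.mul_mem_left (aI e d I) (AddMonoidAlgebra.single 0 (p.coeff 0)⁻¹) hmem
    rw [h2, mul_left_comm, AddMonoidAlgebra.single_mul_single] at h4
    simpa [h3, ← AddMonoidAlgebra.one_def] using h4
  | succ B ih =>
    intro p N hp0 hp hmem
    by_cases h : ∃ k, p.coeff k ≠ 0 ∧ ∃ i < d, k i ≠ 0
    · obtain ⟨k, hk, i, hi, hki⟩ := h
      apply ih (pd F ι i p) (N + 1)
      · intro h0
        have h1 := coeff_pd i p hki
        rw [h0, AddMonoidAlgebra.coeff_zero, Finsupp.zero_apply] at h1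
        rcases mul_eq_zero.mp h1.symm with h2 | h2
        · exact hk h2
        · apply hki
          apply Lab.inj
          rw [map_zero]
          exact_mod_cast h2
      · intro k' hk'
        obtain ⟨l, hl1, hl2, rfl⟩ := supp_pd i p hk'
        obtain ⟨h2, h3, h4⟩ := hp l hl1
        refine ⟨?_, ?_, ?_⟩
        · intro j
          unfold low
          by_cases hj : j = i
          · subst hj
            rw [Function.update_self, c_pred hl2]
            have h5 := h2 j
            have h6 : Lab.c (l j) ≠ 0 := by
              intro h7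
              apply hl2
              apply Lab.inj
              rw [h7, map_zero]
            omega
          · rw [Function.update_of_ne hj]; exact h2 j
        · intro j hj
          unfold low
          rw [Function.update_of_ne (by omega)]
          exact h3 j hj
        · have h5 : ∑ j ∈ Finset.range d, Lab.c (low i l j) =
              ∑ j ∈ Finset.range d, Lab.c (l j) - 1 := by
            rw [← Finset.add_sum_erase _ _ (Finset.mem_range.mpr hi),
              ← Finset.add_sum_erase (Finset.range d) (fun j => Lab.c (l j))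
                (Finset.mem_range.mpr hi)]
            have h6 : ∑ j ∈ (Finset.range d).erase i, Lab.c (low i l j) =
                ∑ j ∈ (Finset.range d).erase i, Lab.c (l j) := by
              refine Finset.sum_congr rfl fun j hj => ?_
              unfold low
              rw [Function.update_of_ne (Finset.ne_of_mem_erase hj)]
            rw [h6]
            unfold low
            rw [Function.update_self, c_pred hl2]
            ring
          rw [h5]
          push_cast at h4
          linarith
      · exact aI_step he hI hmem hi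
    · push Not at h
      apply ih p N hp0 _ hmem
      intro k hk
      obtain ⟨h2, h3, h4⟩ := hp k hk
      refine ⟨h2, h3, ?_⟩
      rw [Finset.sum_eq_zero]
      · positivity
      · intro i hi
        rw [h k hk i (Finset.mem_range.mp hi), map_zero]

end field

end Pool.Agent.R693.W
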