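import Pool.Agent.R693.W.Deriv

/-!
Every nonzero ad-stable subspace of an algebra generated by elements satisfying the Witt relations
contains all values of a power of the discriminant applied to a product of generators.
-/

set_option autoImplicit false
set_option linter.unusedSectionVars false

namespace Pool.Agent.R693.W

variable {F : Type*} [Field F] [CharZero F] {ι : Type} [AddCommMonoid ι] [Lab ι]
variable {A : Type*} [Ring A] [Algebra F A] {e : ι → A}

variable (F) (e) in
/-- The span of the words of length less than `k`. -/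
def Fl (k : ℕ) : Submodule F A := Submodule.span F {x | ∃ w : List ι, w.length < k ∧ x = wd e w}

lemma wd_mem {w : List ι} {k : ℕ} (h : w.length < k) : wd e w ∈ Fl F e k :=
  Submodule.subset_span ⟨w, h, rfl⟩

lemma Fl_mono {k m : ℕ} (h : k ≤ m) : Fl F e k ≤ Fl F e m :=
  Submodule.span_mono (fun _ ⟨w, hw, hx⟩ => ⟨w, hw.trans_le h, hx⟩)

lemma e_mul_mem (v : ι) {k : ℕ} {x : A} (hx : x ∈ Fl F e k) : e v * x ∈ Fl F e (k + 1) := by
  unfold Fl at hx
  induction hx using Submodule.span_induction with
  | mem y hy =>
    obtain ⟨w, hw, rfl⟩ := hy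
    rw [← wd_cons]
    exact wd_mem (by simpa using hw)
  | zero => rw [mul_zero]; exact Submodule.zero_mem _
  | add y z _ _ hy hz => rw [mul_add]; exact Submodule.add_mem _ hy hz
  | smul a y _ hy => rw [mul_smul_comm]; exact Submodule.smul_mem _ _ hy

lemma perm_mem (he : IsW F e) {w w' : List ι} (h : w.Perm w') :
    wd e w - wd e w' ∈ Fl F e w.length := by
  induction h with
  | nil => simp
  | cons v h ih =>
    rw [wd_cons, wd_cons, ← mul_sub]
    exact e_mul_mem v ih
  | swap x y l =>
    have h1 : wd e (y :: x :: l) - wd e (x :: y :: l) =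
        ((Lab.c x - Lab.c y : ℤ) : F) • (ext e (Lab.c x + Lab.c y - 1) * wd e l) := by
      rw [← smul_mul_assoc, ← ad_e he]
      simp only [wd_cons]
      unfold ad
      noncomm_ring
    rw [h1]
    refine Submodule.smul_mem _ _ ?_
    by_cases h2 : ∃ i : ι, Lab.c i = Lab.c x + Lab.c y - 1
    · obtain ⟨i, hi⟩ := h2
      rw [← hi, ext_c, ← wd_cons]
      exact wd_mem (by simp)
    · rw [ext_not e h2, zero_mul]
      exact Submodule.zero_mem _
  | trans h1 h2 ih1 ih2 =>
    have := Submodule.add_mem _ ih1 (by rw [h1.length_eq]; exact ih2)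
    rwa [sub_add_sub_cancel] at this

/-- Canonical words. -/
def Can (w : List ι) : Prop := (w : Multiset ι).toList = w

lemma Can.inj {w w' : List ι} (h : Can w) (h' : Can w') (hww : (w : Multiset ι) = w') :
    w = w' := by
  rw [← h, ← h', hww]

lemma Fl_succ (he : IsW F e) (d : ℕ) :
    Fl F e (d + 1) ≤ Submodule.span F (wd e '' {w | w.length = d ∧ Can w}) ⊔ Fl F e d := by
  conv_lhs => unfold Fl
  rw [Submodule.span_le]
  rintro x ⟨w, hw, rfl⟩
  rcases Nat.lt_or_ge w.length d with h | h
  · exact Submodule.mem_sup_right (wd_mem h)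
  · have hwd : w.length = d := by omega
    set w' := (w : Multiset ι).toList with hw'
    have h1 : (w' : Multiset ι) = w := Multiset.coe_toList _
    have h2 : w'.Perm w := Multiset.coe_eq_coe.mp h1
    have h3 := perm_mem he h2
    have h4 : wd e w = wd e w' - (wd e w' - wd e w) := by abel
    rw [h4]
    apply Submodule.sub_mem
    · apply Submodule.mem_sup_left
      refine Submodule.subset_span ⟨w', ⟨?_, ?_⟩, rfl⟩
      · rw [h2.length_eq, hwd]
      · unfold Can
        rw [h1]
    · apply Submodule.mem_sup_right
      rw [h2.length_eq, hwd] at h3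
      exact h3

/-! ### From `2 d` to `d` labels -/

/-- The sums of partners. -/
def theta : G ι →+ G ι where
  toFun n := fun i => n (2 * i) + n (2 * i + 1)
  map_zero' := by funext i; simp
  map_add' m n := by
    funext i
    simp only [Pi.add_apply]
    abel

variable (F ι) in
/-- The induced homomorphism. -/
noncomputable def thM : K F ι →+* K F ι := AddMonoidAlgebra.mapDomainRingHom F theta

lemma thM_single (k : G ι) (r : F) :
    thM F ι (AddMonoidAlgebra.single k r) = AddMonoidAlgebra.single (theta k) r := by
  unfold thM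
  simp

lemma act_theta (q : K F ι) (f : G ι → A) (n : G ι) :
    act A q (fun n => f (theta n)) n = act A (thM F ι q) f (theta n) := by
  induction q using AddMonoidAlgebra.induction_linear with
  | zero => simp
  | add p q hp hq => simp only [map_add, LinearMap.add_apply, Pi.add_apply, hp, hq]
  | single k r => rw [thM_single, act_single, act_single, map_add]

lemma theta_dl (a : ℕ) : theta (dl a : G ι) = dl (a / 2) := by
  funext j
  change (dl a : G ι) (2 * j) + (dl a : G ι) (2 * j + 1) = _
  rw [dl_apply, dl_apply, dl_apply]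
  by_cases h : j = a / 2
  · rw [if_pos h]
    rcases Nat.even_or_odd' a with ⟨b, hb | hb⟩
    · rw [if_pos (by omega), if_neg (by omega), add_zero]
    · rw [if_neg (by omega), if_pos (by omega), zero_add]
  · rw [if_neg h, if_neg (by omega), if_neg (by omega), add_zero]

lemma thM_X (a : ℕ) : thM F ι (X a) = X (a / 2) := by
  unfold X
  rw [thM_single, theta_dl]

lemma sub_dvd_Dl {d i j : ℕ} (hi : i < d) (hj : j < d) (hij : i ≠ j) :
    ((X i : K F ι) - X j) ∣ Dl F ι d := by
  refine dvd_trans ?_ (dvd_Dl (C := F) (ι := ι) hi)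
  exact Finset.dvd_prod_of_mem (fun j => (X i : K F ι) - X j)
    (Finset.mem_erase.mpr ⟨Ne.symm hij, Finset.mem_range.mpr hj⟩)

lemma thM_Q (d : ℕ) : ∃ N, thM F ι (Q F ι d) ∣ Dl F ι d ^ N := by
  refine ⟨(2 * d + 2) * (cross d).card, ?_⟩
  have h1 : thM F ι (Q F ι d) = ∏ p ∈ cross d, thM F ι (D p.1 p.2 ^ (2 * d + 2)) := by
    unfold Q
    exact map_prod (thM F ι) _ _
  have h2 : Dl F ι d ^ ((2 * d + 2) * (cross d).card) =
      ∏ _p ∈ cross d, Dl F ι d ^ (2 * d + 2) := by
    rw [Finset.prod_const, pow_mul]
  rw [h1, h2]
  refine Finset.prod_dvd_prod_of_dvd _ _ fun p hp => ?_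
  rw [map_pow]
  refine pow_dvd_pow_of_dvd ?_ _
  unfold D
  rw [map_sub, thM_X, thM_X]
  unfold cross at hp
  simp only [Finset.mem_filter, Finset.mem_product, Finset.mem_range] at hp
  exact sub_dvd_Dl (by omega) (by omega) hp.2

variable (F) in
/-- The polynomial of all assignments, in the sums of partners. -/
noncomputable def PlV : Finset ℕ → List ι → K F ι
  | _, [] => 1
  | J, v :: w => ∑ i ∈ J, AddMonoidAlgebra.single (Pi.single i v) (-4 : F) *
      PlV (J.erase i) w

lemma thM_Pl (w : List ι) : ∀ J : Finset ℕ, thM F ι (Pl F J w) = PlV F J w := by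
  induction w with
  | nil => intro J; simp [Pl, PlV]
  | cons v w ih =>
    intro J
    rw [Pl, PlV, map_sum]
    refine Finset.sum_congr rfl fun i _ => ?_
    rw [map_mul, thM_single, ih]
    congr 2
    funext j
    change (Pi.single (2 * i) v : G ι) (2 * j) + (Pi.single (2 * i) v : G ι) (2 * j + 1) = _
    rw [Pi.single_apply, Pi.single_apply, Pi.single_apply]
    by_cases h : j = i
    · rw [if_pos h, if_pos (by omega), if_neg (by omega), add_zero]
    · rw [if_neg h, if_neg (by omega), if_neg (by omega), add_zero]

open Classical in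
/-- The delta function. -/
noncomputable def chi (F : Type*) [Field F] (f0 : G ι) : G ι → F := fun n => if n = f0 then 1 else 0

lemma PlV_val (f0 : G ι) (w : List ι) : ∀ (J : Finset ℕ) (m : G ι), w.length = J.card →
    (∀ i ∈ J, m i = 0) → ∃ k : ℕ, act F (PlV F J w) (chi F f0) m = (-4) ^ w.length * k ∧
      (k ≠ 0 ↔ ((w : Multiset ι) = J.val.map f0 ∧ ∀ i, i ∉ J → m i = f0 i)) := by
  classical
  induction w with
  | nil =>
    intro J m hJ hm
    have : J = ∅ := Finset.card_eq_zero.mp hJ.symm
    subst this
    refine ⟨if m = f0 then 1 else 0, ?_, ?_⟩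
    · rw [PlV, act_one]
      unfold chi
      split_ifs <;> simp
    · simp only [Finset.notMem_empty, not_false_eq_true, forall_const, Finset.empty_val,
        Multiset.map_zero, Multiset.coe_nil, true_and]
      constructor
      · intro h i
        have : m = f0 := by
          by_contra h'
          rw [if_neg h'] at h
          exact h rfl
        rw [this]
      · intro h
        rw [if_pos (funext h)]
        exact one_ne_zero
  | cons v w ih =>
    intro J m hJ hm
    have h1 : ∀ i ∈ J, w.length = (J.erase i).card := by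
      intro i hi
      rw [Finset.card_erase_of_mem hi, ← hJ, List.length_cons]; rfl
    have h0 : ∀ i ∈ J, ∀ j ∈ J.erase i, (m + Pi.single i v : G ι) j = 0 := by
      intro i _ j hj
      rw [Pi.add_apply, Pi.single_eq_of_ne (Finset.ne_of_mem_erase hj), add_zero,
        hm j (Finset.mem_of_mem_erase hj)]
    choose! k hk using fun i (hi : i ∈ J) => ih (J.erase i) (m + Pi.single i v) (h1 i hi) (h0 i hi)
    refine ⟨∑ i ∈ J, k i, ?_, ?_⟩
    · rw [PlV, List.length_cons, pow_succ, map_sum, LinearMap.sum_apply, Finset.sum_apply]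
      push_cast
      rw [Finset.mul_sum]
      refine Finset.sum_congr rfl fun i hi => ?_
      rw [act_mul, act_single, (hk i hi).1, smul_eq_mul]
      ring
    · have h2 : ∀ i ∈ J, J.val.map f0 = f0 i ::ₘ (J.erase i).val.map f0 := by
        intro i hi
        rw [Finset.erase_val, ← Multiset.map_cons, Multiset.cons_erase hi]
      have h4 : (∑ i ∈ J, k i) ≠ 0 ↔ ∃ i ∈ J, k i ≠ 0 := by
        rw [Ne, Finset.sum_eq_zero_iff]
        push Not
        rfl
      rw [h4]
      constructor
      · rintro ⟨i, hi, hne⟩
        obtain ⟨h5, h6⟩ := (hk i hi).2.mp hne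
        have hv : v = f0 i := by
          have := h6 i (Finset.notMem_erase i J)
          rw [Pi.add_apply, Pi.single_eq_same, hm i hi, zero_add] at this
          exact this
        refine ⟨?_, ?_⟩
        · rw [h2 i hi, ← h5, hv]
          rfl
        · intro j hj
          have hji : j ≠ i := by rintro rfl; exact hj hi
          have := h6 j (fun h => hj (Finset.mem_of_mem_erase h))
          rwa [Pi.add_apply, Pi.single_eq_of_ne hji, add_zero] at this
      · rintro ⟨h, h'⟩
        have h3 : v ∈ J.val.map f0 := by
          rw [← h]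
          exact List.mem_cons_self
        rw [Multiset.mem_map] at h3
        obtain ⟨i, hi, hv⟩ := h3
        refine ⟨i, hi, (hk i hi).2.mpr ⟨?_, ?_⟩⟩
        · rw [h2 i hi, hv, ← Multiset.cons_coe] at h
          exact (Multiset.cons_inj_right v).mp h
        · intro j hj
          by_cases hji : j = i
          · subst hji
            rw [Pi.add_apply, Pi.single_eq_same, hm j hi, zero_add, hv]
          · rw [Pi.add_apply, Pi.single_eq_of_ne hji, add_zero]
            exact h' j (fun hjJ => hj (Finset.mem_erase.mpr ⟨hji, hjJ⟩))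

lemma chi_shift (f0 k0 : G ι) (p : K F ι) (m : G ι) :
    act F p (chi F (f0 + k0)) (m + k0) = act F p (chi F f0) m := by
  classical
  induction p using AddMonoidAlgebra.induction_linear with
  | zero => simp
  | add p q hp hq => simp only [map_add, LinearMap.add_apply, Pi.add_apply, hp, hq]
  | single k r =>
    rw [act_single, act_single]
    congr 1
    unfold chi
    have h : m + k0 + k = f0 + k0 ↔ m + k = f0 := by
      constructor
      · intro h
        funext i
        have h1 := congrArg Lab.c (congrFun h i)
        apply Lab.inj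
        simp only [Pi.add_apply, map_add] at h1 ⊢
        linarith
      · intro h
        rw [← h]
        abel
    simp only [h]

lemma supp_single_mul (a : G ι) (r : F) (p : K F ι) {k' : G ι}
    (h : (AddMonoidAlgebra.single a r * p).coeff k' ≠ 0) :
    ∃ k, p.coeff k ≠ 0 ∧ k' = a + k := by
  classical
  have h0 : AddMonoidAlgebra.single a r * p =
      ∑ k ∈ p.coeff.support, AddMonoidAlgebra.single (a + k) (r * p.coeff k) := by
    conv_lhs => rw [← AddMonoidAlgebra.sum_coeff_single p]
    rw [Finsupp.sum, Finset.mul_sum]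
    refine Finset.sum_congr rfl fun k _ => ?_
    rw [AddMonoidAlgebra.single_mul_single]
  rw [h0, AddMonoidAlgebra.coeff_sum, Finsupp.finsetSum_apply] at h
  obtain ⟨k, hk, hne⟩ := Finset.exists_ne_zero_of_sum_ne_zero h
  refine ⟨k, Finsupp.mem_support_iff.mp hk, ?_⟩
  by_contra h1
  apply hne
  rw [AddMonoidAlgebra.coeff_single, Finsupp.single_eq_of_ne h1]

lemma supp_PlV (w : List ι) : ∀ (J : Finset ℕ) (k : G ι), (PlV F J w).coeff k ≠ 0 →
    ∀ i, i ∉ J → k i = 0 := by
  classical
  induction w with
  | nil =>
    intro J k hk i _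
    rw [PlV, AddMonoidAlgebra.one_def, AddMonoidAlgebra.coeff_single] at hk
    by_cases h : k = 0
    · rw [h]; rfl
    · rw [Finsupp.single_eq_of_ne h] at hk
      exact absurd rfl hk
  | cons v w ih =>
    intro J k hk i hi
    rw [PlV, AddMonoidAlgebra.coeff_sum, Finsupp.finsetSum_apply] at hk
    obtain ⟨j, hj, hne⟩ := Finset.exists_ne_zero_of_sum_ne_zero hk
    obtain ⟨k1, hk1, rfl⟩ := supp_single_mul _ _ _ hne
    have hij : i ≠ j := by rintro rfl; exact hi hj
    rw [Pi.add_apply, Pi.single_eq_of_ne hij, zero_add]
    exact ih (J.erase j) k1 hk1 i (fun h => hi (Finset.mem_of_mem_erase h))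

lemma prodL_om (d : ℕ) (n : G ι) : prodL e ((List.range d).reverse) n = om e d (theta n) := by
  induction d with
  | zero => simp [om, omy]
  | succ d ih =>
    rw [List.range_succ, List.reverse_append, List.reverse_cons, List.reverse_nil, List.nil_append,
      List.singleton_append, prodL_cons, ih]
    rfl

/-- The reduction theorem. -/
theorem exists_Van (he : IsW F e) (I : Submodule F A)
    (hI : ∀ m x, x ∈ I → ad e m x ∈ I) {x : A} (hx : x ∈ I) (hx0 : x ≠ 0) {k : ℕ}
    (hk : x ∈ Fl F e k) : ∃ d N, Dl F ι d ^ N ∈ aI e d I := by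
  classical
  have hex : ∃ k : ℕ, ∃ x ∈ I, x ≠ 0 ∧ x ∈ Fl F e k := ⟨k, x, hx, hx0, hk⟩
  clear hx hx0 hk
  obtain ⟨y, hy, hy0, hyk⟩ := Nat.find_spec hex
  have hmin : ∀ m < Nat.find hex, ∀ z ∈ I, z ∈ Fl F e m → z = 0 := by
    intro m hm z hz hzm
    by_contra h
    exact Nat.find_min hex hm ⟨z, hz, h, hzm⟩
  obtain ⟨d, hd⟩ : ∃ d, Nat.find hex = d + 1 := by
    rcases Nat.eq_zero_or_pos (Nat.find hex) with h | h
    · exfalso
      rw [h] at hyk
      unfold Fl at hyk
      have : {x : A | ∃ w : List ι, w.length < 0 ∧ x = wd e w} = ∅ := by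
        ext z; simp
      rw [this, Submodule.span_empty] at hyk
      exact hy0 ((Submodule.mem_bot F).mp hyk)
    · exact ⟨Nat.find hex - 1, by omega⟩
  rw [hd] at hyk hmin
  have h1 := Fl_succ he d hyk
  rw [Submodule.mem_sup] at h1
  obtain ⟨s, hs, t, ht, hst⟩ := h1
  rw [Finsupp.mem_span_image_iff_linearCombination] at hs
  obtain ⟨l, hl, hls⟩ := hs
  rw [Finsupp.mem_supported] at hl
  have hl0 : l ≠ 0 := by
    rintro rfl
    rw [map_zero] at hls
    rw [← hls, zero_add] at hst
    exact hy0 (hmin d (Nat.lt_succ_self d) y hy (hst ▸ ht))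
  -- the operator
  set T := TJ (Finset.range d) with hT
  have hTsub : T ⊆ Finset.range (2 * d) := by
    intro a ha
    have := Finset.mem_range.mp (mem_TJ.mp ha)
    rw [Finset.mem_range]
    omega
  have hTcard : d ≤ (T.image (· / 2)).card := by
    have : Finset.range d ⊆ T.image (· / 2) := by
      intro i hi
      rw [Finset.mem_image]
      refine ⟨2 * i, ?_, by omega⟩
      rw [hT, mem_TJ]
      have : 2 * i / 2 = i := by omega
      rwa [this]
    simpa using Finset.card_le_card this
  have hone : ∀ a ∈ T, Ind (fun _ : G ι => (1 : A)) a := fun _ _ _ _ _ => rfl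
  have hlow : ∀ t ∈ Fl F e d, act A (PJ F ι d (Finset.range d)) (fun n => adT e T n t) = 0 := by
    intro t ht
    unfold Fl at ht
    induction ht using Submodule.span_induction with
    | mem z hz =>
      obtain ⟨w, hw, rfl⟩ := hz
      have h2 := vanish he w T hTsub (hw.trans_le hTcard) (fun _ => 1) hone
      simp only [one_mul] at h2
      unfold PJ
      rw [mul_comm, act_mul, h2, map_zero]
    | zero =>
      have : (fun n => adT e T n 0) = (0 : G ι → A) := by
        funext n
        have := adT_smul e T n (0 : F) 0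
        rw [zero_smul, zero_smul] at this
        exact this
      rw [this, map_zero]
    | add z z' _ _ hz hz' =>
      have : (fun n => adT e T n (z + z')) = (fun n => adT e T n z) + fun n => adT e T n z' := by
        funext n
        exact adT_add e T n z z'
      rw [this, map_add, hz, hz', add_zero]
    | smul r z _ hz =>
      have : (fun n => adT e T n (r • z)) = r • (fun n => adT e T n z) := by
        funext n
        exact adT_smul e T n r z
      rw [this, map_smul, hz, smul_zero]
  have hperm : ((Finset.range d).sort (· ≤ ·)).Perm (List.range d).reverse := by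
    rw [List.perm_ext_iff_of_nodup (Finset.sort_nodup _ _)
      (List.nodup_reverse.mpr List.nodup_range)]
    intro a
    simp
  have htop : ∀ w : List ι, w.length = d →
      act A (PJ F ι d (Finset.range d)) (fun n => adT e T n (wd e w)) =
        act A (Q F ι d * Pl F (Finset.range d) w) (prodL e (List.range d).reverse) := by
    intro w hw
    have h2 := evaluate he w (Finset.range d) (Finset.Subset.refl _)
      (by rw [Finset.card_range, hw]) (fun _ => 1) hone
    have h3 := GG_eq he w (Finset.range d) (Finset.Subset.refl _)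
      (by rw [Finset.card_range, hw]) (fun _ => 1) hone
    simp only [one_mul] at h2 h3
    rw [h2, h3]
    have h4 := reorder he (d := d) hperm (Finset.sort_nodup _ _)
      (fun i hi => by simpa using hi) (fun _ => 1) (fun _ _ _ _ _ => rfl)
    simp only [one_mul] at h4
    change act A (Q F ι d) (act A (Pl F (Finset.range d) w)
      (prodL e ((Finset.range d).sort (· ≤ ·)))) = _
    rw [act_comm, act_mul, act_comm (Q F ι d)]
    congr 1
  set P0 : K F ι := ∑ w ∈ l.support, l w • Pl F (Finset.range d) w with hP0
  have hval : act A (PJ F ι d (Finset.range d)) (fun n => adT e T n y) =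
      act A (Q F ι d * P0) (prodL e (List.range d).reverse) := by
    have h2 : (fun n => adT e T n y) = (∑ w ∈ l.support, l w • fun n => adT e T n (wd e w)) +
        fun n => adT e T n t := by
      funext n
      rw [← hst, adT_add, Pi.add_apply, ← hls, Finsupp.linearCombination_apply, Finsupp.sum,
        Finset.sum_apply]
      congr 1
      have h3 : ∀ S : Finset (List ι), adT e T n (∑ w ∈ S, l w • wd e w) =
          ∑ w ∈ S, l w • adT e T n (wd e w) := by
        intro S
        induction S using Finset.induction_on with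
        | empty =>
          rw [Finset.sum_empty, Finset.sum_empty]
          have := adT_smul e T n (0 : F) 0
          rw [zero_smul, zero_smul] at this
          exact this
        | insert w S hw ih =>
          rw [Finset.sum_insert hw, Finset.sum_insert hw, adT_add, adT_smul, ih]
      rw [h3]
      rfl
    rw [h2, map_add, hlow t ht, add_zero, map_sum, hP0, Finset.mul_sum, map_sum,
      LinearMap.sum_apply]
    refine Finset.sum_congr rfl fun w hw => ?_
    rw [map_smul, htop w (hl hw).1, mul_smul_comm, map_smul, LinearMap.smul_apply]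
  -- in terms of `d` labels
  set p : K F ι := ∑ w ∈ l.support, l w • PlV F (Finset.range d) w with hp
  have hthP : thM F ι P0 = p := by
    rw [hP0, hp, map_sum]
    refine Finset.sum_congr rfl fun w _ => ?_
    rw [Algebra.smul_def, Algebra.smul_def, map_mul, thM_Pl]
    congr 1
    rw [AddMonoidAlgebra.coe_algebraMap]
    simp [thM_single]
  have hmem1 : thM F ι (Q F ι d) * p ∈ aI e d I := by
    intro n
    set n2 : G ι := fun a => if a % 2 = 0 then n (a / 2) else 0 with hn2
    have hn : theta n2 = n := by
      funext j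
      change n2 (2 * j) + n2 (2 * j + 1) = n j
      rw [hn2]
      beta_reduce
      rw [if_pos (by omega), if_neg (by omega), add_zero]
      congr 1
      omega
    have h2 : act A (PJ F ι d (Finset.range d)) (fun n => adT e T n y) n2 ∈ I :=
      act_mem I _ _ (fun n => adT_mem e I hI T n hy) n2
    rw [hval] at h2
    have h3 : prodL e (List.range d).reverse = fun n : G ι => om e d (theta n) := by
      funext m
      exact prodL_om d m
    rw [h3, act_theta, hn, map_mul, hthP] at h2
    exact h2
  obtain ⟨N, q, hq⟩ := thM_Q (F := F) (ι := ι) d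
  have hmem2 : Dl F ι d ^ N * p ∈ aI e d I := by
    rw [hq, mul_comm _ q, mul_assoc]
    exact Ideal.mul_mem_left _ _ hmem1
  -- making the exponents nonnegative
  obtain ⟨B0, hB0⟩ : ∃ B0 : ℕ, ∀ k, p.coeff k ≠ 0 → ∀ i < d, |Lab.c (k i)| ≤ B0 := by
    refine ⟨(∑ k ∈ p.coeff.support, ∑ i ∈ Finset.range d, |Lab.c (k i)|).toNat, ?_⟩
    intro k hk i hi
    have h2 : |Lab.c (k i)| ≤ ∑ i ∈ Finset.range d, |Lab.c (k i)| :=
      Finset.single_le_sum (f := fun i => |Lab.c (k i)|) (fun _ _ => abs_nonneg _)
        (Finset.mem_range.mpr hi)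
    have h3 : ∑ i ∈ Finset.range d, |Lab.c (k i)| ≤
        ∑ k ∈ p.coeff.support, ∑ i ∈ Finset.range d, |Lab.c (k i)| :=
      Finset.single_le_sum (f := fun k : G ι => ∑ i ∈ Finset.range d, |Lab.c (k i)|)
        (fun _ _ => Finset.sum_nonneg fun _ _ => abs_nonneg _) (Finsupp.mem_support_iff.mpr hk)
    exact (h2.trans h3).trans (Int.self_le_toNat _)
  have hpsupp : ∀ k, p.coeff k ≠ 0 → ∀ i, d ≤ i → k i = 0 := by
    intro k hk i hi
    rw [hp, AddMonoidAlgebra.coeff_sum, Finsupp.finsetSum_apply] at hk
    obtain ⟨w, _, hne⟩ := Finset.exists_ne_zero_of_sum_ne_zero hk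
    rw [AddMonoidAlgebra.coeff_smul, Finsupp.smul_apply] at hne
    refine supp_PlV w (Finset.range d) k (fun h => hne (by rw [h, smul_zero])) i ?_
    rw [Finset.mem_range]; omega
  set k0 : G ι := fun i => if i < d then B0 • Lab.one else 0 with hk0
  set p' : K F ι := AddMonoidAlgebra.single k0 1 * p with hp'
  have hmem3 : Dl F ι d ^ N * p' ∈ aI e d I := by
    rw [hp', mul_left_comm]
    exact Ideal.mul_mem_left _ _ hmem2
  have hgood : Good d (d * (2 * B0)) p' := by
    intro k' hk'
    obtain ⟨k, hk, rfl⟩ := supp_single_mul _ _ _ hk'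
    have hci : ∀ i, i < d → Lab.c ((k0 + k) i) = B0 + Lab.c (k i) := by
      intro i hi
      rw [Pi.add_apply, map_add, hk0]
      beta_reduce
      rw [if_pos hi, c_nsmul_one]
    have hci' : ∀ i, d ≤ i → (k0 + k) i = 0 := by
      intro i hi
      rw [Pi.add_apply, hk0]
      beta_reduce
      rw [if_neg (by omega), hpsupp k hk i hi, add_zero]
    refine ⟨?_, hci', ?_⟩
    · intro i
      rcases Nat.lt_or_ge i d with hi | hi
      · rw [hci i hi]
        have := (abs_le.mp (hB0 k hk i hi)).1
        linarith
      · rw [hci' i hi, map_zero]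
    · calc ∑ i ∈ Finset.range d, Lab.c ((k0 + k) i) ≤ ∑ i ∈ Finset.range d, (2 * B0 : ℤ) := by
            apply Finset.sum_le_sum
            intro i hi
            rw [hci i (Finset.mem_range.mp hi)]
            have := (abs_le.mp (hB0 k hk i (Finset.mem_range.mp hi))).2
            linarith
        _ = ((d * (2 * B0) : ℕ) : ℤ) := by
            rw [Finset.sum_const, Finset.card_range]
            push_cast
            simp
  have hne : p' ≠ 0 := by
    obtain ⟨w0, hw0⟩ := Finsupp.support_nonempty_iff.mpr hl0
    have hw0d : w0.length = d := (hl hw0).1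
    set f0 : G ι := fun i => w0.getD i 0 with hf0
    have hmap : (Finset.range d).val.map f0 = (w0 : Multiset ι) := by
      rw [Finset.range_val, Multiset.range, Multiset.map_coe, Multiset.coe_eq_coe]
      have : List.map f0 (List.range d) = w0 := by
        apply List.ext_getElem
        · simp [hw0d]
        · intro i h1 h2
          rw [List.getElem_map, List.getElem_range, hf0]
          beta_reduce
          rw [List.getD_eq_getElem _ _ h2]
      rw [this]
    have hf0' : ∀ i, i ∉ Finset.range d → (0 : G ι) i = f0 i := by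
      intro i hi
      rw [Finset.mem_range, not_lt] at hi
      rw [hf0]
      beta_reduce
      rw [List.getD_eq_default _ _ (by omega)]
      rfl
    intro h0
    have h2 : act F p' (chi F (f0 + k0)) 0 = act F p (chi F f0) 0 := by
      rw [hp', act_mul, act_single, one_smul, chi_shift]
    rw [h0, map_zero] at h2
    have h3 : act F p (chi F f0) 0 = ∑ w ∈ l.support, l w * act F (PlV F (Finset.range d) w)
        (chi F f0) 0 := by
      rw [hp, map_sum, LinearMap.sum_apply, Finset.sum_apply]
      refine Finset.sum_congr rfl fun w _ => ?_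
      rw [map_smul, LinearMap.smul_apply, Pi.smul_apply, smul_eq_mul]
    rw [h3, Finset.sum_eq_single w0] at h2
    · obtain ⟨k, hk1, hk2⟩ := PlV_val (F := F) f0 w0 (Finset.range d) 0
        (by rw [Finset.card_range, hw0d]) (fun _ _ => rfl)
      have hk : k ≠ 0 := hk2.mpr ⟨hmap.symm, hf0'⟩
      rw [hk1] at h2
      have h4 : l w0 ≠ 0 := Finsupp.mem_support_iff.mp hw0
      have h5 : (-4 : F) ^ w0.length * (k : F) ≠ 0 :=
        mul_ne_zero (pow_ne_zero _ (by norm_num)) (Nat.cast_ne_zero.mpr hk)
      exact mul_ne_zero h4 h5 h2.symm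
    · intro w hw hww
      obtain ⟨k, hk1, hk2⟩ := PlV_val (F := F) f0 w (Finset.range d) 0
        (by rw [Finset.card_range, (hl hw).1]) (fun _ _ => rfl)
      have : k = 0 := by
        by_contra hk
        obtain ⟨h4, -⟩ := hk2.mp hk
        rw [hmap] at h4
        exact hww ((hl hw).2.inj (hl hw0).2 h4)
      rw [hk1, this, Nat.cast_zero, mul_zero, mul_zero]
    · intro h4
      exact absurd hw0 h4
  obtain ⟨N', hN'⟩ := remove he hI (d * (2 * B0)) p' N hne hgood hmem3
  exact ⟨d, N', hN'⟩

end Pool.Agent.R693.W
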