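import Pool.Agent.R693.W.Eval
import Pool.Agent.R693.W.Reduce

/-!
Nonzero ad-stable submodules in algebras generated by elements satisfying the Virasoro relations,
over a general domain of scalars.
(Adapted from `Pool/Agent/H176R3/Vir*.lean`, where the scalars are the complex numbers.)
-/

set_option autoImplicit false
set_option linter.unusedSectionVars false

namespace Pool.Agent.R693.Vir

open Pool.Agent.R693.W hiding Q PJ Fl GG evaluate vanish kill_cross pair kill adT_e ad_e perm_mem Fl_succ wd_mem Fl_mono e_mul_mem Can Can.inj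

variable {C : Type*} [CommRing C] {A : Type*} [Ring A] [Algebra C A]


/-- The relations of the Virasoro algebra. -/
def IsVir (c : C) (e : ℤ → A) : Prop :=
  ∀ m n : ℤ, e m * e n - e n * e m = ((m - n : ℤ) : C) • e (m + n) +
    (if m + n = 0 then algebraMap C A (c * ((m : C) ^ 3 - (m : C))) else 0)

variable {e : ℤ → A}

/-- The cubic coefficient. -/
noncomputable def kap (c : C) (m : ℤ) : C := c * ((m : C) ^ 3 - (m : C))

lemma ad_e {c : C} (he : IsVir c e) (m v : ℤ) :
    ad e m (e v) = ((m - v : ℤ) : C) • e (v + m) + (if v + m = 0 then kap c m else 0) • 1 := by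
  unfold ad
  rw [he m v, add_comm m v, Algebra.algebraMap_eq_smul_one]
  unfold kap
  split_ifs
  · rfl
  · rw [zero_smul]

lemma _root_.Pool.Agent.R693.W.Aff.mul_const {l : G ℤ → C} (h : Aff l) (r : C) :
    Aff (fun n => r * l n) := by
  intro a
  obtain ⟨α, hα⟩ := h a
  exact ⟨r * α, fun n => by beta_reduce; rw [hα]; ring⟩

lemma aff_coord' (a : ℕ) : Aff (fun n : G ℤ => ((n a : ℤ) : C)) := aff_coord a

lemma aff_sum' (T : Finset ℕ) : Aff (fun n : G ℤ => ((∑ a ∈ T, n a : ℤ) : C)) := aff_sum T

lemma dl1 (a : ℕ) : (dl a : G ℤ) a = 1 := dl_self a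

lemma act_D4 (a b : ℕ) (f : G ℤ → A) (n : G ℤ) :
    (act (C := C) (ι := ℤ) A) (D a b ^ 4) f n =
      f (n + dl a + dl a + dl a + dl a) - (4 : C) • f (n + dl b + dl a + dl a + dl a) +
      (6 : C) • f (n + dl b + dl b + dl a + dl a) -
      (4 : C) • f (n + dl b + dl b + dl b + dl a) + f (n + dl b + dl b + dl b + dl b) := by
  have e1 : ∀ m : G ℤ, m + dl a + dl b = m + dl b + dl a := fun m => add_right_comm _ _ _
  simp only [act_pow_succ', pow_zero, act_one, act_D, e1]
  module

/-- The form of an iterated commutator with a generator. -/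
lemma adT_e {c : C} (he : IsVir c e) (T : Finset ℕ) (v : ℤ) :
    ∃ p q : G ℤ → C, PolyF T.card p ∧ (∃ k ≤ T.card + 2, PolyF k q) ∧
      ∀ n : G ℤ, adT e T n (e v) = p n • e (v + ∑ a ∈ T, n a) +
        (q n * (if v + ∑ a ∈ T, n a = 0 then 1 else 0)) • 1 := by
  induction T using Finset.induction_on_min with
  | empty =>
    refine ⟨fun _ => 1, fun _ => 0, PolyF.const 1, ⟨0, by simp, PolyF.const 0⟩, fun n => ?_⟩
    simp
  | insert a T h ih =>
    obtain ⟨p, q, hp, -, hpq⟩ := ih
    have haT : a ∉ T := fun ha => lt_irrefl _ (h a ha)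
    refine ⟨fun n => ((n a : C) - ((v : C) + ((∑ b ∈ T, n b : ℤ) : C))) * p n,
      fun n => (c * (n a : C)) * (((n a : C) - 1) * (((n a : C) + 1) * p n)), ?_, ?_, ?_⟩
    · rw [Finset.card_insert_of_notMem haT]
      exact PolyF.mul ((aff_coord' a).sub ((aff_const _).add (aff_sum' T))) hp
    · refine ⟨T.card + 1 + 1 + 1, ?_, ?_⟩
      · rw [Finset.card_insert_of_notMem haT]
      · exact PolyF.mul ((aff_coord' a).mul_const _) (PolyF.mul ((aff_coord' a).sub (aff_const 1))
          (PolyF.mul ((aff_coord' a).add (aff_const 1)) hp))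
    · intro n
      rw [adT_insert e h, hpq n, ad_add, ad_smul, ad_smul, ad_one, smul_zero, add_zero,
        ad_e he, Finset.sum_insert haT]
      have e1 : v + ∑ b ∈ T, n b + n a = v + (n a + ∑ b ∈ T, n b) := by ring
      rw [e1, smul_add, smul_smul, smul_smul]
      congr 1
      · congr 1
        push_cast
        ring
      · congr 1
        unfold kap
        split_ifs
        · ring
        · ring

/-- If `T` contains `a` and `b`, then a high power of the difference kills. -/
lemma kill {c : C} (he : IsVir c e) (T : Finset ℕ) (v : ℤ) {a b : ℕ} (ha : a ∈ T) (hb : b ∈ T)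
    {R : ℕ} (hR : T.card + 3 ≤ R) : (act (C := C) (ι := ℤ) A) (D a b ^ R) (fun n => adT e T n (e v)) = 0 := by
  obtain ⟨p, q, hp, ⟨k, hk, hq⟩, h⟩ := adT_e he T v
  have hs : ∀ (a : ℕ), a ∈ T → ∀ n : G ℤ, ∑ j ∈ T, (n + (dl a : G ℤ)) j = ∑ j ∈ T, n j + 1 :=
    fun a ha n => sum_dl ha n
  have h1 : (act (C := C) (ι := ℤ) A) (D a b) (fun n : G ℤ => e (v + ∑ j ∈ T, n j)) = 0 := by
    funext n
    rw [act_D, hs a ha, hs b hb, sub_self]; rfl
  have h2 : (act (C := C) (ι := ℤ) A) (D a b) (fun n : G ℤ => ((if v + ∑ j ∈ T, n j = 0 then 1 else 0 : C) • (1 : A))) =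
      0 := by
    funext n
    rw [act_D, hs a ha, hs b hb, sub_self]; rfl
  have h3 : (fun n => adT e T n (e v)) = (fun n => p n • e (v + ∑ j ∈ T, n j)) +
      fun n => q n • ((if v + ∑ j ∈ T, n j = 0 then 1 else 0 : C) • (1 : A)) := by
    funext n
    rw [h n, Pi.add_apply, smul_smul]
  rw [h3, map_add, act_pow_mono (show T.card + 1 ≤ R by omega) (act_smul_poly hp _ h1),
    act_pow_mono (show k + 1 ≤ R by omega) (act_smul_poly hq _ h2), add_zero]

/-- The main computation: the fourth difference for a pair extracts the central term. -/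
lemma pair {c : C} (he : IsVir c e) {a b : ℕ} (hab : a < b) (v : ℤ) (n : G ℤ) :
    (act (C := C) (ι := ℤ) A) (D a b ^ 4) (fun n => adT e {a, b} n (e v)) n =
      (if v + (n a + n b) + 4 = 0 then -24 * c else 0) • 1 := by
  have h0 : ∀ x y : ℤ, ad e x (ad e y (e v)) =
      (((y - v : ℤ) : C) * ((x - (v + y) : ℤ) : C)) • e (v + y + x) +
      (((y - v : ℤ) : C) * (if v + y + x = 0 then kap c x else 0)) • 1 := by
    intro x y
    rw [ad_e he, ad_add, ad_smul, ad_smul, ad_one, smul_zero, add_zero, ad_e he, smul_add,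
      smul_smul, smul_smul]
  rw [act_D4]
  simp only [adT_pair hab, h0, Pi.add_apply, dl1, dl_ne hab.ne, dl_ne hab.ne', add_zero]
  have e1 : v + n b + (n a + 1 + 1 + 1 + 1) = v + (n a + n b) + 4 := by ring
  have e2 : v + (n b + 1) + (n a + 1 + 1 + 1) = v + (n a + n b) + 4 := by ring
  have e3 : v + (n b + 1 + 1) + (n a + 1 + 1) = v + (n a + n b) + 4 := by ring
  have e4 : v + (n b + 1 + 1 + 1) + (n a + 1) = v + (n a + n b) + 4 := by ring
  have e5 : v + (n b + 1 + 1 + 1 + 1) + n a = v + (n a + n b) + 4 := by ring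
  rw [e1, e2, e3, e4, e5]
  unfold kap
  split_ifs with h
  · push_cast
    match_scalars
    · ring
    · ring
  · push_cast
    match_scalars
    · ring
    · ring

/-- The cross factor. -/
noncomputable def Q (C : Type*) [CommRing C] (d : ℕ) : K C ℤ := ∏ p ∈ cross d, D p.1 p.2 ^ (2 * d + 3)

/-- The cross factor times the partner factors of the pairs in `J`. -/
noncomputable def PJ (C : Type*) [CommRing C] (d : ℕ) (J : Finset ℕ) : K C ℤ := Q C d * ∏ i ∈ J, D (2 * i) (2 * i + 1) ^ 4


/-- If a block contains two labels that are not partners, the term is killed by `Q`. -/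
lemma kill_cross {c : C} (he : IsVir c e) {d : ℕ} {T : Finset ℕ} (hT : T ⊆ Finset.range (2 * d))
    (v : ℤ) {a b : ℕ} (ha : a ∈ T) (hb : b ∈ T) (hab : a / 2 ≠ b / 2) {u w : G ℤ → A}
    (hua : Ind u a) (hub : Ind u b) (hwa : Ind w a) (hwb : Ind w b) :
    (act (C := C) (ι := ℤ) A) (Q C d) (fun n => u n * adT e T n (e v) * w n) = 0 := by
  have hmem : (a, b) ∈ cross d := by
    unfold cross
    simp only [Finset.mem_filter, Finset.mem_product]
    exact ⟨⟨hT ha, hT hb⟩, hab⟩
  unfold Q
  rw [← Finset.mul_prod_erase _ _ hmem, mul_comm, act_mul, act_Dpow_mul hua hub hwa hwb]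
  have hcard : T.card + 3 ≤ 2 * d + 3 := by
    have := Finset.card_le_card hT
    rw [Finset.card_range] at this
    omega
  rw [kill he T v ha hb hcard]
  simp only [Pi.zero_apply, mul_zero, zero_mul]
  exact map_zero _

/-- Words that are too short for the labels are killed by `Q`. -/
lemma vanish {c : C} (he : IsVir c e) {d : ℕ} (w : List ℤ) : ∀ (T : Finset ℕ),
    T ⊆ Finset.range (2 * d) → w.length < (T.image (· / 2)).card → ∀ u : G ℤ → A,
    (∀ a ∈ T, Ind u a) → (act (C := C) (ι := ℤ) A) (Q C d) (fun n => u n * adT e T n (wd e w)) = 0 := by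
  induction w with
  | nil =>
    intro T hT hcard u hu
    have hne : T.Nonempty := by
      rw [← Finset.image_nonempty (f := (· / 2)), ← Finset.card_pos]
      exact lt_of_le_of_lt (Nat.zero_le _) hcard
    simp only [wd_nil, adT_one e hne, mul_zero]
    exact map_zero _
  | cons v w ih =>
    intro T hT hcard u hu
    simp only [wd_cons, adT_mul, Finset.mul_sum]
    rw [act_sum]
    refine Finset.sum_eq_zero fun S hS => ?_
    have hST : S ⊆ T := Finset.mem_powerset.mp hS
    by_cases hc : ∃ a ∈ S, ∃ b ∈ S, a / 2 ≠ b / 2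
    · obtain ⟨a, ha, b, hb, hab⟩ := hc
      have := kill_cross he (hST.trans hT) v ha hb hab (hu a (hST ha)) (hu b (hST hb))
        (adT_ind e (T \ S) (wd e w) (a := a) (fun h => (Finset.mem_sdiff.mp h).2 ha))
        (adT_ind e (T \ S) (wd e w) (a := b) (fun h => (Finset.mem_sdiff.mp h).2 hb))
      simpa only [mul_assoc] using this
    · push Not at hc
      have h1 : (S.image (· / 2)).card ≤ 1 := by
        rw [Finset.card_le_one]
        intro a ha b hb
        simp only [Finset.mem_image] at ha hb
        obtain ⟨a', ha', rfl⟩ := ha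
        obtain ⟨b', hb', rfl⟩ := hb
        exact hc a' ha' b' hb'
      have h2 : (T.image (· / 2)).card ≤ (S.image (· / 2)).card + ((T \ S).image (· / 2)).card := by
        refine le_trans (Finset.card_le_card ?_) (Finset.card_union_le _ _)
        rw [← Finset.image_union, Finset.union_sdiff_of_subset hST]
      have h3 : w.length < ((T \ S).image (· / 2)).card := by
        rw [List.length_cons] at hcard
        omega
      have := ih (T \ S) (Finset.sdiff_subset.trans hT) h3
        (fun n => u n * adT e S n (e v)) (fun a ha => ind_mul (hu a (Finset.mem_sdiff.mp ha).1)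
          (adT_ind e S (e v) (a := a) (Finset.mem_sdiff.mp ha).2))
      simpa only [mul_assoc] using this

/-- The combinatorial coefficient: `b i` is minus the sum of the partners minus four. -/
noncomputable def GG (c : C) (b : ℕ → ℤ) : Finset ℕ → List ℤ → C
  | _, [] => 1
  | J, v :: w => ∑ i ∈ J, (if v = b i then -24 * c else 0) * GG c b (J.erase i) w

lemma GG_congr (c : C) {b b' : ℕ → ℤ} (w : List ℤ) : ∀ (J : Finset ℕ), (∀ i ∈ J, b i = b' i) →
    GG c b J w = GG c b' J w := by
  induction w with
  | nil => intro J _; simp [GG]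
  | cons v w ih =>
    intro J hJ
    rw [GG, GG]
    refine Finset.sum_congr rfl fun i hi => ?_
    rw [hJ i hi, ih (J.erase i) (fun j hj => hJ j (Finset.mem_of_mem_erase hj))]

/-- The value of the coefficient. -/
lemma GG_val (c : C) (b : ℕ → ℤ) (w : List ℤ) : ∀ (J : Finset ℕ), w.length = J.card →
    ∃ k : ℕ, GG c b J w = (-24 * c) ^ w.length * k ∧ (k ≠ 0 ↔ (w : Multiset ℤ) = J.val.map b) := by
  induction w with
  | nil =>
    intro J hJ
    refine ⟨1, by simp [GG], ?_⟩
    have : J = ∅ := Finset.card_eq_zero.mp hJ.symm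
    subst this
    simp
  | cons v w ih =>
    intro J hJ
    have h1 : ∀ i ∈ J, w.length = (J.erase i).card := by
      intro i hi
      rw [Finset.card_erase_of_mem hi, ← hJ, List.length_cons]; rfl
    choose! k hk using fun i (hi : i ∈ J) => ih (J.erase i) (h1 i hi)
    refine ⟨∑ i ∈ J, if v = b i then k i else 0, ?_, ?_⟩
    · rw [GG, List.length_cons, pow_succ]
      push_cast
      rw [Finset.mul_sum]
      refine Finset.sum_congr rfl fun i hi => ?_
      rw [(hk i hi).1]
      split_ifs <;> ring
    · have h2 : ∀ i ∈ J, J.val.map b = b i ::ₘ (J.erase i).val.map b := by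
        intro i hi
        rw [Finset.erase_val, ← Multiset.map_cons, Multiset.cons_erase hi]
      have h4 : (∑ i ∈ J, if v = b i then k i else 0) ≠ 0 ↔
          ∃ i ∈ J, (if v = b i then k i else 0) ≠ 0 := by
        rw [Ne, Finset.sum_eq_zero_iff]
        push Not
        rfl
      rw [h4]
      constructor
      · rintro ⟨i, hi, hne⟩
        have hv : v = b i := by
          by_contra hv
          exact hne (if_neg hv)
        rw [if_pos hv] at hne
        have h3 := (hk i hi).2.mp hne
        rw [h2 i hi, ← h3, hv]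
        rfl
      · intro h
        have h3 : v ∈ J.val.map b := by
          rw [← h]
          exact List.mem_cons_self
        rw [Multiset.mem_map] at h3
        obtain ⟨i, hi, hv⟩ := h3
        refine ⟨i, hi, ?_⟩
        rw [if_pos hv.symm]
        apply (hk i hi).2.mpr
        rw [h2 i hi, hv, ← Multiset.cons_coe] at h
        exact (Multiset.cons_inj_right v).mp h

/-- The coefficient `b` attached to `n`. -/
def bb (n : G ℤ) : ℕ → ℤ := fun i => -(n (2 * i) + n (2 * i + 1)) - 4

lemma evaluate {c : C} (he : IsVir c e) {d : ℕ} (w : List ℤ) : ∀ (J : Finset ℕ),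
    J ⊆ Finset.range d → w.length = J.card → ∀ u : G ℤ → A,
    (∀ a ∈ TJ J, Ind u a) → (act (C := C) (ι := ℤ) A) (PJ C d J) (fun n => u n * adT e (TJ J) n (wd e w)) =
      (act (C := C) (ι := ℤ) A) (Q C d) (fun n => u n * algebraMap C A (GG c (bb n) J w)) := by
  induction w with
  | nil =>
    intro J hJ hw u hu
    have : J = ∅ := Finset.card_eq_zero.mp hw.symm
    subst this
    simp [PJ, TJ, GG]
  | cons v w ih =>
    intro J hJ hw u hu
    have hTJ : TJ J ⊆ Finset.range (2 * d) := by
      intro a ha
      have h1 := Finset.mem_range.mp (hJ (mem_TJ.mp ha))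
      rw [Finset.mem_range]
      omega
    have hPJ : ∀ f : G ℤ → A, (act (C := C) (ι := ℤ) A) (Q C d) f = 0 → (act (C := C) (ι := ℤ) A) (PJ C d J) f = 0 := by
      intro f hf
      unfold PJ
      rw [mul_comm, act_mul, hf, map_zero]
    simp only [wd_cons, adT_mul, Finset.mul_sum]
    rw [act_sum]
    -- all terms vanish except those for full pairs
    have hzero : ∀ S ∈ (TJ J).powerset, (¬ ∃ i ∈ J, S = {2 * i, 2 * i + 1}) →
        (act (C := C) (ι := ℤ) A) (PJ C d J) (fun n => u n * (adT e S n (e v) * adT e (TJ J \ S) n (wd e w))) = 0 := by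
      intro S hS hne
      have hST : S ⊆ TJ J := Finset.mem_powerset.mp hS
      apply hPJ
      by_cases hc : ∃ a ∈ S, ∃ b ∈ S, a / 2 ≠ b / 2
      · obtain ⟨a, ha, b, hb, hab⟩ := hc
        have := kill_cross he (hST.trans hTJ) v ha hb hab (hu a (hST ha)) (hu b (hST hb))
          (adT_ind e (TJ J \ S) (wd e w) (a := a) (fun h => (Finset.mem_sdiff.mp h).2 ha))
          (adT_ind e (TJ J \ S) (wd e w) (a := b) (fun h => (Finset.mem_sdiff.mp h).2 hb))
        simpa only [mul_assoc] using this
      · push Not at hc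
        have h3 : w.length < ((TJ J \ S).image (· / 2)).card := by
          have h4 : J ⊆ (TJ J \ S).image (· / 2) := by
            intro i hi
            rw [Finset.mem_image]
            by_cases h5 : 2 * i ∈ S
            · by_cases h6 : 2 * i + 1 ∈ S
              · exfalso
                apply hne
                refine ⟨i, hi, ?_⟩
                ext a
                simp only [Finset.mem_insert, Finset.mem_singleton]
                constructor
                · intro ha
                  have := hc a ha (2 * i) h5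
                  omega
                · rintro (rfl | rfl)
                  · exact h5
                  · exact h6
              · refine ⟨2 * i + 1, ?_, by omega⟩
                rw [Finset.mem_sdiff, mem_TJ]
                have : (2 * i + 1) / 2 = i := by omega
                rw [this]
                exact ⟨hi, h6⟩
            · refine ⟨2 * i, ?_, by omega⟩
              rw [Finset.mem_sdiff, mem_TJ]
              have : (2 * i) / 2 = i := by omega
              rw [this]
              exact ⟨hi, h5⟩
          have h5 := Finset.card_le_card h4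
          rw [List.length_cons] at hw
          omega
        have := vanish he w (TJ J \ S) (Finset.sdiff_subset.trans hTJ) h3
          (fun n => u n * adT e S n (e v)) (fun a ha => ind_mul (hu a (Finset.mem_sdiff.mp ha).1)
            (adT_ind e S (e v) (a := a) (Finset.mem_sdiff.mp ha).2))
        simpa only [mul_assoc] using this
    have hinj : Set.InjOn (fun i : ℕ => ({2 * i, 2 * i + 1} : Finset ℕ)) J := by
      intro i _ j _ hij
      have h1 : 2 * i ∈ ({2 * j, 2 * j + 1} : Finset ℕ) := by
        rw [← show ({2 * i, 2 * i + 1} : Finset ℕ) = {2 * j, 2 * j + 1} from hij]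
        simp
      simp only [Finset.mem_insert, Finset.mem_singleton] at h1
      omega
    have hsub : J.image (fun i : ℕ => ({2 * i, 2 * i + 1} : Finset ℕ)) ⊆ (TJ J).powerset := by
      intro S hS
      rw [Finset.mem_image] at hS
      obtain ⟨i, hi, rfl⟩ := hS
      rw [Finset.mem_powerset]
      intro a ha
      rw [mem_TJ]
      simp only [Finset.mem_insert, Finset.mem_singleton] at ha
      have : a / 2 = i := by omega
      rwa [this]
    rw [← Finset.sum_subset hsub (fun S hS hne => hzero S hS (by
      rintro ⟨i, hi, rfl⟩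
      exact hne (Finset.mem_image_of_mem _ hi))), Finset.sum_image hinj]
    have hterm : ∀ i ∈ J, (act (C := C) (ι := ℤ) A) (PJ C d J) (fun n => u n * (adT e {2 * i, 2 * i + 1} n (e v) *
        adT e (TJ J \ {2 * i, 2 * i + 1}) n (wd e w))) =
        (act (C := C) (ι := ℤ) A) (Q C d) (fun n => u n * algebraMap C A ((if v = bb n i then -24 * c else 0) *
          GG c (bb n) (J.erase i) w)) := by
      intro i hi
      have h1 : PJ C d J = PJ C d (J.erase i) * D (2 * i) (2 * i + 1) ^ 4 := by
        unfold PJ
        rw [← Finset.prod_erase_mul _ _ hi, mul_assoc]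
      have h2 : TJ J \ {2 * i, 2 * i + 1} = TJ (J.erase i) := by
        ext a
        rw [Finset.mem_sdiff, mem_TJ, mem_TJ, Finset.mem_erase]
        simp only [Finset.mem_insert, Finset.mem_singleton]
        constructor
        · rintro ⟨h3, h4⟩
          exact ⟨by omega, h3⟩
        · rintro ⟨h3, h4⟩
          exact ⟨h4, by omega⟩
      have hmem1 : 2 * i ∈ TJ J := by
        rw [mem_TJ]
        have : 2 * i / 2 = i := by omega
        rwa [this]
      have hmem2 : 2 * i + 1 ∈ TJ J := by
        rw [mem_TJ]
        have : (2 * i + 1) / 2 = i := by omega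
        rwa [this]
      have hn1 : 2 * i ∉ TJ (J.erase i) := by
        rw [mem_TJ]
        have : 2 * i / 2 = i := by omega
        rw [this]
        exact Finset.notMem_erase i J
      have hn2 : 2 * i + 1 ∉ TJ (J.erase i) := by
        rw [mem_TJ]
        have : (2 * i + 1) / 2 = i := by omega
        rw [this]
        exact Finset.notMem_erase i J
      have h3 := act_Dpow_mul (C := C) (hu _ hmem1) (hu _ hmem2)
        (adT_ind e (TJ (J.erase i)) (wd e w) hn1) (adT_ind e (TJ (J.erase i)) (wd e w) hn2) 4
        (fun n => adT e {2 * i, 2 * i + 1} n (e v))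
      simp only [pair he (show 2 * i < 2 * i + 1 by omega)] at h3
      have h4 : (fun n => u n * (adT e {2 * i, 2 * i + 1} n (e v) *
        adT e (TJ J \ {2 * i, 2 * i + 1}) n (wd e w))) = fun n => u n *
          adT e {2 * i, 2 * i + 1} n (e v) * adT e (TJ (J.erase i)) n (wd e w) := by
        funext n
        rw [h2, mul_assoc]
      have h5 : ∀ n : G ℤ, (if v + (n (2 * i) + n (2 * i + 1)) + 4 = 0 then -24 * c else 0 : C) =
          if v = bb n i then -24 * c else 0 := by
        intro n
        have : v + (n (2 * i) + n (2 * i + 1)) + 4 = 0 ↔ v = bb n i := by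
          unfold bb
          constructor <;> intro h <;> omega
        simp only [this]
      rw [h1, act_mul, h4, h3]
      simp only [h5]
      have h6 := ih (J.erase i) ((Finset.erase_subset i J).trans hJ)
        (by rw [Finset.card_erase_of_mem hi, ← hw, List.length_cons]; rfl)
        (fun n => u n * ((if v = bb n i then -24 * c else 0 : C) • 1)) (by
          intro a ha
          apply ind_mul (hu a (mem_TJ.mpr (Finset.mem_of_mem_erase (mem_TJ.mp ha))))
          intro n n' hn
          have hai : a / 2 ≠ i := Finset.ne_of_mem_erase (mem_TJ.mp ha)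
          have : bb n i = bb n' i := by
            unfold bb
            rw [hn _ (by omega), hn _ (by omega)]
          beta_reduce
          rw [this])
      rw [h6]
      congr 1
      funext n
      rw [map_mul, ← mul_assoc, Algebra.algebraMap_eq_smul_one (if v = bb n i then -24 * c else 0)]
    rw [Finset.sum_congr rfl hterm, ← act_sum]
    congr 1
    funext n
    rw [GG, map_sum, Finset.mul_sum]


/-- All functions `H` whose support is bounded in the sums of partners. -/
def Bdd (d : ℕ) (H : G ℤ → C) : Prop :=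
  ∃ B : ℤ, ∀ n, H n ≠ 0 → ∀ i < d, |n (2 * i) + n (2 * i + 1)| ≤ B

lemma dl_applyZ (a j : ℕ) : (dl a : G ℤ) j = if j = a then 1 else 0 := dl_apply a j

lemma sum_dl_le (a i : ℕ) : |(dl a : G ℤ) (2 * i) + (dl a : G ℤ) (2 * i + 1)| ≤ 1 := by
  rw [dl_applyZ, dl_applyZ]
  split_ifs with h1 h2 h2
  · omega
  · norm_num
  · norm_num
  · norm_num

lemma Bdd.act_D {d : ℕ} {H : G ℤ → C} (hH : Bdd d H) (a b : ℕ) : Bdd d ((act (C := C) (ι := ℤ) C) (D a b) H) := by
  obtain ⟨B, hB⟩ := hH
  refine ⟨B + 1, fun n hn i hi => ?_⟩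
  rw [Pool.Agent.R693.W.act_D] at hn
  have key : ∀ e : ℕ, H (n + dl e) ≠ 0 → |n (2 * i) + n (2 * i + 1)| ≤ B + 1 := by
    intro e he
    have h1 := hB _ he i hi
    have h2 := sum_dl_le e i
    simp only [Pi.add_apply] at h1
    rw [abs_le] at *
    constructor <;> linarith [h1.1, h1.2, h2.1, h2.2]
  by_cases h : H (n + dl a) = 0
  · apply key b
    intro h'
    exact hn (by rw [h, h', sub_zero])
  · exact key a h

lemma Bdd.ne_zero {d : ℕ} {H : G ℤ → C} (hH : Bdd d H) {a b : ℕ} (ha : a / 2 < d)
    (hab : a / 2 ≠ b / 2) (h0 : (act (C := C) (ι := ℤ) C) (D a b) H = 0) : H = 0 := by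
  obtain ⟨B, hB⟩ := hH
  have h1 : ∀ n, H (n + dl a) = H (n + dl b) := by
    intro n
    have := congrFun h0 n
    rw [Pool.Agent.R693.W.act_D] at this
    exact sub_eq_zero.mp this
  have h2 : ∀ (k : ℕ) (n : G ℤ), H (n + k • (dl a - dl b) : G ℤ) = H n := by
    intro k
    induction k with
    | zero => intro n; simp
    | succ k ih =>
      intro n
      rw [← ih n]
      have := h1 (n + k • (dl a - dl b) - dl b)
      rw [sub_add_cancel] at this
      rw [← this]
      congr 1
      rw [succ_nsmul]
      abel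
  funext n
  by_contra hne
  have h3 : ∀ k : ℕ, |(n + k • (dl a - dl b) : G ℤ) (2 * (a / 2)) +
      (n + k • (dl a - dl b) : G ℤ) (2 * (a / 2) + 1)| ≤ B := by
    intro k
    apply hB _ _ _ ha
    rw [h2]
    exact hne
  have h4 : (dl a : G ℤ) (2 * (a / 2)) + (dl a : G ℤ) (2 * (a / 2) + 1) = 1 := by
    rw [dl_applyZ, dl_applyZ]
    rcases Nat.even_or_odd' a with ⟨c, rfl | rfl⟩
    · rw [if_pos (by omega), if_neg (by omega)]; rfl
    · rw [if_neg (by omega), if_pos (by omega)]; rfl
  have h5 : (dl b : G ℤ) (2 * (a / 2)) = 0 := by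
    rw [dl_applyZ, if_neg]; omega
  have h6 : (dl b : G ℤ) (2 * (a / 2) + 1) = 0 := by
    rw [dl_applyZ, if_neg]; omega
  have h7 : ∀ k : ℕ, |n (2 * (a / 2)) + n (2 * (a / 2) + 1) + (k : ℤ)| ≤ B := by
    intro k
    have h8 := h3 k
    have h9 : (n + k • (dl a - dl b) : G ℤ) (2 * (a / 2)) + (n + k • (dl a - dl b) : G ℤ) (2 * (a / 2) + 1) =
        n (2 * (a / 2)) + n (2 * (a / 2) + 1) +
          (k : ℤ) * (dl a (2 * (a / 2)) + dl a (2 * (a / 2) + 1)) := by
      rw [Pi.add_apply, Pi.add_apply, Pi.smul_apply, Pi.smul_apply, Pi.sub_apply, Pi.sub_apply,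
        h5, h6, nsmul_eq_mul, nsmul_eq_mul]
      ring
    rw [h9, h4, mul_one] at h8
    exact h8
  have h8 := h7 (B.toNat + (|n (2 * (a / 2)) + n (2 * (a / 2) + 1)|).toNat + 1)
  have h9 := Int.self_le_toNat B
  have h10 := neg_abs_le (n (2 * (a / 2)) + n (2 * (a / 2) + 1))
  have h11 := Int.self_le_toNat (|n (2 * (a / 2)) + n (2 * (a / 2) + 1)|)
  have h12 := (abs_le.mp h8).2
  push_cast at h12
  omega


/-- The span of the words of length less than `k`. -/
def Fl (C : Type*) [CommRing C] {A : Type*} [Ring A] [Algebra C A] (e : ℤ → A) (k : ℕ) : Submodule C A := Submodule.span C {x | ∃ w : List ℤ, w.length < k ∧ x = wd e w}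


lemma wd_mem {w : List ℤ} {k : ℕ} (h : w.length < k) : wd e w ∈ Fl C e k :=
  Submodule.subset_span ⟨w, h, rfl⟩

lemma Fl_mono {k m : ℕ} (h : k ≤ m) : Fl C e k ≤ Fl C e m :=
  Submodule.span_mono (fun _ ⟨w, hw, hx⟩ => ⟨w, hw.trans_le h, hx⟩)

lemma e_mul_mem (v : ℤ) {k : ℕ} {x : A} (hx : x ∈ Fl C e k) : e v * x ∈ Fl C e (k + 1) := by
  unfold Fl at hx
  induction hx using Submodule.span_induction with
  | mem y hy =>
    obtain ⟨w, hw, rfl⟩ := hy
    rw [← wd_cons]
    exact wd_mem (by simpa using hw)
  | zero => rw [mul_zero]; exact Submodule.zero_mem _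
  | add y z _ _ hy hz => rw [mul_add]; exact Submodule.add_mem _ hy hz
  | smul a y _ hy => rw [mul_smul_comm]; exact Submodule.smul_mem _ _ hy

lemma perm_mem {c : C} (he : IsVir c e) {w w' : List ℤ} (h : w.Perm w') :
    wd e w - wd e w' ∈ Fl C e w.length := by
  induction h with
  | nil => simp
  | cons v h ih =>
    rw [wd_cons, wd_cons, ← mul_sub]
    exact e_mul_mem v ih
  | swap x y l =>
    have h1 : wd e (y :: x :: l) - wd e (x :: y :: l) = ((y - x : ℤ) : C) • wd e ((y + x) :: l) +
        (if y + x = 0 then c * ((y : C) ^ 3 - (y : C)) else 0) • wd e l := by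
      simp only [wd_cons]
      rw [← mul_assoc, ← mul_assoc, ← sub_mul, he y x, add_mul, smul_mul_assoc]
      congr 1
      split_ifs
      · rw [Algebra.smul_def]
      · rw [zero_mul, zero_smul]
    rw [h1]
    refine Submodule.add_mem _ (Submodule.smul_mem _ _ (wd_mem ?_))
      (Submodule.smul_mem _ _ (wd_mem ?_))
    · simp
    · simp
  | trans h1 h2 ih1 ih2 =>
    have := Submodule.add_mem _ ih1 (by rw [h1.length_eq]; exact ih2)
    rwa [sub_add_sub_cancel] at this

/-- Canonical (sorted) words. -/
def Can (w : List ℤ) : Prop := (w : Multiset ℤ).sort (· ≤ ·) = w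

lemma Can.inj {w w' : List ℤ} (h : Can w) (h' : Can w') (hww : (w : Multiset ℤ) = w') :
    w = w' := by
  rw [← h, ← h', hww]

lemma Fl_succ {c : C} (he : IsVir c e) (d : ℕ) :
    Fl C e (d + 1) ≤ Submodule.span C (wd e '' {w | w.length = d ∧ Can w}) ⊔ Fl C e d := by
  unfold Fl
  rw [Submodule.span_le]
  rintro x ⟨w, hw, rfl⟩
  rcases Nat.lt_or_ge w.length d with h | h
  · exact Submodule.mem_sup_right (wd_mem h)
  · have hwd : w.length = d := by omega
    set w' := (w : Multiset ℤ).sort (· ≤ ·) with hw'
    have h1 : (w' : Multiset ℤ) = w := Multiset.sort_eq _ _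
    have h2 : w'.Perm w := Multiset.coe_eq_coe.mp h1
    have h3 := perm_mem he h2
    have h4 : wd e w = wd e w' - (wd e w' - wd e w) := by abel
    rw [h4]
    apply Submodule.sub_mem
    · apply Submodule.mem_sup_left
      refine Submodule.subset_span ⟨w', ⟨?_, ?_⟩, rfl⟩
      · rw [h2.length_eq, hwd]
      · unfold Can
        rw [h1]
    · apply Submodule.mem_sup_right
      rw [h2.length_eq, hwd] at h3
      exact h3

lemma act_map (p : K C ℤ) (H : G ℤ → C) :
    (act (C := C) (ι := ℤ) A) p (fun n => algebraMap C A (H n)) = fun n => algebraMap C A ((act (C := C) (ι := ℤ) C) p H n) := by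
  induction p using AddMonoidAlgebra.induction_linear with
  | zero => funext n; simp
  | add p q hp hq =>
    rw [map_add, LinearMap.add_apply, hp, hq]
    funext n
    simp
  | single k r =>
    funext n
    unfold act
    rw [AddMonoidAlgebra.lift_single, AddMonoidAlgebra.lift_single]
    simp [shift, Algebra.smul_def]

lemma act_Dpow_ne {d : ℕ} {a b : ℕ} (ha : a / 2 < d) (hab : a / 2 ≠ b / 2) (k : ℕ) {H : G ℤ → C}
    (hH : Bdd d H) (hne : H ≠ 0) :
    Bdd d ((act (C := C) (ι := ℤ) C) (D a b ^ k) H) ∧ (act (C := C) (ι := ℤ) C) (D a b ^ k) H ≠ 0 := by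
  induction k with
  | zero => rw [pow_zero, act_one]; exact ⟨hH, hne⟩
  | succ k ih =>
    rw [act_pow_succ']
    exact ⟨ih.1.act_D a b, fun h => ih.2 (ih.1.ne_zero ha hab h)⟩

lemma act_Q_ne {d : ℕ} {H : G ℤ → C} (hH : Bdd d H) (hne : H ≠ 0) : (act (C := C) (ι := ℤ) C) (Q C d) H ≠ 0 := by
  have key : ∀ S : Finset (ℕ × ℕ), S ⊆ cross d →
      Bdd d ((act (C := C) (ι := ℤ) C) (∏ p ∈ S, D p.1 p.2 ^ (2 * d + 3)) H) ∧
        (act (C := C) (ι := ℤ) C) (∏ p ∈ S, D p.1 p.2 ^ (2 * d + 3)) H ≠ 0 := by
    intro S
    induction S using Finset.induction_on with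
    | empty => intro _; rw [Finset.prod_empty, act_one]; exact ⟨hH, hne⟩
    | insert p S hp ih =>
      intro hS
      have h1 := ih ((Finset.subset_insert _ _).trans hS)
      have h2 := hS (Finset.mem_insert_self p S)
      unfold cross at h2
      simp only [Finset.mem_filter, Finset.mem_product, Finset.mem_range] at h2
      rw [Finset.prod_insert hp, act_mul]
      exact act_Dpow_ne (by omega) h2.2 _ h1.1 h1.2
  exact (key _ (Finset.Subset.refl _)).2

/-- Every nonzero submodule stable under commutators contains a nonzero scalar. -/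
theorem exists_scalar [IsDomain C] [CharZero C] {c : C} (hc : c ≠ 0) (he : IsVir c e) (I : Submodule C A)
    (hI : ∀ m x, x ∈ I → ad e m x ∈ I) {x : A} (hx : x ∈ I) (hx0 : x ≠ 0) {k : ℕ}
    (hk : x ∈ Fl C e k) : ∃ r : C, r ≠ 0 ∧ algebraMap C A r ∈ I := by
  classical
  have hex : ∃ k : ℕ, ∃ x ∈ I, x ≠ 0 ∧ x ∈ Fl C e k := ⟨k, x, hx, hx0, hk⟩
  clear hx hx0 hk
  obtain ⟨y, hy, hy0, hyk⟩ := Nat.find_spec hex
  have hmin : ∀ m < Nat.find hex, ∀ z ∈ I, z ∈ Fl C e m → z = 0 := by
    intro m hm z hz hzm
    by_contra h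
    exact Nat.find_min hex hm ⟨z, hz, h, hzm⟩
  obtain ⟨d, hd⟩ : ∃ d, Nat.find hex = d + 1 := by
    rcases Nat.eq_zero_or_pos (Nat.find hex) with h | h
    · exfalso
      rw [h] at hyk
      unfold Fl at hyk
      have : {x : A | ∃ w : List ℤ, w.length < 0 ∧ x = wd e w} = ∅ := by
        ext z; simp
      rw [this, Submodule.span_empty] at hyk
      exact hy0 ((Submodule.mem_bot C).mp hyk)
    · exact ⟨Nat.find hex - 1, by omega⟩
  rw [hd] at hyk hmin
  have h1 := Fl_succ he d hyk
  rw [Submodule.mem_sup] at h1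
  obtain ⟨s, hs, t, ht, hst⟩ := h1
  rw [Finsupp.mem_span_image_iff_linearCombination] at hs
  obtain ⟨l, hl, hls⟩ := hs
  rw [Finsupp.mem_supported] at hl
  have hl0 : l ≠ 0 := by
    rintro rfl
    rw [map_zero] at hls
    rw [← hls, zero_add] at hst
    exact hy0 (hmin d (Nat.lt_succ_self d) y hy (hst ▸ ht))
  -- the operator
  set T := TJ (Finset.range d) with hT
  have hTsub : T ⊆ Finset.range (2 * d) := by
    intro a ha
    have := Finset.mem_range.mp (mem_TJ.mp ha)
    rw [Finset.mem_range]
    omega
  have hTcard : d ≤ (T.image (· / 2)).card := by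
    have : Finset.range d ⊆ T.image (· / 2) := by
      intro i hi
      rw [Finset.mem_image]
      refine ⟨2 * i, ?_, by omega⟩
      rw [hT, mem_TJ]
      have : 2 * i / 2 = i := by omega
      rwa [this]
    simpa using Finset.card_le_card this
  have hone : ∀ a ∈ T, Ind (fun _ : G ℤ => (1 : A)) a := fun _ _ _ _ _ => rfl
  have hlow : ∀ t ∈ Fl C e d, (act (C := C) (ι := ℤ) A) (PJ C d (Finset.range d)) (fun n => adT e T n t) = 0 := by
    intro t ht
    unfold Fl at ht
    induction ht using Submodule.span_induction with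
    | mem z hz =>
      obtain ⟨w, hw, rfl⟩ := hz
      have h2 := vanish he w T hTsub (hw.trans_le hTcard) (fun _ => 1) hone
      simp only [one_mul] at h2
      unfold PJ
      rw [mul_comm, act_mul, h2, map_zero]
    | zero =>
      have : (fun n => adT e T n 0) = (0 : G ℤ → A) := by
        funext n
        have := adT_smul e T n (0 : C) 0
        rw [zero_smul, zero_smul] at this
        exact this
      rw [this, map_zero]
    | add z z' _ _ hz hz' =>
      have : (fun n => adT e T n (z + z')) = (fun n => adT e T n z) + fun n => adT e T n z' := by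
        funext n
        exact adT_add e T n z z'
      rw [this, map_add, hz, hz', add_zero]
    | smul r z _ hz =>
      have : (fun n => adT e T n (r • z)) = r • (fun n => adT e T n z) := by
        funext n
        exact adT_smul e T n r z
      rw [this, map_smul, hz, smul_zero]
  have htop : ∀ w : List ℤ, w.length = d →
      (act (C := C) (ι := ℤ) A) (PJ C d (Finset.range d)) (fun n => adT e T n (wd e w)) =
        (act (C := C) (ι := ℤ) A) (Q C d) (fun n => algebraMap C A (GG c (bb n) (Finset.range d) w)) := by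
    intro w hw
    have h2 := evaluate he w (Finset.range d) (Finset.Subset.refl _)
      (by rw [Finset.card_range, hw]) (fun _ => 1) hone
    simpa only [one_mul] using h2
  set H : G ℤ → C := fun n => ∑ w ∈ l.support, l w * GG c (bb n) (Finset.range d) w with hH
  have hval : (act (C := C) (ι := ℤ) A) (PJ C d (Finset.range d)) (fun n => adT e T n y) =
      fun n => algebraMap C A ((act (C := C) (ι := ℤ) C) (Q C d) H n) := by
    have h2 : (fun n => adT e T n y) = (∑ w ∈ l.support, l w • fun n => adT e T n (wd e w)) +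
        fun n => adT e T n t := by
      funext n
      rw [← hst, adT_add, Pi.add_apply, ← hls, Finsupp.linearCombination_apply, Finsupp.sum,
        Finset.sum_apply]
      congr 1
      have h3 : ∀ S : Finset (List ℤ), adT e T n (∑ w ∈ S, l w • wd e w) =
          ∑ w ∈ S, l w • adT e T n (wd e w) := by
        intro S
        induction S using Finset.induction_on with
        | empty =>
          rw [Finset.sum_empty, Finset.sum_empty]
          have := adT_smul e T n (0 : C) 0
          rw [zero_smul, zero_smul] at this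
          exact this
        | insert w S hw ih =>
          rw [Finset.sum_insert hw, Finset.sum_insert hw, adT_add, adT_smul, ih]
      rw [h3]
      rfl
    rw [h2, map_add, hlow t ht, add_zero, map_sum]
    have h3 : ∀ w ∈ l.support, (act (C := C) (ι := ℤ) A) (PJ C d (Finset.range d)) (l w • fun n => adT e T n (wd e w)) =
        (act (C := C) (ι := ℤ) A) (Q C d) (fun n => algebraMap C A (l w * GG c (bb n) (Finset.range d) w)) := by
      intro w hw
      rw [map_smul, htop w (hl hw).1, ← map_smul]
      congr 1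
      funext n
      rw [map_mul, ← Algebra.smul_def]
      rfl
    rw [Finset.sum_congr rfl h3, ← act_sum, ← act_map]
    congr 1
    funext n
    rw [hH, map_sum]
  -- the coefficient function is bounded and nonzero
  have hGG : ∀ (n : G ℤ), ∀ w ∈ l.support, GG c (bb n) (Finset.range d) w ≠ 0 →
      (w : Multiset ℤ) = (Finset.range d).val.map (bb n) := by
    intro n w hw hne
    obtain ⟨k, hk1, hk2⟩ := GG_val c (bb n) w (Finset.range d)
      (by rw [Finset.card_range, (hl hw).1])
    apply hk2.mp
    rintro rfl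
    apply hne
    rw [hk1, Nat.cast_zero, mul_zero]
  have hBdd : Bdd d H := by
    refine ⟨(∑ w ∈ l.support, (w.map (fun v => |v|)).sum) + 4, fun n hn i hi => ?_⟩
    obtain ⟨w, hw, hne⟩ := Finset.exists_ne_zero_of_sum_ne_zero hn
    have h3 := hGG n w hw (fun h => hne (by rw [h, mul_zero]))
    have h4 : bb n i ∈ (w : Multiset ℤ) := by
      rw [h3]
      exact Multiset.mem_map_of_mem _ (Finset.mem_range.mpr hi)
    have h5 : |bb n i| ≤ (w.map (fun v => |v|)).sum := by
      apply List.single_le_sum
      · intro v hv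
        obtain ⟨v', _, rfl⟩ := List.mem_map.mp hv
        exact abs_nonneg _
      · exact List.mem_map_of_mem (Multiset.mem_coe.mp h4)
    have h6 : (w.map (fun v => |v|)).sum ≤ ∑ w ∈ l.support, (w.map (fun v => |v|)).sum := by
      apply Finset.single_le_sum (f := fun w : List ℤ => (w.map (fun v => |v|)).sum) _ hw
      intro w' _
      apply List.sum_nonneg
      intro v hv
      obtain ⟨v', _, rfl⟩ := List.mem_map.mp hv
      exact abs_nonneg _
    have h7 : n (2 * i) + n (2 * i + 1) = -(bb n i) - 4 := by unfold bb; ring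
    rw [h7, abs_le]
    have h8 := abs_le.mp (h5.trans h6)
    constructor <;> omega
  have hne : H ≠ 0 := by
    obtain ⟨w0, hw0⟩ := Finsupp.support_nonempty_iff.mpr hl0
    set n0 : G ℤ := fun a => if a % 2 = 0 then -(w0.getD (a / 2) 0) - 4 else 0 with hn0
    have hb : ∀ i, bb n0 i = w0.getD i 0 := by
      intro i
      unfold bb
      rw [hn0]
      beta_reduce
      rw [if_pos (by omega), if_neg (by omega)]
      have : 2 * i / 2 = i := by omega
      rw [this]
      ring
    have hw0d : w0.length = d := (hl hw0).1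
    have hmap : (Finset.range d).val.map (bb n0) = (w0 : Multiset ℤ) := by
      rw [Finset.range_val, Multiset.range, Multiset.map_coe, Multiset.coe_eq_coe]
      have : List.map (bb n0) (List.range d) = w0 := by
        apply List.ext_getElem
        · simp [hw0d]
        · intro i h1 h2
          rw [List.getElem_map, List.getElem_range, hb, List.getD_eq_getElem _ _ h2]
      rw [this]
    intro h0
    have h1 := congrFun h0 n0
    rw [hH] at h1
    beta_reduce at h1
    rw [Finset.sum_eq_single w0] at h1
    · obtain ⟨k, hk1, hk2⟩ := GG_val c (bb n0) w0 (Finset.range d)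
        (by rw [Finset.card_range, hw0d])
      have hk : k ≠ 0 := hk2.mpr hmap.symm
      rw [hk1] at h1
      have h2 : l w0 ≠ 0 := Finsupp.mem_support_iff.mp hw0
      have h3 : (-24 * c) ^ w0.length * (k : C) ≠ 0 :=
        mul_ne_zero (pow_ne_zero _ (mul_ne_zero (by norm_num) hc)) (Nat.cast_ne_zero.mpr hk)
      exact mul_ne_zero h2 h3 h1
    · intro w hw hww
      have : GG c (bb n0) (Finset.range d) w = 0 := by
        by_contra h2
        have h3 := hGG n0 w hw h2
        rw [hmap] at h3
        exact hww ((hl hw).2.inj (hl hw0).2 h3)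
      rw [this, mul_zero]
    · intro h2
      exact absurd hw0 h2
  have hQ := act_Q_ne hBdd hne
  obtain ⟨n, hn⟩ := Function.ne_iff.mp hQ
  have h2 : (act (C := C) (ι := ℤ) A) (PJ C d (Finset.range d)) (fun n => adT e T n y) n ∈ I :=
    act_mem I _ _ (fun n => adT_mem e I hI T n hy) n
  rw [hval] at h2
  beta_reduce at h2
  exact ⟨_, hn, h2⟩

end Pool.Agent.R693.Vir
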