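import Pool.Agent.R693.W.Main
import Pool.Agent.R693.W.Vir

/-!
Generation of algebras and enveloping algebras, and transfer of ideals along surjections.
-/

set_option autoImplicit false
set_option linter.unusedSectionVars false

namespace Pool.Agent.R693.W

section gen
variable {F : Type*} [CommRing F] {A : Type*} [Ring A] [Algebra F A]

lemma exists_wd {κ : Type*} (e : κ → A) {x : A} (hx : x ∈ Submonoid.closure (Set.range e)) :
    ∃ w : List κ, x = wd e w := by
  induction hx using Submonoid.closure_induction with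
  | mem x hx =>
    obtain ⟨i, rfl⟩ := hx
    exact ⟨[i], by simp⟩
  | one => exact ⟨[], by simp⟩
  | mul x y _ _ hx hy =>
    obtain ⟨w, rfl⟩ := hx
    obtain ⟨w', rfl⟩ := hy
    exact ⟨w ++ w', by simp [wd]⟩

lemma span_of_adjoin {κ : Type*} {e : κ → A} (h : Algebra.adjoin F (Set.range e) = ⊤) (x : A) :
    ∃ k, x ∈ Submodule.span F {x | ∃ w : List κ, w.length < k ∧ x = wd e w} := by
  have h1 : x ∈ Submodule.span F (Submonoid.closure (Set.range e) : Set A) := by
    rw [← Algebra.adjoin_eq_span, h]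
    trivial
  induction h1 using Submodule.span_induction with
  | mem y hy =>
    obtain ⟨w, rfl⟩ := exists_wd e hy
    exact ⟨w.length + 1, Submodule.subset_span ⟨w, by omega, rfl⟩⟩
  | zero => exact ⟨0, Submodule.zero_mem _⟩
  | add y z _ _ hy hz =>
    obtain ⟨k, hk⟩ := hy
    obtain ⟨m, hm⟩ := hz
    refine ⟨max k m, Submodule.add_mem _ (Submodule.span_mono ?_ hk) (Submodule.span_mono ?_ hm)⟩
    · rintro _ ⟨w, hw, rfl⟩
      exact ⟨w, lt_of_lt_of_le hw (le_max_left _ _), rfl⟩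
    · rintro _ ⟨w, hw, rfl⟩
      exact ⟨w, lt_of_lt_of_le hw (le_max_right _ _), rfl⟩
  | smul a y _ hy =>
    obtain ⟨k, hk⟩ := hy
    exact ⟨k, Submodule.smul_mem _ _ hk⟩

end gen

section uea
variable (F : Type*) [CommRing F] {L : Type*} [LieRing L] [LieAlgebra F L]

lemma uea_adjoin : Algebra.adjoin F (Set.range (UniversalEnvelopingAlgebra.ι F (L := L))) = ⊤ := by
  rw [eq_top_iff]
  intro x _
  obtain ⟨y, rfl⟩ : ∃ y, UniversalEnvelopingAlgebra.mkAlgHom F L y = x :=
    Quotient.mk_surjective x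
  have h1 : y ∈ Algebra.adjoin F (Set.range (TensorAlgebra.ι F (M := L))) := by
    rw [TensorAlgebra.adjoin_range_ι]
    trivial
  have h2 := Subalgebra.mem_map.mpr
    ⟨y, h1, (rfl : (UniversalEnvelopingAlgebra.mkAlgHom F L) y = _)⟩
  rw [AlgHom.map_adjoin, ← Set.range_comp] at h2
  exact h2

lemma uea_adjoin_basis {κ : Type*} (b : Module.Basis κ F L) :
    Algebra.adjoin F (Set.range fun i => UniversalEnvelopingAlgebra.ι F (b i)) = ⊤ := by
  rw [eq_top_iff, ← uea_adjoin F (L := L), Algebra.adjoin_le_iff]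
  rintro _ ⟨x, rfl⟩
  have hx : x ∈ Submodule.span F (Set.range b) := by rw [b.span_eq]; trivial
  induction hx using Submodule.span_induction with
  | mem y hy =>
    obtain ⟨i, rfl⟩ := hy
    exact Algebra.subset_adjoin ⟨i, rfl⟩
  | zero => rw [map_zero]; exact Subalgebra.zero_mem _
  | add y z _ _ hy hz => rw [map_add]; exact Subalgebra.add_mem _ hy hz
  | smul a y _ hy => rw [map_smul]; exact Subalgebra.smul_mem _ hy _

end uea

section ideals

variable {A B : Type*} [Ring A] [Ring B]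

/-- The image of a two-sided ideal under a surjective homomorphism. -/
def img (φ : A →+* B) (hφ : Function.Surjective φ) (I : TwoSidedIdeal A) : TwoSidedIdeal B :=
  TwoSidedIdeal.mk' {b | ∃ a ∈ I, φ a = b}
    ⟨0, I.zero_mem, map_zero φ⟩
    (by
      rintro x y ⟨a, ha, rfl⟩ ⟨b, hb, rfl⟩
      exact ⟨a + b, I.add_mem ha hb, map_add φ a b⟩)
    (by
      rintro x ⟨a, ha, rfl⟩
      exact ⟨-a, I.neg_mem ha, map_neg φ a⟩)
    (by
      rintro x y ⟨a, ha, rfl⟩
      obtain ⟨c, rfl⟩ := hφ x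
      exact ⟨c * a, I.mul_mem_left _ _ ha, map_mul φ c a⟩)
    (by
      rintro x y ⟨a, ha, rfl⟩
      obtain ⟨c, rfl⟩ := hφ y
      exact ⟨a * c, I.mul_mem_right _ _ ha, map_mul φ a c⟩)

lemma mem_img {φ : A →+* B} {hφ : Function.Surjective φ} {I : TwoSidedIdeal A} {b : B} :
    b ∈ img φ hφ I ↔ ∃ a ∈ I, φ a = b := by
  unfold img
  rw [TwoSidedIdeal.mem_mk']
  rfl

lemma map_mem_img {φ : A →+* B} {hφ : Function.Surjective φ} {I : TwoSidedIdeal A}
    (hI : ∀ x, φ x = 0 → x ∈ I) {a : A} : φ a ∈ img φ hφ I ↔ a ∈ I := by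
  rw [mem_img]
  constructor
  · rintro ⟨c, hc, hca⟩
    have h1 : a - c ∈ I := hI _ (by rw [map_sub, hca, sub_self])
    simpa using I.add_mem h1 hc
  · intro ha
    exact ⟨a, ha, rfl⟩

lemma img_mono {φ : A →+* B} {hφ : Function.Surjective φ} {I J : TwoSidedIdeal A} (h : I ≤ J) :
    img φ hφ I ≤ img φ hφ J := by
  intro b hb
  rw [mem_img] at hb ⊢
  obtain ⟨a, ha, rfl⟩ := hb
  exact ⟨a, h ha, rfl⟩

lemma img_semiprime {φ : A →+* B} {hφ : Function.Surjective φ} {I : TwoSidedIdeal A}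
    (hI : ∀ x, φ x = 0 → x ∈ I) (h : IsSemiprimeT I) : IsSemiprimeT (img φ hφ I) := by
  intro K hK
  have h1 := h (TwoSidedIdeal.comap φ K) (fun a ha b hb => by
    rw [TwoSidedIdeal.mem_comap] at ha hb
    rw [← map_mem_img (hφ := hφ) hI, map_mul]
    exact hK _ ha _ hb)
  intro b hb
  obtain ⟨a, rfl⟩ := hφ b
  rw [map_mem_img hI]
  apply h1
  rw [TwoSidedIdeal.mem_comap]
  exact hb

lemma img_inj {φ : A →+* B} {hφ : Function.Surjective φ} {I J : TwoSidedIdeal A}
    (hI : ∀ x, φ x = 0 → x ∈ I) (hJ : ∀ x, φ x = 0 → x ∈ J)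
    (h : img φ hφ I = img φ hφ J) : I = J := by
  ext x
  rw [← map_mem_img (hφ := hφ) hI, h, map_mem_img hJ]

/-- Transfer of the ascending chain condition on semiprime ideals. -/
lemma acc_transfer (φ : A →+* B) (hφ : Function.Surjective φ)
    (hB : ∀ I : ℕ → TwoSidedIdeal B, Monotone I → (∀ i, IsSemiprimeT (I i)) →
      ∃ n, ∀ m, n ≤ m → I m = I n)
    (I : ℕ → TwoSidedIdeal A) (hmono : Monotone I) (hsp : ∀ i, IsSemiprimeT (I i))
    (hker : ∀ i x, φ x = 0 → x ∈ I i) : ∃ n, ∀ m, n ≤ m → I m = I n := by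
  obtain ⟨n, hn⟩ := hB (fun i => img φ hφ (I i)) (fun i j hij => img_mono (hmono hij))
    (fun i => img_semiprime (hker i) (hsp i))
  exact ⟨n, fun m hm => img_inj (hker m) (hker n) (hn m hm)⟩

end ideals

end Pool.Agent.R693.W
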