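import Pool.Agent.R693.W.Chain

/-!
The ascending chain condition on semiprime ideals for algebras generated by elements satisfying
the Witt relations.
-/

set_option autoImplicit false
set_option linter.unusedSectionVars false

namespace Pool.Agent.R693.W

/-! ### Prime and semiprime two-sided ideals -/

section ring
variable {A : Type*} [Ring A]

/-- Prime two-sided ideals. -/
def IsPrimeT (P : TwoSidedIdeal A) : Prop :=
  P ≠ ⊤ ∧ ∀ I J : TwoSidedIdeal A, (∀ a ∈ I, ∀ b ∈ J, a * b ∈ P) → I ≤ P ∨ J ≤ P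

/-- Semiprime two-sided ideals. -/
def IsSemiprimeT (S : TwoSidedIdeal A) : Prop :=
  ∀ I : TwoSidedIdeal A, (∀ a ∈ I, ∀ b ∈ I, a * b ∈ S) → I ≤ S

lemma IsPrimeT.semiprime {P : TwoSidedIdeal A} (h : IsPrimeT P) : IsSemiprimeT P := by
  intro I hI
  rcases h.2 I I hI with h | h <;> exact h

lemma sInf_semiprime (s : Set (TwoSidedIdeal A)) (h : ∀ P ∈ s, IsPrimeT P) :
    IsSemiprimeT (sInf s) := by
  intro I hI
  refine le_sInf fun P hP => (h P hP).semiprime I fun a ha b hb => ?_
  exact (sInf_le hP : sInf s ≤ P) (hI a ha b hb)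

/-- The ideal of all `b` with `V b ⊆ S`. -/
def colon (V S : TwoSidedIdeal A) : TwoSidedIdeal A :=
  TwoSidedIdeal.mk' {b | ∀ v ∈ V, v * b ∈ S}
    (fun v _ => by rw [mul_zero]; exact S.zero_mem)
    (fun {x y} hx hy v hv => by rw [mul_add]; exact S.add_mem (hx v hv) (hy v hv))
    (fun {x} hx v hv => by rw [mul_neg]; exact S.neg_mem (hx v hv))
    (fun {x y} hy v hv => by
      rw [← mul_assoc]; exact hy _ (V.mul_mem_right _ _ hv))
    (fun {x y} hx v hv => by
      rw [← mul_assoc]; exact S.mul_mem_right _ _ (hx v hv))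

lemma mem_colon {V S : TwoSidedIdeal A} {b : A} : b ∈ colon V S ↔ ∀ v ∈ V, v * b ∈ S := by
  unfold colon
  rw [TwoSidedIdeal.mem_mk']
  rfl

lemma exists_not_mem {S : TwoSidedIdeal A} (hS : IsSemiprimeT S) {x : A} (hx : x ∉ S) :
    ∃ u, x * u * x ∉ S := by
  by_contra h
  push Not at h
  apply hx
  have h1 : ∀ b ∈ TwoSidedIdeal.span {x}, ∀ u, x * u * b ∈ S := by
    intro b hb
    rw [TwoSidedIdeal.mem_span_iff] at hb
    have := hb (TwoSidedIdeal.mk' {b | ∀ u, x * u * b ∈ S}
      (fun u => by rw [mul_zero]; exact S.zero_mem)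
      (fun {y z} hy hz u => by rw [mul_add]; exact S.add_mem (hy u) (hz u))
      (fun {y} hy u => by rw [mul_neg]; exact S.neg_mem (hy u))
      (fun {y z} hz u => by
        have := hz (u * y)
        simpa only [mul_assoc] using this)
      (fun {y z} hy u => by
        have := S.mul_mem_right _ z (hy u)
        simpa only [mul_assoc] using this)) (by
        rintro y rfl
        rw [SetLike.mem_coe, TwoSidedIdeal.mem_mk']
        exact h)
    rw [TwoSidedIdeal.mem_mk'] at this
    exact this
  have h2 : ∀ a ∈ TwoSidedIdeal.span {x}, ∀ b ∈ TwoSidedIdeal.span {x}, ∀ u, a * u * b ∈ S := by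
    intro a ha b hb
    rw [TwoSidedIdeal.mem_span_iff] at ha
    have := ha (TwoSidedIdeal.mk' {a | ∀ u, a * u * b ∈ S}
      (fun u => by rw [zero_mul, zero_mul]; exact S.zero_mem)
      (fun {y z} hy hz u => by rw [add_mul, add_mul]; exact S.add_mem (hy u) (hz u))
      (fun {y} hy u => by rw [neg_mul, neg_mul]; exact S.neg_mem (hy u))
      (fun {y z} hz u => by
        have := S.mul_mem_left y _ (hz u)
        simpa only [mul_assoc] using this)
      (fun {y z} hy u => by
        have := hy (z * u)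
        simpa only [mul_assoc] using this)) (by
        rintro y rfl
        rw [SetLike.mem_coe, TwoSidedIdeal.mem_mk']
        exact h1 b hb)
    rw [TwoSidedIdeal.mem_mk'] at this
    exact this
  have h3 : TwoSidedIdeal.span {x} ≤ S := by
    apply hS
    intro a ha b hb
    have := h2 a ha b hb 1
    rwa [mul_one] at this
  exact h3 (TwoSidedIdeal.subset_span rfl)

/-- A semiprime ideal is an intersection of prime ideals. -/
lemma exists_prime {S : TwoSidedIdeal A} (hS : IsSemiprimeT S) {a : A} (ha : a ∉ S) :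
    ∃ P, IsPrimeT P ∧ S ≤ P ∧ a ∉ P := by
  classical
  choose! u hu using fun (x : A) (hx : x ∉ S) => exists_not_mem hS hx
  let x : ℕ → A := fun n => Nat.rec a (fun _ y => y * u y * y) n
  have hx : ∀ n, x n ∉ S := by
    intro n
    induction n with
    | zero => exact ha
    | succ n ih => exact hu _ ih
  have hzorn := zorn_le_nonempty₀ {P : TwoSidedIdeal A | S ≤ P ∧ ∀ n, x n ∉ P} (by
    intro c hc hchain y hy
    refine ⟨TwoSidedIdeal.mk' {z | ∃ P ∈ c, z ∈ P} ⟨y, hy, y.zero_mem⟩ ?_ ?_ ?_ ?_, ?_, ?_⟩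
    · rintro z z' ⟨P, hP, hz⟩ ⟨P', hP', hz'⟩
      rcases hchain.total hP hP' with h | h
      · exact ⟨P', hP', P'.add_mem (h hz) hz'⟩
      · exact ⟨P, hP, P.add_mem hz (h hz')⟩
    · rintro z ⟨P, hP, hz⟩
      exact ⟨P, hP, P.neg_mem hz⟩
    · rintro z z' ⟨P, hP, hz⟩
      exact ⟨P, hP, P.mul_mem_left _ _ hz⟩
    · rintro z z' ⟨P, hP, hz⟩
      exact ⟨P, hP, P.mul_mem_right _ _ hz⟩
    · refine ⟨fun z hz => ?_, fun n hn => ?_⟩
      · rw [TwoSidedIdeal.mem_mk']
        exact ⟨y, hy, (hc hy).1 hz⟩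
      · rw [TwoSidedIdeal.mem_mk'] at hn
        obtain ⟨P, hP, hn⟩ := hn
        exact (hc hP).2 n hn
    · intro P hP z hz
      rw [TwoSidedIdeal.mem_mk']
      exact ⟨P, hP, hz⟩) S ⟨le_refl S, hx⟩
  obtain ⟨P, hSP, hP⟩ := hzorn
  have hPx : ∀ n, x n ∉ P := hP.1.2
  refine ⟨P, ⟨?_, ?_⟩, hSP, hPx 0⟩
  · rintro rfl
    exact hPx 0 (TwoSidedIdeal.mem_top _)
  · intro I J hIJ
    by_contra hcon
    push Not at hcon
    have key : ∀ I : TwoSidedIdeal A, ¬ I ≤ P → ∃ n, ∀ k, n ≤ k → x k ∈ P ⊔ I := by
      intro I hI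
      have h1 : ∃ n, x n ∈ P ⊔ I := by
        by_contra h
        push Not at h
        have h2 : P ⊔ I ≤ P := hP.2 ⟨hSP.trans le_sup_left, h⟩ le_sup_left
        exact hI (le_sup_right.trans h2)
      obtain ⟨n, hn⟩ := h1
      refine ⟨n, fun k hk => ?_⟩
      induction k, hk using Nat.le_induction with
      | base => exact hn
      | succ k _ ih => exact TwoSidedIdeal.mul_mem_left _ _ _ ih
    obtain ⟨n, hn⟩ := key I hcon.1
    obtain ⟨m, hm⟩ := key J hcon.2
    have h1 := hn (max n m) (le_max_left _ _)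
    have h2 := hm (max n m) (le_max_right _ _)
    rw [TwoSidedIdeal.mem_sup] at h1 h2
    obtain ⟨p, hp, i, hi, hpi⟩ := h1
    obtain ⟨p', hp', j, hj, hpj⟩ := h2
    apply hPx (max n m + 1)
    change x (max n m) * u (x (max n m)) * x (max n m) ∈ P
    generalize x (max n m) = z at hpi hpj
    have h5 : i * u z * z = i * u z * p' + i * u z * j := by rw [← mul_add, hpj]
    have h4 : z * u z * z = (p + i) * (u z * z) := by rw [hpi, mul_assoc]
    rw [h4, add_mul, ← mul_assoc i, h5]
    refine P.add_mem (P.mul_mem_right _ _ hp) (P.add_mem (P.mul_mem_left _ _ hp') ?_)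
    exact hIJ _ (I.mul_mem_right _ _ hi) _ hj

end ring

variable {F : Type*} [Field F] [CharZero F] {ι : Type} [AddCommMonoid ι] [Lab ι]
variable {A : Type*} [Ring A] [Algebra F A] {e : ι → A}

variable (F) (e) in
/-- The submodule generated by the multiples of `eta`. -/
noncomputable def LL (J : Ideal A) (d N : ℕ) (I : Set A) : Submodule (Rd F ι d) (VV (ι := ι) J) :=
  Submodule.span (Rd F ι d)
    {f | ∃ u ∈ I, f = fun n => Submodule.Quotient.mk (u * eta0 F e d N n)}

lemma wd_eta (J : Ideal A) (d N : ℕ) (w : List ι) :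
    Noeth.wd (rho F e J d) (eta F e J d N) w =
      fun n => Submodule.Quotient.mk (wd e w * eta0 F e d N n) := by
  induction w with
  | nil =>
    funext n
    rw [Noeth.wd_nil, wd_nil, one_mul]
    rfl
  | cons v w ih =>
    rw [Noeth.wd_cons, ih]
    funext n
    rw [rho_apply, wd_cons, mul_assoc]
    rfl

/-- The stabilisation lemma. -/
lemma chain_stab (he : IsW F e) (hgen : ∀ x : A, ∃ k, x ∈ Fl F e k) (J : Ideal A) (N d : ℕ)
    (hV : Dl F ι (d + 1) ^ N ∈ aI e (d + 1) (J.restrictScalars F))
    (I : ℕ → Ideal A) (hmono : Monotone I) (hJ : J ≤ I 0)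
    (hR : ∀ i, ∀ x ∈ I i, ∀ y, x * y ∈ I i) :
    ∃ n0, ∀ m, n0 ≤ m → ∀ u ∈ I m, ∀ n : G ι, u * eta0 F e d N n ∈ I n0 := by
  have hacc := Noeth.acc (ρ := rho F e J d) (η := eta F e J d N)
    (s := fun i : Fin (d * (2 * N)) => (i : ℕ) • (Lab.one : ι)) (rho_comm J he d)
    (fun m => eta_span J N d hV m) (fun i => LL F e J d N (I i))
    (fun i j hij => Submodule.span_mono (fun f ⟨u, hu, hf⟩ => ⟨u, hmono hij hu, hf⟩))
    (by
      intro i m x hx
      beta_reduce at hx ⊢
      unfold LL at hx
      induction hx using Submodule.span_induction with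
      | mem y hy =>
        obtain ⟨u, hu, rfl⟩ := hy
        apply Submodule.subset_span
        refine ⟨e m * u, (I i).mul_mem_left _ hu, ?_⟩
        funext n
        rw [rho_apply, mul_assoc]
        rfl
      | zero => rw [map_zero]; exact Submodule.zero_mem _
      | add y z _ _ hy hz => rw [map_add]; exact Submodule.add_mem _ hy hz
      | smul a y _ hy => rw [map_smul]; exact Submodule.smul_mem _ _ hy)
    (by
      intro i x hx
      beta_reduce at hx
      unfold LL at hx
      induction hx using Submodule.span_induction with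
      | mem y hy =>
        obtain ⟨u, hu, rfl⟩ := hy
        obtain ⟨k, hk⟩ := hgen u
        refine ⟨k, ?_⟩
        clear hu
        unfold Fl at hk
        induction hk using Submodule.span_induction with
        | mem z hz =>
          obtain ⟨w, hw, rfl⟩ := hz
          rw [← wd_eta J d N w]
          exact Noeth.wd_mem hw
        | zero =>
          have : (fun n => Submodule.Quotient.mk ((0 : A) * eta0 F e d N n) : VV (ι := ι) J) = 0 := by
            funext n
            rw [zero_mul]; rfl
          rw [this]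
          exact Submodule.zero_mem _
        | add z z' _ _ hz hz' =>
          have : (fun n => Submodule.Quotient.mk ((z + z') * eta0 F e d N n) : VV (ι := ι) J) =
              (fun n => Submodule.Quotient.mk (z * eta0 F e d N n)) +
                fun n => Submodule.Quotient.mk (z' * eta0 F e d N n) := by
            funext n
            rw [add_mul]; rfl
          rw [this]
          exact Submodule.add_mem _ hz hz'
        | smul r z _ hz =>
          have : (fun n => Submodule.Quotient.mk ((r • z) * eta0 F e d N n) : VV (ι := ι) J) =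
              algebraMap F (Rd F ι d) r •
                (fun n => Submodule.Quotient.mk (z * eta0 F e d N n) : VV (ι := ι) J) := by
            rw [smul_VV]
            have h3 : ((algebraMap F (Rd F ι d) r : Rd F ι d) : K F ι) =
              algebraMap F (K F ι) r := rfl
            rw [h3, AlgHom.commutes, Module.algebraMap_end_apply]
            funext n
            rw [smul_mul_assoc]
            rfl
          rw [this]
          exact Submodule.smul_mem _ _ hz
      | zero => exact ⟨0, Submodule.zero_mem _⟩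
      | add y z _ _ hy hz =>
        obtain ⟨k, hk⟩ := hy
        obtain ⟨l, hl⟩ := hz
        exact ⟨max k l, Submodule.add_mem _ (Noeth.Fl_mono (le_max_left _ _) hk)
          (Noeth.Fl_mono (le_max_right _ _) hl)⟩
      | smul a y _ hy =>
        obtain ⟨k, hk⟩ := hy
        exact ⟨k, Submodule.smul_mem _ _ hk⟩)
  obtain ⟨n0, hn0⟩ := hacc
  refine ⟨n0, fun m hm u hu n => ?_⟩
  have h1 : (fun n => Submodule.Quotient.mk (u * eta0 F e d N n) : VV (ι := ι) J) ∈
      LL F e J d N (I m) := Submodule.subset_span ⟨u, hu, rfl⟩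
  rw [hn0 m hm] at h1
  set T : Submodule F (A ⧸ J) := (Submodule.map (Submodule.mkQ J) (I n0)).restrictScalars F with hT
  have h2 : ∀ f ∈ LL F e J d N (I n0), ∀ n : G ι, f n ∈ T := by
    intro f hf
    unfold LL at hf
    induction hf using Submodule.span_induction with
    | mem y hy =>
      obtain ⟨u', hu', rfl⟩ := hy
      intro n
      exact ⟨u' * eta0 F e d N n, hR _ _ hu' _, rfl⟩
    | zero => intro n; exact T.zero_mem
    | add y z _ _ hy hz => intro n; exact T.add_mem (hy n) (hz n)
    | smul a y _ hy =>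
      intro n
      rw [smul_VV]
      exact act_mem T _ _ hy n
  obtain ⟨a, ha, hmk⟩ := h2 _ h1 n
  have h3 : a - u * eta0 F e d N n ∈ J := (Submodule.Quotient.eq J).mp hmk
  have h4 : u * eta0 F e d N n = a - (a - u * eta0 F e d N n) := by abel
  rw [h4]
  exact (I n0).sub_mem ha (hmono (Nat.zero_le _) (hJ h3))

/-- A two-sided ideal as a subspace. -/
def subsp (F : Type*) [Field F] {A : Type*} [Ring A] [Algebra F A] (I : TwoSidedIdeal A) :
    Submodule F A := I.asIdeal.restrictScalars F

lemma mem_subsp {I : TwoSidedIdeal A} {x : A} : x ∈ subsp F I ↔ x ∈ I := by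
  unfold subsp
  rw [Submodule.restrictScalars_mem, TwoSidedIdeal.mem_asIdeal]

/-- Chains of semiprime ideals containing a power of the discriminant. -/
lemma acc_aux (he : IsW F e) (hgen : ∀ x : A, ∃ k, x ∈ Fl F e k) (d : ℕ) : ∀ (N : ℕ)
    (I : ℕ → TwoSidedIdeal A), Monotone I → (∀ i, IsSemiprimeT (I i)) →
    Dl F ι d ^ N ∈ aI e d (subsp F (I 0)) → ∃ n, ∀ m, n ≤ m → I m = I n := by
  induction d with
  | zero =>
    intro N I hmono _ hV
    have h1 : (1 : A) ∈ I 0 := by
      have h2 := hV 0
      have h3 : Dl F ι 0 = 1 := by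
        unfold Dl offd
        simp
      rw [h3, one_pow, act_one] at h2
      exact mem_subsp.mp h2
    have htop : ∀ i, I i = ⊤ := by
      intro i
      rw [← TwoSidedIdeal.one_mem_iff]
      exact hmono (Nat.zero_le i) h1
    exact ⟨0, fun m _ => by rw [htop, htop]⟩
  | succ d ih =>
    intro N I hmono hsp hV
    set I' : ℕ → TwoSidedIdeal A := fun i =>
      sInf {P | IsPrimeT P ∧ I i ≤ P ∧ ∀ n : G ι, eta0 F e d N n ∈ P} with hI'
    have hmono' : Monotone I' := by
      intro i j hij
      refine le_sInf fun P hP => sInf_le ⟨hP.1, (hmono hij).trans hP.2.1, hP.2.2⟩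
    obtain ⟨n1, hn1⟩ := ih N I' hmono' (fun i => sInf_semiprime _ fun P hP => hP.1) (by
      intro n
      rw [mem_subsp]
      change eta0 F e d N n ∈ I' 0
      rw [hI', TwoSidedIdeal.mem_sInf]
      exact fun P hP => hP.2.2 n)
    obtain ⟨n0, hn0⟩ := chain_stab he hgen (I 0).asIdeal N d hV (fun i => (I i).asIdeal)
      (fun i j hij x hx => TwoSidedIdeal.mem_asIdeal.mpr
        (hmono hij (TwoSidedIdeal.mem_asIdeal.mp hx))) (le_refl _)
      (fun i x hx y => TwoSidedIdeal.mem_asIdeal.mpr
        ((I i).mul_mem_right _ _ (TwoSidedIdeal.mem_asIdeal.mp hx)))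
    refine ⟨max n0 n1, fun m hm => le_antisymm ?_ (hmono hm)⟩
    intro u hu
    by_contra hun
    obtain ⟨P, hP, hIP, huP⟩ := exists_prime (hsp (max n0 n1)) hun
    by_cases h : ∀ k : G ι, eta0 F e d N k ∈ P
    · apply huP
      have h1 : I' (max n0 n1) ≤ P := sInf_le ⟨hP, hIP, h⟩
      apply h1
      rw [hn1 _ (le_max_right n0 n1), ← hn1 m ((le_max_right n0 n1).trans hm)]
      rw [hI', TwoSidedIdeal.mem_sInf]
      intro Q hQ
      exact hQ.2.1 hu
    · push Not at h
      obtain ⟨k, hk⟩ := h
      rcases hP.2 (I m) (colon (I m) (I (max n0 n1))) (fun a ha b hb =>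
        hIP (mem_colon.mp hb a ha)) with h1 | h1
      · exact huP (h1 hu)
      · apply hk
        apply h1
        rw [mem_colon]
        intro v hv
        apply hmono (le_max_left n0 n1)
        exact TwoSidedIdeal.mem_asIdeal.mp (hn0 m ((le_max_left n0 n1).trans hm) v
          (TwoSidedIdeal.mem_asIdeal.mpr hv) k)

/-- Every nonzero ideal contains a power of the discriminant. -/
lemma exists_Van_ideal (he : IsW F e) (hgen : ∀ x : A, ∃ k, x ∈ Fl F e k) {I : TwoSidedIdeal A}
    (hI : I ≠ ⊥) : ∃ d N, Dl F ι d ^ N ∈ aI e d (subsp F I) := by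
  have hex : ∃ x ∈ I, x ≠ 0 := by
    by_contra h
    push Not at h
    apply hI
    rw [eq_bot_iff]
    intro x hx
    rw [TwoSidedIdeal.mem_bot]
    exact h x hx
  obtain ⟨x, hx, hx0⟩ := hex
  obtain ⟨k, hk⟩ := hgen x
  exact exists_Van he (subsp F I) (fun m y hy => mem_subsp.mpr
    (I.sub_mem (I.mul_mem_left _ _ (mem_subsp.mp hy)) (I.mul_mem_right _ _ (mem_subsp.mp hy))))
    (mem_subsp.mpr hx) hx0 hk

/-- **The ascending chain condition on semiprime ideals.** -/
theorem acc_semiprime (he : IsW F e) (hgen : ∀ x : A, ∃ k, x ∈ Fl F e k)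
    (I : ℕ → TwoSidedIdeal A) (hmono : Monotone I) (hsp : ∀ i, IsSemiprimeT (I i)) :
    ∃ n, ∀ m, n ≤ m → I m = I n := by
  by_cases h : ∀ i, I i = ⊥
  · exact ⟨0, fun m _ => by rw [h, h]⟩
  · push Not at h
    obtain ⟨i0, hi0⟩ := h
    obtain ⟨d, N, hV⟩ := exists_Van_ideal (F := F) he hgen hi0
    obtain ⟨n, hn⟩ := acc_aux he hgen d N (fun i => I (i0 + i))
      (fun i j hij => hmono (by omega)) (fun i => hsp _) (by simpa using hV)
    refine ⟨i0 + n, fun m hm => ?_⟩
    have := hn (m - i0) (by omega)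
    beta_reduce at this
    rwa [show i0 + (m - i0) = m by omega] at this

end Pool.Agent.R693.W
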