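import Mathlib

/-!
Shift operators on functions of infinitely many labels with values in a module.
(Adapted from `Pool/Agent/H176R3/VirShift.lean`, with general scalars and labels.)
-/

set_option autoImplicit false

namespace Pool.Agent.R693.W

/-- The admissible label monoids: `ℕ` and `ℤ`, with a cast to `ℤ`. -/
class Lab (ι : Type) [AddCommMonoid ι] where
  /-- the cast -/
  c : ι →+ ℤ
  /-- the element one -/
  one : ι
  c_one : c one = 1
  inj : Function.Injective c
  clos : ∀ m n : ι, m ≠ n → ∃ j, c j = c m + c n - 1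
  /-- minus one if available -/
  inv : ι
  dich : c inv = -1 ∨ ∀ j, 0 ≤ c j

instance : Lab ℕ where
  c := Nat.castAddMonoidHom ℤ
  one := 1
  c_one := by simp
  inj := Nat.cast_injective
  clos := by
    intro m n h
    refine ⟨m + n - 1, ?_⟩
    simp only [Nat.coe_castAddMonoidHom]
    omega
  inv := 0
  dich := Or.inr (fun j => by simp)

instance : Lab ℤ where
  c := AddMonoidHom.id ℤ
  one := 1
  c_one := by simp
  inj := fun _ _ h => h
  clos := fun m n _ => ⟨m + n - 1, by simp⟩
  inv := -1
  dich := Or.inl (by simp)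

/-- The labels. -/
abbrev G (ι : Type) := ℕ → ι

/-- The group algebra of `G`. -/
abbrev K (C : Type*) (ι : Type) [CommRing C] [AddCommMonoid ι] := AddMonoidAlgebra C (G ι)

variable {C : Type*} [CommRing C] {ι : Type} [AddCommMonoid ι]

section
variable (M : Type*) [AddCommGroup M] [Module C M]

/-- The shift representation. -/
def shift : Multiplicative (G ι) →* Module.End C (G ι → M) where
  toFun k :=
    { toFun := fun f n => f (n + k.toAdd)
      map_add' := fun _ _ => rfl
      map_smul' := fun _ _ => rfl }
  map_one' := by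
    ext f n
    simp
  map_mul' := by
    intro k l
    ext f n
    simp only [toAdd_mul, LinearMap.coe_mk, AddHom.coe_mk, Module.End.mul_apply]
    rw [add_assoc]

/-- The group algebra acts on functions by shifts. -/
noncomputable def act : K C ι →ₐ[C] Module.End C (G ι → M) :=
  AddMonoidAlgebra.lift C (Module.End C (G ι → M)) (G ι) (shift M)

end

variable {M : Type*} [AddCommGroup M] [Module C M]

lemma act_single (k : G ι) (r : C) (f : G ι → M) (n : G ι) :
    act M (AddMonoidAlgebra.single k r) f n = r • f (n + k) := by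
  unfold act
  rw [AddMonoidAlgebra.lift_single]
  simp [shift]

lemma act_mul (p q : K C ι) (f : G ι → M) : act M (p * q) f = act M p (act M q f) := by
  rw [map_mul]; rfl

lemma act_one (f : G ι → M) : act M (1 : K C ι) f = f := by
  rw [map_one]; rfl

lemma act_pow_succ (p : K C ι) (k : ℕ) (f : G ι → M) :
    act M (p ^ (k + 1)) f = act M (p ^ k) (act M p f) := by
  rw [pow_succ, act_mul]

lemma act_pow_succ' (p : K C ι) (k : ℕ) (f : G ι → M) :
    act M (p ^ (k + 1)) f = act M p (act M (p ^ k) f) := by
  rw [pow_succ', act_mul]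

lemma act_comm (p q : K C ι) (f : G ι → M) : act M p (act M q f) = act M q (act M p f) := by
  rw [← act_mul, mul_comm, act_mul]

/-- Membership of all values in a submodule is preserved. -/
lemma act_mem (I : Submodule C M) (p : K C ι) (f : G ι → M) (hf : ∀ n, f n ∈ I) (n : G ι) :
    act M p f n ∈ I := by
  induction p using AddMonoidAlgebra.induction_linear generalizing n with
  | zero => rw [map_zero]; exact I.zero_mem
  | add p q hp hq =>
    rw [map_add, LinearMap.add_apply, Pi.add_apply]
    exact I.add_mem (hp n) (hq n)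
  | single k r =>
    rw [act_single]
    exact I.smul_mem r (hf _)

/-- The action is natural in the module. -/
lemma act_map {M' : Type*} [AddCommGroup M'] [Module C M'] (φ : M →ₗ[C] M') (p : K C ι)
    (f : G ι → M) (n : G ι) : act M' p (fun n => φ (f n)) n = φ (act M p f n) := by
  induction p using AddMonoidAlgebra.induction_linear generalizing n with
  | zero => simp
  | add p q hp hq =>
    rw [map_add, LinearMap.add_apply, Pi.add_apply, hp, hq, map_add, LinearMap.add_apply,
      Pi.add_apply, map_add]
  | single k r =>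
    rw [act_single, act_single, map_smul]

lemma act_sum (p : K C ι) {κ : Type*} (s : Finset κ) (f : κ → G ι → M) :
    act M p (fun n => ∑ i ∈ s, f i n) = ∑ i ∈ s, act M p (f i) := by
  have : (fun n => ∑ i ∈ s, f i n) = ∑ i ∈ s, f i := by
    funext n; rw [Finset.sum_apply]
  rw [this, map_sum]

variable [Lab ι]

/-- The unit vector. -/
def dl (a : ℕ) : G ι := Pi.single a Lab.one

/-- The generator of the group algebra at the label `a`. -/
noncomputable def X (a : ℕ) : K C ι := AddMonoidAlgebra.single (dl a) 1

lemma act_X (a : ℕ) (f : G ι → M) (n : G ι) : act M (X a : K C ι) f n = f (n + dl a) := by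
  unfold X
  rw [act_single, one_smul]

/-- The difference `X a - X b`. -/
noncomputable def D (a b : ℕ) : K C ι := X a - X b

lemma act_D (a b : ℕ) (f : G ι → M) (n : G ι) :
    act M (D a b : K C ι) f n = f (n + dl a) - f (n + dl b) := by
  unfold D
  rw [map_sub, LinearMap.sub_apply, Pi.sub_apply, act_X, act_X]

/-- A function independent of the coordinate `a`. -/
def Ind {M : Type*} (u : G ι → M) (a : ℕ) : Prop := ∀ n n' : G ι, (∀ b, b ≠ a → n b = n' b) → u n = u n'

lemma dl_apply (a j : ℕ) : (dl a : G ι) j = if j = a then Lab.one else 0 := by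
  unfold dl
  rw [Pi.single_apply]

lemma Ind.dl {M : Type*} {u : G ι → M} {a : ℕ} (h : Ind u a) (n : G ι) :
    u (n + W.dl a) = u n := by
  apply h
  intro b hb
  rw [Pi.add_apply, dl_apply, if_neg hb, add_zero]

lemma dl_self (a : ℕ) : (dl a : G ι) a = Lab.one := by rw [dl_apply, if_pos rfl]

lemma dl_ne {a b : ℕ} (h : a ≠ b) : (dl a : G ι) b = 0 := by rw [dl_apply, if_neg h.symm]

section alg

variable {A : Type*} [Ring A] [Algebra C A]

lemma act_D_mul {a b : ℕ} {u w : G ι → A} (hua : Ind u a) (hub : Ind u b) (hwa : Ind w a)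
    (hwb : Ind w b) (f : G ι → A) :
    act A (D a b : K C ι) (fun n => u n * f n * w n) =
      fun n => u n * act A (D a b : K C ι) f n * w n := by
  funext n
  rw [act_D, act_D, hua.dl n, hub.dl n, hwa.dl n, hwb.dl n, mul_sub, sub_mul]

lemma act_Dpow_mul {a b : ℕ} {u w : G ι → A} (hua : Ind u a) (hub : Ind u b) (hwa : Ind w a)
    (hwb : Ind w b) (k : ℕ) (f : G ι → A) :
    act A (D a b ^ k : K C ι) (fun n => u n * f n * w n) =
      fun n => u n * act A (D a b ^ k : K C ι) f n * w n := by
  induction k generalizing f with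
  | zero => simp only [pow_zero, act_one]
  | succ k ih =>
    rw [act_pow_succ, act_D_mul hua hub hwa hwb, ih]
    simp only [act_pow_succ]

end alg

/-- Affine functions. -/
def Aff (l : G ι → C) : Prop := ∀ a, ∃ α : C, ∀ n, l (n + dl a) = l n + α

/-- Products of `k` affine functions and a constant. -/
inductive PolyF : ℕ → (G ι → C) → Prop
  | const (r : C) : PolyF 0 (fun _ => r)
  | mul {k : ℕ} {p l : G ι → C} : Aff l → PolyF k p → PolyF (k + 1) (fun n => l n * p n)

lemma act_smul_aff {a b : ℕ} {l : G ι → C} (hl : Aff l) (k : ℕ) (f : G ι → M)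
    (hf : act M (D a b ^ k : K C ι) f = 0) :
    act M (D a b ^ (k + 1) : K C ι) (fun n => l n • f n) = 0 := by
  obtain ⟨α, hα⟩ := hl a
  obtain ⟨β, hβ⟩ := hl b
  induction k generalizing f with
  | zero =>
    rw [pow_zero, act_one] at hf
    subst hf
    simp only [Pi.zero_apply, smul_zero]
    exact map_zero _
  | succ k ih =>
    have h1 : act M (D a b : K C ι) (fun n => l n • f n) =
        (fun n => l n • act M (D a b : K C ι) f n) +
          (α • act M (X a : K C ι) f - β • act M (X b : K C ι) f) := by
      funext n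
      simp only [act_D, act_X, Pi.add_apply, Pi.sub_apply, Pi.smul_apply, hα, hβ]
      module
    rw [act_pow_succ, h1, map_add, map_sub, map_smul, map_smul, act_comm _ (X a), act_comm _ (X b),
      hf, map_zero, map_zero, smul_zero, smul_zero, sub_zero, add_zero]
    apply ih
    rw [← act_pow_succ]
    exact hf

lemma act_smul_poly {a b : ℕ} {k : ℕ} {p : G ι → C} (hp : PolyF k p) (f : G ι → M)
    (hf : act M (D a b : K C ι) f = 0) :
    act M (D a b ^ (k + 1) : K C ι) (fun n => p n • f n) = 0 := by
  induction hp with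
  | const r =>
    rw [zero_add, pow_one]
    have : (fun n => r • f n) = r • f := rfl
    rw [this, map_smul, hf, smul_zero]
  | mul hl hq ih =>
    have := act_smul_aff hl _ _ ih
    simp only [smul_smul] at this
    exact this

lemma act_pow_mono {a b k m : ℕ} (h : k ≤ m) {f : G ι → M}
    (hf : act M (D a b ^ k : K C ι) f = 0) :
    act M (D a b ^ m : K C ι) f = 0 := by
  obtain ⟨j, rfl⟩ := Nat.exists_eq_add_of_le h
  rw [pow_add, mul_comm, act_mul, hf, map_zero]

/-- The second power of the difference. -/
lemma act_D2 (a b : ℕ) (f : G ι → M) (n : G ι) :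
    act M (D a b ^ 2 : K C ι) f n =
      f (n + dl a + dl a) - (2 : C) • f (n + dl b + dl a) + f (n + dl b + dl b) := by
  have e1 : ∀ m : G ι, m + dl a + dl b = m + dl b + dl a := fun m => add_right_comm _ _ _
  simp only [act_pow_succ', pow_zero, act_one, act_D, e1]
  module

lemma aff_coord (a : ℕ) : Aff (fun n : G ι => ((Lab.c (n a) : ℤ) : C)) := by
  intro b
  refine ⟨if a = b then 1 else 0, fun n => ?_⟩
  beta_reduce
  rw [Pi.add_apply, dl_apply, map_add]
  split_ifs
  · rw [Lab.c_one]; push_cast; rfl
  · rw [map_zero, add_zero, add_zero]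

lemma aff_const (r : C) : Aff (fun _ : G ι => r) := fun _ => ⟨0, fun _ => (add_zero _).symm⟩

lemma Aff.add {l l' : G ι → C} (h : Aff l) (h' : Aff l') : Aff (fun n => l n + l' n) := by
  intro a
  obtain ⟨α, hα⟩ := h a
  obtain ⟨β, hβ⟩ := h' a
  exact ⟨α + β, fun n => by beta_reduce; rw [hα, hβ]; ring⟩

lemma Aff.sub {l l' : G ι → C} (h : Aff l) (h' : Aff l') : Aff (fun n => l n - l' n) := by
  intro a
  obtain ⟨α, hα⟩ := h a
  obtain ⟨β, hβ⟩ := h' a
  exact ⟨α - β, fun n => by beta_reduce; rw [hα, hβ]; ring⟩

lemma aff_sum (T : Finset ℕ) : Aff (fun n : G ι => ((∑ a ∈ T, Lab.c (n a) : ℤ) : C)) := by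
  induction T using Finset.induction_on with
  | empty => simpa using aff_const 0
  | insert a T ha ih =>
    have h := (aff_coord (C := C) (ι := ι) a).add ih
    have e1 : (fun n : G ι => ((∑ b ∈ insert a T, Lab.c (n b) : ℤ) : C)) =
        fun n : G ι => ((Lab.c (n a) : ℤ) : C) + ((∑ b ∈ T, Lab.c (n b) : ℤ) : C) := by
      funext n
      rw [Finset.sum_insert ha]
      push_cast
      rfl
    rw [e1]
    exact h

end Pool.Agent.R693.W
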